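import Mathlib
import Pool.Agent.Helper3.ETF.Far4p

/-!
# E-T (MP_12a1af_nt), project T*: probability of many far prefixes
-/

open Finset

namespace Pool.Agent.ETP

open Pool.Agent.ETS

section

variable {M N Kmax : ℕ} (lay : ℕ → Lay N) (pad : ℕ → ℕ)

/-- far candidates -/
abbrev FCand (M N Kmax K0 g : ℕ) (K : Fin (Kmax+1)) :=
  {w : Cand M N Kmax // K0 ≤ w.1.val ∧ w.1.val + g ≤ K.val}

open Classical in
/-- keys of the window of `a` in the far solutions of `a + a' = n` -/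
noncomputable def farKeys (K : Fin (Kmax+1)) (K0 g n : ℕ) (x : ∀ q : Ind M N Kmax, Xsp lay q) :
    Finset (Fin M → Option (Fin N)) :=
  (univ.filter (fun w : Cand M N Kmax => IsSol lay K g n w x ∧ K0 ≤ w.1.val)).image
    (fun w => key (lay K) (M-1) w.2.1)

/-- expected number of new solutions -/
lemma nnew_far_le (hG : GoodLay M lay Kmax) (hM : ∀ L ≤ Kmax, pad L + 3 ≤ M)
    (hV : ∀ L ≤ Kmax, ∀ i < M, ((lay L).V i).card ^ 2 ≤ 2 ^ (lay L).len i)
    (hV0 : ∀ L ≤ Kmax, ∀ i ≤ pad L, ((lay L).V i).card ≤ 1)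
    (K : Fin (Kmax+1)) (K0 g : ℕ) (hg : 1 ≤ g) (n : ℕ) (ε : ℝ) (hε0 : 0 ≤ ε) (mm : ℕ)
    (hmm : ∀ L, K0 ≤ L → L ≤ K.val → M - pad L ≤ mm) (Nb : ℕ → ℕ → ℕ → ℕ)
    (hN : ∀ K' : Fin (Kmax+1), K0 ≤ K'.val → K'.val + g ≤ K.val →
      ∀ i i', pad K + 1 ≤ i → pad K' + 1 ≤ i' → i + 1 < M → i' < M → ∀ a κ₁ κ₂ a' κ₁' κ₂' co co',
      a < 2 ^ (lay K).bot (i-1) → a' < 2 ^ (lay K').bot (i'-1) →
      (ConsSet lay K K' i i' n a κ₁ κ₂ a' κ₁' κ₂' co co').card ≤ Nb K' i i')
    (hε : ∀ K' : Fin (Kmax+1), K0 ≤ K'.val → K'.val + g ≤ K.val →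
      ∀ i i', pad K + 1 ≤ i → pad K' + 1 ≤ i' → i + 1 < M → i' < M →
        (Nb K' i i' : ℝ) * phi lay K K' i i' ≤ ε)
    (t : ℕ) (T : Finset (FCand M N Kmax K0 g K)) (hT : T.card ≤ t)
    (x : ∀ q : Ind M N Kmax, Xsp lay q) :
    ∑ y ∈ fib (U0 pad ∪ T.biUnion (fun w => Sidx lay K w.1)) x,
      (nnew (fun (w : FCand M N Kmax K0 g K) y => IsSol lay K g n w.1 y)
        (fun w' w => Rdiff lay K w'.1 w.1) T y : ℝ) ≤
      ((K.val : ℝ) * (mm : ℝ) ^ 2 * (2 * t + 1) ^ 2 * ε) *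
        (fib (U0 pad ∪ T.biUnion (fun w => Sidx lay K w.1)) x).card := by
  classical
  set T' : Finset (Cand M N Kmax) := T.image (fun w => w.1) with hT'
  have hUeq : U0 pad ∪ T.biUnion (fun w => Sidx lay K w.1) = Uof lay pad K T' := by
    unfold Uof
    rw [hT', Finset.image_biUnion]
  rw [hUeq]
  set U := Uof lay pad K T' with hU
  have hT'c : T'.card ≤ t := (card_image_le).trans hT
  have hT'K : ∀ w ∈ T', w.1 ≠ K := by
    intro w hw h
    rw [hT', mem_image] at hw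
    obtain ⟨w', _, rfl⟩ := hw
    have h1 := w'.2.2
    rw [h] at h1
    omega
  -- sum over candidates
  have h1 : ∑ y ∈ fib U x,
      (nnew (fun (w : FCand M N Kmax K0 g K) y => IsSol lay K g n w.1 y)
        (fun w' w => Rdiff lay K w'.1 w.1) T y : ℝ) ≤
      ∑ K' ∈ univ.filter (fun K' : Fin (Kmax+1) => K0 ≤ K'.val ∧ K'.val + g ≤ K.val),
        ∑ zz : (Fin M → Fin N) × (Fin M → Fin N),
      (if (∀ m : Fin M, zz.1 m ∈ (lay K).V m) ∧ (∀ m : Fin M, zz.2 m ∈ (lay K').V m) ∧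
          (∀ w' ∈ T', Rdiff lay K w' (K', zz.1, zz.2)) then
        (((fib U x).filter
          (fun y => elt lay K y zz.1 + elt lay K' y zz.2 = n)).card : ℝ)
        else 0) := by
    have e1 : ∀ y, (nnew (fun (w : FCand M N Kmax K0 g K) y => IsSol lay K g n w.1 y)
        (fun w' w => Rdiff lay K w'.1 w.1) T y : ℝ) ≤
        ∑ K' ∈ univ.filter (fun K' : Fin (Kmax+1) => K0 ≤ K'.val ∧ K'.val + g ≤ K.val),
        ∑ zz : (Fin M → Fin N) × (Fin M → Fin N),
        (if (∀ m : Fin M, zz.1 m ∈ (lay K).V m) ∧ (∀ m : Fin M, zz.2 m ∈ (lay K').V m) ∧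
          (∀ w' ∈ T', Rdiff lay K w' (K', zz.1, zz.2)) then
          (if elt lay K y zz.1 + elt lay K' y zz.2 = n then (1:ℝ) else 0) else 0) := by
      intro y
      have e2 : nnew (fun (w : FCand M N Kmax K0 g K) y => IsSol lay K g n w.1 y)
        (fun w' w => Rdiff lay K w'.1 w.1) T y ≤
        (((univ.filter (fun K' : Fin (Kmax+1) => K0 ≤ K'.val ∧ K'.val + g ≤ K.val)) ×ˢ
          (univ : Finset ((Fin M → Fin N) × (Fin M → Fin N)))).filter (fun p =>
            ((∀ m : Fin M, p.2.1 m ∈ (lay K).V m) ∧ (∀ m : Fin M, p.2.2 m ∈ (lay p.1).V m) ∧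
          (∀ w' ∈ T', Rdiff lay K w' (p.1, p.2.1, p.2.2))) ∧
            elt lay K y p.2.1 + elt lay p.1 y p.2.2 = n)).card := by
        unfold nnew
        refine card_le_card_of_injOn (fun w => (w.1.1, (w.1.2.1, w.1.2.2))) ?_ ?_
        · intro w hw
          have hw' := hw
          simp only [coe_filter, mem_univ, true_and, Set.mem_ofPred_eq] at hw'
          obtain ⟨hs, hr⟩ := hw'
          obtain ⟨s1, s2, s3, s4⟩ := hs
          simp only [coe_filter, mem_product, mem_filter, mem_univ, true_and, and_true,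
            Set.mem_ofPred_eq]
          refine ⟨⟨w.2.1, w.2.2⟩, ⟨s2, s3, ?_⟩, s4⟩
          intro w' hw'
          rw [hT', mem_image] at hw'
          obtain ⟨w'', hw'', rfl⟩ := hw'
          exact hr w'' hw''
        · intro a _ b _ hab
          simp only [Prod.mk.injEq] at hab
          apply Subtype.ext
          exact Prod.ext hab.1 (Prod.ext hab.2.1 hab.2.2)
      have e3 : (((((univ.filter (fun K' : Fin (Kmax+1) => K0 ≤ K'.val ∧ K'.val + g ≤ K.val)) ×ˢ
          (univ : Finset ((Fin M → Fin N) × (Fin M → Fin N)))).filter (fun p =>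
            ((∀ m : Fin M, p.2.1 m ∈ (lay K).V m) ∧ (∀ m : Fin M, p.2.2 m ∈ (lay p.1).V m) ∧
          (∀ w' ∈ T', Rdiff lay K w' (p.1, p.2.1, p.2.2))) ∧
            elt lay K y p.2.1 + elt lay p.1 y p.2.2 = n)).card : ℕ) : ℝ) =
          ∑ K' ∈ univ.filter (fun K' : Fin (Kmax+1) => K0 ≤ K'.val ∧ K'.val + g ≤ K.val),
        ∑ zz : (Fin M → Fin N) × (Fin M → Fin N),
        (if (∀ m : Fin M, zz.1 m ∈ (lay K).V m) ∧ (∀ m : Fin M, zz.2 m ∈ (lay K').V m) ∧
          (∀ w' ∈ T', Rdiff lay K w' (K', zz.1, zz.2)) then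
          (if elt lay K y zz.1 + elt lay K' y zz.2 = n then (1:ℝ) else 0) else 0) := by
        rw [Finset.card_filter, Finset.sum_product]
        push_cast
        refine Finset.sum_congr rfl (fun K' _ => Finset.sum_congr rfl (fun zz _ => ?_))
        by_cases hA : ((∀ m : Fin M, zz.1 m ∈ (lay K).V m) ∧ (∀ m : Fin M, zz.2 m ∈ (lay K').V m) ∧
          (∀ w' ∈ T', Rdiff lay K w' (K', zz.1, zz.2)))
        · by_cases hB : elt lay K y zz.1 + elt lay K' y zz.2 = n
          · rw [if_pos ⟨hA, hB⟩, if_pos hA, if_pos hB]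
          · rw [if_neg (fun h => hB h.2), if_pos hA, if_neg hB]
        · rw [if_neg (fun h => hA h.1), if_neg hA]
      rw [← e3]
      exact_mod_cast e2
    refine (Finset.sum_le_sum (fun y _ => e1 y)).trans (le_of_eq ?_)
    rw [Finset.sum_comm]
    refine Finset.sum_congr rfl (fun K' _ => ?_)
    rw [Finset.sum_comm]
    refine Finset.sum_congr rfl (fun zz _ => ?_)
    split_ifs with hA
    · rw [Finset.card_filter]
      push_cast
      rfl
    · simp
  refine h1.trans ?_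
  have h2 : ∀ K' ∈ univ.filter (fun K' : Fin (Kmax+1) => K0 ≤ K'.val ∧ K'.val + g ≤ K.val),
      ∑ zz : (Fin M → Fin N) × (Fin M → Fin N),
      (if (∀ m : Fin M, zz.1 m ∈ (lay K).V m) ∧ (∀ m : Fin M, zz.2 m ∈ (lay K').V m) ∧
          (∀ w' ∈ T', Rdiff lay K w' (K', zz.1, zz.2)) then
        (((fib U x).filter
          (fun y => elt lay K y zz.1 + elt lay K' y zz.2 = n)).card : ℝ)
        else 0) ≤ ((mm : ℝ) ^ 2 * (2 * t + 1) ^ 2 * ε) * (fib U x).card := by
    intro K' hK'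
    rw [mem_filter] at hK'
    obtain ⟨_, h0, h0'⟩ := hK'
    have hKK : K' < K := by
      rw [Fin.lt_def]; omega
    refine (far_scale lay pad hG hM hV hV0 hKK n ε (Nb K') (hN K' h0 h0') (hε K' h0 h0') T' hT'K
      x).trans ?_
    refine mul_le_mul_of_nonneg_right ?_ (by positivity)
    refine mul_le_mul_of_nonneg_right ?_ hε0
    have a1 : ((M - pad K : ℕ) : ℝ) ≤ mm := by exact_mod_cast hmm K (by omega) (le_refl _)
    have a2 : ((M - pad K' : ℕ) : ℝ) ≤ mm := by exact_mod_cast hmm K' h0 (by omega)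
    have a3 : ((2 * T'.card + 1 : ℝ)) ≤ 2 * t + 1 := by
      have : (T'.card : ℝ) ≤ t := by exact_mod_cast hT'c
      linarith
    have a4 : ((2 * T'.card + 1 : ℝ)) ^ 2 ≤ (2 * t + 1) ^ 2 :=
      pow_le_pow_left₀ (by positivity) a3 2
    calc ((M - pad K : ℕ) : ℝ) * ((M - pad K' : ℕ) : ℝ) * (2 * T'.card + 1) ^ 2
        ≤ (mm : ℝ) * mm * (2 * t + 1) ^ 2 := by
          refine mul_le_mul ?_ a4 (by positivity) (by positivity)
          exact mul_le_mul a1 a2 (by positivity) (by positivity)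
      _ = _ := by ring
  refine (Finset.sum_le_sum h2).trans ?_
  rw [Finset.sum_const, nsmul_eq_mul]
  have h3 : (((univ.filter (fun K' : Fin (Kmax+1) => K0 ≤ K'.val ∧ K'.val + g ≤ K.val)).card : ℕ) : ℝ)
      ≤ K.val := by
    have : (univ.filter (fun K' : Fin (Kmax+1) => K0 ≤ K'.val ∧ K'.val + g ≤ K.val)).card ≤
        (range K.val).card := by
      refine card_le_card_of_injOn (fun K' => K'.val) ?_ ?_
      · intro K' hK'
        simp only [coe_filter, mem_univ, true_and, Set.mem_ofPred_eq] at hK'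
        simp only [coe_range, Set.mem_Iio]
        omega
      · intro a _ b _ hab
        exact Fin.ext hab
    rw [card_range] at this
    exact_mod_cast this
  calc _ ≤ (K.val : ℝ) * (((mm : ℝ) ^ 2 * (2 * t + 1) ^ 2 * ε) * (fib U x).card) :=
        mul_le_mul_of_nonneg_right h3 (by positivity)
    _ = _ := by ring

/-- number of hash functions for which there are at least `s` different far keys -/
theorem card_farKeys_le (hG : GoodLay M lay Kmax) (hM : ∀ L ≤ Kmax, pad L + 3 ≤ M)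
    (hV : ∀ L ≤ Kmax, ∀ i < M, ((lay L).V i).card ^ 2 ≤ 2 ^ (lay L).len i)
    (hV0 : ∀ L ≤ Kmax, ∀ i ≤ pad L, ((lay L).V i).card ≤ 1)
    (K : Fin (Kmax+1)) (K0 g : ℕ) (hg : 1 ≤ g) (n : ℕ) (ε : ℝ) (hε0 : 0 ≤ ε) (mm : ℕ)
    (hmm : ∀ L, K0 ≤ L → L ≤ K.val → M - pad L ≤ mm) (Nb : ℕ → ℕ → ℕ → ℕ)
    (hN : ∀ K' : Fin (Kmax+1), K0 ≤ K'.val → K'.val + g ≤ K.val →
      ∀ i i', pad K + 1 ≤ i → pad K' + 1 ≤ i' → i + 1 < M → i' < M → ∀ a κ₁ κ₂ a' κ₁' κ₂' co co',
      a < 2 ^ (lay K).bot (i-1) → a' < 2 ^ (lay K').bot (i'-1) →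
      (ConsSet lay K K' i i' n a κ₁ κ₂ a' κ₁' κ₂' co co').card ≤ Nb K' i i')
    (hε : ∀ K' : Fin (Kmax+1), K0 ≤ K'.val → K'.val + g ≤ K.val →
      ∀ i i', pad K + 1 ≤ i → pad K' + 1 ≤ i' → i + 1 < M → i' < M →
        (Nb K' i i' : ℝ) * phi lay K K' i i' ≤ ε)
    (s : ℕ) :
    ((univ.filter (fun x : (∀ q : Ind M N Kmax, Xsp lay q) =>
      s ≤ (farKeys lay K K0 g n x).card)).card : ℝ) ≤
      ((K.val : ℝ) * (mm : ℝ) ^ 2 * (2 * s + 1) ^ 2 * ε) ^ s *
        Fintype.card (∀ q : Ind M N Kmax, Xsp lay q) := by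
  classical
  have hB0 : 0 ≤ ((K.val : ℝ) * (mm : ℝ) ^ 2 * (2 * s + 1) ^ 2 * ε) := by positivity
  have hfm := factMoment (X := fun q : Ind M N Kmax => Xsp lay q)
    (S := fun w : FCand M N Kmax K0 g K => Sidx lay K w.1)
    (E := fun (w : FCand M N Kmax K0 g K) y => IsSol lay K g n w.1 y)
    (hE := fun w x y h => isSol_congr lay K g n w.1 x y h)
    (R := fun w' w => Rdiff lay K w'.1 w.1) (U₀ := U0 pad)
    (B := ((K.val : ℝ) * (mm : ℝ) ^ 2 * (2 * s + 1) ^ 2 * ε)) hB0 s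
    (fun T hT x => nnew_far_le lay pad hG hM hV hV0 K K0 g hg n ε hε0 mm hmm Nb hN hε s T hT x)
    s (Nat.le_succ s)
  refine le_trans ?_ hfm
  rw [Finset.card_filter]
  push_cast
  refine Finset.sum_le_sum (fun x _ => ?_)
  split_ifs with hx
  · -- choose s solutions with different keys
    have h1 : 1 ≤ ntup (fun (w : FCand M N Kmax K0 g K) y => IsSol lay K g n w.1 y)
        (fun w' w => Rdiff lay K w'.1 w.1) s x := by
      obtain ⟨Q, hQsub, hQc⟩ := Finset.exists_subset_card_eq hx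
      have hch : ∀ p : Q, ∃ w : FCand M N Kmax K0 g K, IsSol lay K g n w.1 x ∧
          key (lay K) (M-1) w.1.2.1 = p.1 := by
        intro p
        have hp := hQsub p.2
        unfold farKeys at hp
        rw [mem_image] at hp
        obtain ⟨w, hw, hwp⟩ := hp
        simp only [mem_filter, mem_univ, true_and] at hw
        exact ⟨⟨w, hw.2, hw.1.1⟩, hw.1, hwp⟩
      choose f hf using hch
      let e : Fin s ≃ Q := (finCongr (by simp [hQc])).trans Q.equivFin.symm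
      unfold ntup
      rw [Nat.one_le_iff_ne_zero, Finset.card_ne_zero]
      refine ⟨fun j => f (e j), ?_⟩
      rw [mem_filter]
      refine ⟨mem_univ _, fun j => (hf (e j)).1, fun i j hij => ?_⟩
      unfold Rdiff
      intro hk
      rw [(hf (e i)).2, (hf (e j)).2] at hk
      have := e.injective (Subtype.ext hk)
      exact absurd this (ne_of_lt hij)
    exact_mod_cast h1
  · positivity

end

end Pool.Agent.ETP
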