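import Mathlib
import Pool.Agent.Helper3.ETF.Fail1

/-!
# E-T (MP_12a1af_nt), project T*: few scales close to `K` for one prefix
-/

open Finset

namespace Pool.Agent.ETP

open Pool.Agent.ETS

section

variable {M N Kmax : ℕ} (lay : ℕ → Lay N)

/-- the admissible tuples of variables at scale `L` -/
def vars (M : ℕ) {N : ℕ} (lay : ℕ → Lay N) (L : ℕ) : Finset (Fin M → Fin N) :=
  Fintype.piFinset (fun m : Fin M => (lay L).V m.val)

lemma mem_vars {L : ℕ} {z : Fin M → Fin N} : z ∈ vars M lay L ↔ ∀ m : Fin M, z m ∈ (lay L).V m := by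
  simp [vars]

lemma sum_len (hG : GoodLay M lay Kmax) {L : ℕ} (hL : L ≤ Kmax) :
    ∑ m : Fin M, (lay L).len m.val = L := by
  have h1 : ∑ m : Fin M, (lay L).len m.val = ∑ m ∈ range M, (lay L).len m :=
    Fin.sum_univ_eq_sum_range (fun m => (lay L).len m) M
  rw [h1]
  unfold Lay.len
  have h3 : ∀ k, ∑ m ∈ range k, ((lay L).bot (m + 1) - (lay L).bot m) = (lay L).bot k := by
    intro k
    induction k with
    | zero => simp [hG.bot0 L hL]
    | succ k ih =>
      rw [sum_range_succ, ih]
      have a1 : (lay L).bot k ≤ (lay L).bot (k+1) := hG.mono L hL (Nat.le_succ k)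
      omega
  rw [h3, hG.top L hL]

lemma card_vars_sq (hG : GoodLay M lay Kmax) {L : ℕ} (hL : L ≤ Kmax)
    (hV : ∀ i < M, ((lay L).V i).card ^ 2 ≤ 2 ^ (lay L).len i) :
    (vars M lay L).card ^ 2 ≤ 2 ^ L := by
  unfold vars
  rw [Fintype.card_piFinset, ← Finset.prod_pow]
  calc ∏ m : Fin M, ((lay L).V m.val).card ^ 2 ≤ ∏ m : Fin M, 2 ^ (lay L).len m.val :=
        Finset.prod_le_prod' (fun m _ => hV m.val m.isLt)
    _ = 2 ^ L := by rw [Finset.prod_pow_eq_pow_sum, sum_len lay hG hL]

/-- the value of a fresh element is uniform -/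
lemma card_fresh (hG : GoodLay M lay Kmax) (K' : Fin (Kmax+1)) (z' : Fin M → Fin N)
    (U : Finset (Ind M N Kmax)) (hU : ∀ q ∈ U, q.1 ≠ K') (x : ∀ q : Ind M N Kmax, Xsp lay q)
    (m : ℕ) :
    ((fib U x).filter (fun y => elt lay K' y z' = m)).card * 2 ^ K'.val ≤ (fib U x).card := by
  classical
  have hKm' : K'.val ≤ Kmax := by have := K'.isLt; omega
  have hb0' := hG.bot0 K' hKm'
  have hbm' := hG.mono K' hKm'
  have hd : Disjoint U (hidx lay K' z' 0) := by
    rw [Finset.disjoint_left]
    intro q hq hq'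
    rw [mem_hidx] at hq'
    obtain ⟨m', _, rfl⟩ := hq'
    exact hU _ hq rfl
  have hcard := card_fib_union (X := fun q : Ind M N Kmax => Xsp lay q) hd x
  rw [prod_hidx lay hG K' z' (Nat.zero_le _), hb0', Nat.sub_zero] at hcard
  rw [hcard, mul_comm]
  refine Nat.mul_le_mul_left _ ?_
  rcases ((fib U x).filter (fun y => elt lay K' y z' = m)).eq_empty_or_nonempty with h | ⟨y₀, hy₀⟩
  · rw [h]; simp
  · rw [card_fib_const (U ∪ hidx lay K' z' 0) x y₀]
    refine card_le_card ?_
    intro y hy
    rw [mem_filter, mem_fib] at hy hy₀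
    rw [mem_fib]
    intro q hq
    rw [mem_union] at hq
    rcases hq with hq | hq
    · rw [hy.1 q hq, hy₀.1 q hq]
    · rw [mem_hidx] at hq
      obtain ⟨m', _, rfl⟩ := hq
      have hv : pval (lay K').bot (dig lay K' y z') M = pval (lay K').bot (dig lay K' y₀ z') M := by
        have h1 := hy.2
        have h2 := hy₀.2
        unfold elt at h1 h2
        omega
      exact hash_eq_of_dig_eq lay
          (pval_inj hb0' hbm' (dig_lt lay K' y z') (dig_lt lay K' y₀ z') hv m'.val m'.isLt)

/-- candidates with a given window key -/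
abbrev MCand (M N Kmax : ℕ) (lay : ℕ → Lay N) (K : Fin (Kmax+1))
    (p : Fin M → Option (Fin N)) :=
  {w : Cand M N Kmax // (((lay K).bot (M-1) ≤ w.1.val ∧ w.1.val < K.val) ∧
    w.2.1 ∈ vars M lay K ∧ w.2.2 ∈ vars M lay w.1) ∧ key (lay K) (M-1) w.2.1 = p}

open Classical in
/-- the scales `K'` in `[a₀, K)` for which there is a solution with the window key `p` -/
noncomputable def midScales (K : Fin (Kmax+1)) (n : ℕ) (p : Fin M → Option (Fin N))
    (x : ∀ q : Ind M N Kmax, Xsp lay q) : Finset (Fin (Kmax+1)) :=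
  univ.filter (fun K' => ((lay K).bot (M-1) ≤ K'.val ∧ K'.val < K.val) ∧
    ∃ z z' : Fin M → Fin N, z ∈ vars M lay K ∧ z' ∈ vars M lay K' ∧
      key (lay K) (M-1) z = p ∧ elt lay K x z + elt lay K' x z' = n)

/-- the pair of candidates has the sum `n` -/
def EqSol (K : Fin (Kmax+1)) (n : ℕ) (w : Cand M N Kmax) (y : ∀ q : Ind M N Kmax, Xsp lay q) : Prop :=
  elt lay K y w.2.1 + elt lay w.1 y w.2.2 = n

/-- different scales -/
def DiffSc (w' w : Cand M N Kmax) : Prop := w'.1 ≠ w.1

/-- number of tuples with a given window key -/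
lemma card_key_le (hM : 2 ≤ M) (K : ℕ)
    (hcore : ∀ v ∈ (lay K).V (M-2), ∀ v' ∈ (lay K).V (M-2),
      (lay K).core (M-2) v = (lay K).core (M-2) v' → v = v')
    (p : Fin M → Option (Fin N)) :
    ((vars M lay K).filter (fun z => key (lay K) (M-1) z = p)).card ≤ ((lay K).V (M-1)).card := by
  classical
  refine card_le_card_of_injOn (fun z => z ⟨M-1, by omega⟩) ?_ ?_
  · intro z hz
    simp only [coe_filter, Set.mem_ofPred_eq] at hz
    exact (mem_vars lay).mp hz.1 ⟨M-1, by omega⟩
  · intro z hz z' hz' h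
    simp only [coe_filter, Set.mem_ofPred_eq] at hz hz'
    have hk := key_eq_iff.mp (hz.2.trans hz'.2.symm)
    funext j
    rcases Nat.lt_trichotomy (j.val + 1) (M-1) with hj | hj | hj
    · exact hk.1 j hj
    · have h1 := hk.2 j hj
      have hj2 : j.val = M-2 := by omega
      have h2 := (mem_vars lay).mp hz.1 j
      have h3 := (mem_vars lay).mp hz'.1 j
      rw [hj2] at h1 h2 h3
      exact hcore _ h2 _ h3 h1
    · have hj2 : j = ⟨M-1, by omega⟩ := Fin.ext (by show j.val = M-1; have := j.isLt; omega)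
      rw [hj2]
      exact h

lemma nnew_mid_le (hG : GoodLay M lay Kmax) (hM : 2 ≤ M)
    (hV : ∀ L ≤ Kmax, ∀ i < M, ((lay L).V i).card ^ 2 ≤ 2 ^ (lay L).len i)
    (K : Fin (Kmax+1))
    (hcore : ∀ v ∈ (lay K).V (M-2), ∀ v' ∈ (lay K).V (M-2),
      (lay K).core (M-2) v = (lay K).core (M-2) v' → v = v')
    (n : ℕ) (p : Fin M → Option (Fin N)) (T : Finset (MCand M N Kmax lay K p))
    (x : ∀ q : Ind M N Kmax, Xsp lay q) :
    ∑ y ∈ fib ((univ.filter (fun q : Ind M N Kmax => q.1 = K)) ∪
        T.biUnion (fun w => Sidx lay K w.1)) x,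
      (nnew (fun (w : MCand M N Kmax lay K p) y => EqSol lay K n w.1 y)
        (fun w' w => DiffSc w'.1 w.1) T y : ℝ) ≤
      ((K.val : ℝ) * (Real.sqrt (2 ^ (K.val - (lay K).bot (M-1))) /
        Real.sqrt (2 ^ (lay K).bot (M-1)))) *
        (fib ((univ.filter (fun q : Ind M N Kmax => q.1 = K)) ∪
        T.biUnion (fun w => Sidx lay K w.1)) x).card := by
  classical
  have hKm : K.val ≤ Kmax := by have := K.isLt; omega
  set U := (univ.filter (fun q : Ind M N Kmax => q.1 = K)) ∪
        T.biUnion (fun w => Sidx lay K w.1) with hU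
  set a0 := (lay K).bot (M-1) with ha0
  -- the sum over the candidates
  have h1 : ∑ y ∈ fib U x,
      (nnew (fun (w : MCand M N Kmax lay K p) y => EqSol lay K n w.1 y)
        (fun w' w => DiffSc w'.1 w.1) T y : ℝ) =
      ∑ w : MCand M N Kmax lay K p, if ∀ w' ∈ T, w'.1.1 ≠ w.1.1 then
        (((fib U x).filter (fun y => elt lay K y w.1.2.1 + elt lay w.1.1 y w.1.2.2 = n)).card : ℝ)
        else 0 := by
    have e1 : ∀ y : (∀ q : Ind M N Kmax, Xsp lay q),
        (nnew (fun (w : MCand M N Kmax lay K p) y => EqSol lay K n w.1 y)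
        (fun w' w => DiffSc w'.1 w.1) T y : ℝ)
        = ∑ w : MCand M N Kmax lay K p, if ∀ w' ∈ T, w'.1.1 ≠ w.1.1 then
          (if elt lay K y w.1.2.1 + elt lay w.1.1 y w.1.2.2 = n then (1:ℝ) else 0) else 0 := by
      intro y
      unfold nnew
      rw [Finset.card_filter]
      push_cast
      refine Finset.sum_congr rfl (fun w _ => ?_)
      unfold EqSol DiffSc
      by_cases hA : ∀ w' ∈ T, w'.1.1 ≠ w.1.1
      · by_cases hB : elt lay K y w.1.2.1 + elt lay w.1.1 y w.1.2.2 = n
        · rw [if_pos ⟨hB, hA⟩, if_pos hA, if_pos hB]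
        · rw [if_neg (fun h => hB h.1), if_pos hA, if_neg hB]
      · rw [if_neg (fun h => hA h.2), if_neg hA]
    rw [Finset.sum_congr rfl (fun y _ => e1 y), Finset.sum_comm]
    refine Finset.sum_congr rfl (fun w _ => ?_)
    split_ifs with hA
    · rw [Finset.card_filter]
      push_cast
      rfl
    · simp
  rw [h1]
  -- each term
  have h2 : ∀ w : MCand M N Kmax lay K p, (if ∀ w' ∈ T, w'.1.1 ≠ w.1.1 then
        (((fib U x).filter (fun y => elt lay K y w.1.2.1 + elt lay w.1.1 y w.1.2.2 = n)).card : ℝ)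
        else 0) ≤ (fib U x).card / 2 ^ w.1.1.val := by
    intro w
    split_ifs with hA
    · rw [le_div_iff₀ (by positivity)]
      have hUK : ∀ q ∈ U, q.1 ≠ w.1.1 := by
        intro q hq h
        rw [hU, mem_union, mem_filter, mem_biUnion] at hq
        have hwK : w.1.1 ≠ K := fun h' => by
          have h9 := w.2.1.1.2
          rw [h'] at h9
          exact lt_irrefl _ h9
        rcases hq with hq | ⟨w', hw', hq⟩
        · exact hwK (by rw [← h, hq.2])
        · unfold Sidx at hq
          rw [mem_union, mem_hidx, mem_hidx] at hq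
          rcases hq with ⟨m', _, hq⟩ | ⟨m', _, hq⟩
          · rw [hq] at h
            exact hwK h.symm
          · rw [hq] at h
            exact hA w' hw' h
      have hconst : ∀ y ∈ fib U x, elt lay K y w.1.2.1 = elt lay K x w.1.2.1 := by
        intro y hy
        rw [mem_fib] at hy
        refine elt_congr lay K (fun q hq => hy q ?_)
        rw [hU, mem_union, mem_filter]
        left
        rw [mem_hidx] at hq
        obtain ⟨m', _, rfl⟩ := hq
        exact ⟨mem_univ _, rfl⟩
      have h3 := card_fresh lay hG w.1.1 w.1.2.2 U hUK x (n - elt lay K x w.1.2.1)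
      have h4 : ((fib U x).filter (fun y => elt lay K y w.1.2.1 + elt lay w.1.1 y w.1.2.2 = n)).card
          ≤ ((fib U x).filter (fun y => elt lay w.1.1 y w.1.2.2 = n - elt lay K x w.1.2.1)).card := by
        refine card_le_card ?_
        intro y hy
        rw [mem_filter] at hy ⊢
        refine ⟨hy.1, ?_⟩
        have := hy.2
        rw [hconst y hy.1] at this
        omega
      have h5 := (Nat.mul_le_mul_right (2 ^ w.1.1.val) h4).trans h3
      exact_mod_cast h5
    · positivity
  refine (Finset.sum_le_sum (fun w _ => h2 w)).trans ?_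
  -- count the candidates
  have h6 : ∑ w : MCand M N Kmax lay K p, ((fib U x).card : ℝ) / 2 ^ w.1.1.val ≤
      ∑ K' ∈ univ.filter (fun K' : Fin (Kmax+1) => a0 ≤ K'.val ∧ K'.val < K.val),
        ((((vars M lay K).filter (fun z => key (lay K) (M-1) z = p)).card : ℝ) *
          (vars M lay K').card) * ((fib U x).card / 2 ^ K'.val) := by
    have e1 : ∀ K' : Fin (Kmax+1), ((((vars M lay K).filter (fun z => key (lay K) (M-1) z = p)).card : ℝ) *
          (vars M lay K').card) * ((fib U x).card / 2 ^ K'.val) =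
        ∑ zz ∈ ((vars M lay K).filter (fun z => key (lay K) (M-1) z = p)) ×ˢ (vars M lay K'),
          ((fib U x).card : ℝ) / 2 ^ K'.val := by
      intro K'
      rw [Finset.sum_const, card_product, nsmul_eq_mul]
      push_cast
      ring
    rw [Finset.sum_congr rfl (fun K' _ => e1 K')]
    rw [Finset.sum_sigma']
    have hinj : Set.InjOn (fun w : MCand M N Kmax lay K p =>
        (⟨w.1.1, w.1.2⟩ : Σ _ : Fin (Kmax+1), (Fin M → Fin N) × (Fin M → Fin N)))
        ((univ : Finset (MCand M N Kmax lay K p)) : Set (MCand M N Kmax lay K p)) := by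
      intro a _ b _ hab
      simp only [Sigma.mk.injEq, heq_eq_eq] at hab
      exact Subtype.ext (Prod.ext hab.1 hab.2)
    have e2 := Finset.sum_image (f := fun (s : Σ _ : Fin (Kmax+1), (Fin M → Fin N) × (Fin M → Fin N)) =>
        ((fib U x).card : ℝ) / 2 ^ s.1.val) hinj
    rw [← e2]
    refine Finset.sum_le_sum_of_subset_of_nonneg ?_ (fun _ _ _ => by positivity)
    intro s hs
    rw [mem_image] at hs
    obtain ⟨w, _, rfl⟩ := hs
    rw [mem_sigma, mem_filter, mem_product, mem_filter]
    exact ⟨⟨mem_univ _, w.2.1.1⟩, ⟨w.2.1.2.1, w.2.2⟩, w.2.1.2.2⟩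
  refine h6.trans ?_
  have hlenM : (lay K).len (M-1) = K.val - a0 := by
    unfold Lay.len
    have : M - 1 + 1 = M := by omega
    rw [this, hG.top K hKm]
  have h7 : ∀ K' ∈ univ.filter (fun K' : Fin (Kmax+1) => a0 ≤ K'.val ∧ K'.val < K.val),
        ((((vars M lay K).filter (fun z => key (lay K) (M-1) z = p)).card : ℝ) *
          (vars M lay K').card) * ((fib U x).card / 2 ^ K'.val) ≤
        (Real.sqrt (2 ^ (K.val - a0)) / Real.sqrt (2 ^ a0)) * (fib U x).card := by
    intro K' hK'
    rw [mem_filter] at hK'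
    obtain ⟨_, hK1, hK2⟩ := hK'
    have b1 : (((vars M lay K).filter (fun z => key (lay K) (M-1) z = p)).card : ℝ) ≤
        Real.sqrt (2 ^ (K.val - a0)) := by
      apply Real.le_sqrt_of_sq_le
      have c1 := card_key_le lay hM K hcore p
      have c2 := hV K hKm (M-1) (by omega)
      rw [hlenM] at c2
      have c3 := (Nat.pow_le_pow_left c1 2).trans c2
      exact_mod_cast c3
    have b2 : ((vars M lay K').card : ℝ) ≤ Real.sqrt (2 ^ K'.val) := by
      apply Real.le_sqrt_of_sq_le
      have c2 := card_vars_sq lay hG (show K'.val ≤ Kmax by have := K'.isLt; omega)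
        (fun i hi => hV K' (by have := K'.isLt; omega) i hi)
      exact_mod_cast c2
    have b3 : Real.sqrt (2 ^ K'.val) / 2 ^ K'.val = 1 / Real.sqrt (2 ^ K'.val) := by
      rw [div_eq_div_iff (by positivity) (by positivity), one_mul,
        Real.mul_self_sqrt (by positivity)]
    have b4 : (1 : ℝ) / Real.sqrt (2 ^ K'.val) ≤ 1 / Real.sqrt (2 ^ a0) := by
      refine one_div_le_one_div_of_le (by positivity) (Real.sqrt_le_sqrt ?_)
      exact pow_le_pow_right₀ (by norm_num) hK1
    calc ((((vars M lay K).filter (fun z => key (lay K) (M-1) z = p)).card : ℝ) *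
          (vars M lay K').card) * ((fib U x).card / 2 ^ K'.val)
        ≤ (Real.sqrt (2 ^ (K.val - a0)) * Real.sqrt (2 ^ K'.val)) *
            ((fib U x).card / 2 ^ K'.val) := by
          refine mul_le_mul_of_nonneg_right ?_ (by positivity)
          exact mul_le_mul b1 b2 (by positivity) (by positivity)
      _ = Real.sqrt (2 ^ (K.val - a0)) * (Real.sqrt (2 ^ K'.val) / 2 ^ K'.val) *
            (fib U x).card := by ring
      _ ≤ Real.sqrt (2 ^ (K.val - a0)) * (1 / Real.sqrt (2 ^ a0)) * (fib U x).card := by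
          rw [b3]
          refine mul_le_mul_of_nonneg_right ?_ (by positivity)
          exact mul_le_mul_of_nonneg_left b4 (by positivity)
      _ = _ := by ring
  refine (Finset.sum_le_sum h7).trans ?_
  rw [Finset.sum_const, nsmul_eq_mul]
  have h3 : (((univ.filter (fun K' : Fin (Kmax+1) => a0 ≤ K'.val ∧ K'.val < K.val)).card : ℕ) : ℝ)
      ≤ K.val := by
    have : (univ.filter (fun K' : Fin (Kmax+1) => a0 ≤ K'.val ∧ K'.val < K.val)).card ≤
        (range K.val).card := by
      refine card_le_card_of_injOn (fun K' => K'.val) ?_ ?_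
      · intro K' hK'
        simp only [coe_filter, mem_univ, true_and, Set.mem_ofPred_eq] at hK'
        simp only [coe_range, Set.mem_Iio]
        omega
      · intro a _ b _ hab
        exact Fin.ext hab
    rw [card_range] at this
    exact_mod_cast this
  calc _ ≤ (K.val : ℝ) * ((Real.sqrt (2 ^ (K.val - a0)) / Real.sqrt (2 ^ a0)) * (fib U x).card) :=
        mul_le_mul_of_nonneg_right h3 (by positivity)
    _ = _ := by ring

/-- number of hash functions for which there are at least `s` scales -/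
theorem card_midScales_le (hG : GoodLay M lay Kmax) (hM : 2 ≤ M)
    (hV : ∀ L ≤ Kmax, ∀ i < M, ((lay L).V i).card ^ 2 ≤ 2 ^ (lay L).len i)
    (K : Fin (Kmax+1))
    (hcore : ∀ v ∈ (lay K).V (M-2), ∀ v' ∈ (lay K).V (M-2),
      (lay K).core (M-2) v = (lay K).core (M-2) v' → v = v')
    (n : ℕ) (p : Fin M → Option (Fin N)) (s : ℕ) :
    ((univ.filter (fun x : (∀ q : Ind M N Kmax, Xsp lay q) =>
      s ≤ (midScales lay K n p x).card)).card : ℝ) ≤
      ((K.val : ℝ) * (Real.sqrt (2 ^ (K.val - (lay K).bot (M-1))) /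
        Real.sqrt (2 ^ (lay K).bot (M-1)))) ^ s *
        Fintype.card (∀ q : Ind M N Kmax, Xsp lay q) := by
  classical
  have hB0 : 0 ≤ ((K.val : ℝ) * (Real.sqrt (2 ^ (K.val - (lay K).bot (M-1))) /
        Real.sqrt (2 ^ (lay K).bot (M-1)))) := by positivity
  have hfm := factMoment (X := fun q : Ind M N Kmax => Xsp lay q)
    (S := fun w : MCand M N Kmax lay K p => Sidx lay K w.1)
    (E := fun (w : MCand M N Kmax lay K p) y => EqSol lay K n w.1 y)
    (hE := fun w x y h => by
      unfold EqSol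
      rw [elt_congr lay K (fun q hq => h q (mem_union_left _ hq)),
        elt_congr lay w.1.1 (fun q hq => h q (mem_union_right _ hq))])
    (R := fun w' w => DiffSc w'.1 w.1) (U₀ := univ.filter (fun q : Ind M N Kmax => q.1 = K))
    (B := ((K.val : ℝ) * (Real.sqrt (2 ^ (K.val - (lay K).bot (M-1))) /
        Real.sqrt (2 ^ (lay K).bot (M-1))))) hB0 s
    (fun T _ x => nnew_mid_le lay hG hM hV K hcore n p T x)
    s (Nat.le_succ s)
  refine le_trans ?_ hfm
  rw [Finset.card_filter]
  push_cast
  refine Finset.sum_le_sum (fun x _ => ?_)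
  split_ifs with hx
  · have h1 : 1 ≤ ntup (fun (w : MCand M N Kmax lay K p) y => EqSol lay K n w.1 y)
        (fun w' w => DiffSc w'.1 w.1) s x := by
      obtain ⟨Q, hQsub, hQc⟩ := Finset.exists_subset_card_eq hx
      have hch : ∀ K' : Q, ∃ w : MCand M N Kmax lay K p,
          EqSol lay K n w.1 x ∧ w.1.1 = K'.1 := by
        intro K'
        have hp := hQsub K'.2
        unfold midScales at hp
        simp only [mem_filter, mem_univ, true_and] at hp
        obtain ⟨hb, z, z', hz, hz', hk, he⟩ := hp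
        exact ⟨⟨(K'.1, z, z'), ⟨hb, hz, hz'⟩, hk⟩, he, rfl⟩
      choose f hf using hch
      let e : Fin s ≃ Q := (finCongr (by simp [hQc])).trans Q.equivFin.symm
      unfold ntup
      rw [Nat.one_le_iff_ne_zero, Finset.card_ne_zero]
      refine ⟨fun j => f (e j), ?_⟩
      rw [mem_filter]
      refine ⟨mem_univ _, fun j => (hf (e j)).1, fun i j hij => ?_⟩
      unfold DiffSc
      intro hk
      rw [(hf (e i)).2, (hf (e j)).2] at hk
      have := e.injective (Subtype.ext hk)
      exact absurd this (ne_of_lt hij)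
    exact_mod_cast h1
  · positivity

end

end Pool.Agent.ETP
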