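import Mathlib
import Pool.Agent.Helper3.ETF.Fail2

/-!
# E-T (MP_12a1af_nt), project T*: existence of good hash functions
-/

open Finset

namespace Pool.Agent.ETP

open Pool.Agent.ETS

section

variable {M N Kmax : ℕ} (lay : ℕ → Lay N) (pad : ℕ → ℕ)

/-- failure bound of the far part at scale `K` -/
noncomputable def failA (mm s : ℕ → ℕ) (ε : ℕ → ℝ) (K : ℕ) : ℝ :=
  2 ^ (K + 2) * ((K : ℝ) * (mm K : ℝ) ^ 2 * (2 * s K + 1) ^ 2 * ε K) ^ s K

/-- failure bound of the middle part at scale `K`, window bottom `a` -/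
noncomputable def failB (a s2 : ℕ) (K : ℕ) : ℝ :=
  2 ^ (K + 2) * Real.sqrt (2 ^ K) *
    ((K : ℝ) * (Real.sqrt (2 ^ (K - a)) / Real.sqrt (2 ^ a))) ^ s2

/-- what is needed from the layouts for the probabilistic part -/
structure FarHyp (M : ℕ) {N : ℕ} (Kmax : ℕ) (lay : ℕ → Lay N) (pad : ℕ → ℕ) (K0 : ℕ)
    (g mm : ℕ → ℕ) (ε : ℕ → ℝ) : Prop where
  good : GoodLay M lay Kmax
  padM : ∀ L ≤ Kmax, pad L + 3 ≤ M
  card : ∀ L ≤ Kmax, ∀ i < M, ((lay L).V i).card ^ 2 ≤ 2 ^ (lay L).len i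
  triv : ∀ L ≤ Kmax, ∀ i ≤ pad L, ((lay L).V i).card ≤ 1
  core : ∀ L ≤ Kmax, ∀ v ∈ (lay L).V (M-2), ∀ v' ∈ (lay L).V (M-2),
      (lay L).core (M-2) v = (lay L).core (M-2) v' → v = v'
  gpos : ∀ K, 1 ≤ g K
  eps0 : ∀ K, 0 ≤ ε K
  mm : ∀ K ≤ Kmax, ∀ L, K0 ≤ L → L ≤ K → M - pad L ≤ mm K
  far : ∀ K ≤ Kmax, ∀ K', K0 ≤ K' → K' + g K ≤ K → ∃ Nb : ℕ → ℕ → ℕ,
    (∀ i i', pad K + 1 ≤ i → pad K' + 1 ≤ i' → i + 1 < M → i' < M →
      ∀ n a κ₁ κ₂ a' κ₁' κ₂' co co', a < 2 ^ (lay K).bot (i-1) → a' < 2 ^ (lay K').bot (i'-1) →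
      (ConsSet lay K K' i i' n a κ₁ κ₂ a' κ₁' κ₂' co co').card ≤ Nb i i') ∧
    ∀ i i', pad K + 1 ≤ i → pad K' + 1 ≤ i' → i + 1 < M → i' < M →
        (Nb i i' : ℝ) * phi lay K K' i i' ≤ ε K

/-- the hash function `x` is good -/
def GoodX (K0 : ℕ) (g s : ℕ → ℕ) (s2 : ℕ) (x : ∀ q : Ind M N Kmax, Xsp lay q) : Prop :=
  ∀ K : Fin (Kmax+1), K0 ≤ K.val → ∀ n < 2 ^ (K.val + 2),
    (farKeys lay K K0 (g K) n x).card < s K ∧
    ∀ p, (midScales lay K n p x).card < s2

theorem exists_good {K0 : ℕ} {g mm : ℕ → ℕ} {ε : ℕ → ℝ}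
    (H : FarHyp M Kmax lay pad K0 g mm ε) (s : ℕ → ℕ) (s2 : ℕ) (hs2 : 1 ≤ s2)
    (hfail : ∑ K ∈ Icc K0 Kmax, (failA mm s ε K + failB ((lay K).bot (M-1)) s2 K) < 1) :
    ∃ x : ∀ q : Ind M N Kmax, Xsp lay q, GoodX lay K0 g s s2 x := by
  classical
  have hM2 : 2 ≤ M := by have := H.padM 0 (Nat.zero_le _); omega
  by_contra hcon
  push Not at hcon
  -- the bad sets
  let A : Fin (Kmax+1) → ℕ → Finset (∀ q : Ind M N Kmax, Xsp lay q) := fun K n =>
    univ.filter (fun x => s K ≤ (farKeys lay K K0 (g K) n x).card)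
  let B : Fin (Kmax+1) → ℕ → (Fin M → Fin N) → Finset (∀ q : Ind M N Kmax, Xsp lay q) :=
    fun K n z => univ.filter (fun x => s2 ≤ (midScales lay K n (key (lay K) (M-1) z) x).card)
  let KK : Finset (Fin (Kmax+1)) := univ.filter (fun K => K0 ≤ K.val)
  have hcov : (univ : Finset (∀ q : Ind M N Kmax, Xsp lay q)) ⊆
      KK.biUnion (fun K => (range (2 ^ (K.val + 2))).biUnion (fun n =>
        A K n ∪ (vars M lay K).biUnion (fun z => B K n z))) := by
    intro x _
    have hx := hcon x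
    unfold GoodX at hx
    push Not at hx
    obtain ⟨K, hK, n, hn, hx⟩ := hx
    rw [mem_biUnion]
    refine ⟨K, by simp [KK, hK], ?_⟩
    rw [mem_biUnion]
    refine ⟨n, by simpa using hn, ?_⟩
    rw [mem_union]
    by_cases h1 : (farKeys lay K K0 (g K) n x).card < s K
    · right
      obtain ⟨p, hp⟩ := hx h1
      have hne : (midScales lay K n p x).Nonempty := by
        rw [← Finset.card_pos]; omega
      obtain ⟨K', hK'⟩ := hne
      have hK'2 := hK'
      unfold midScales at hK'2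
      simp only [mem_filter, mem_univ, true_and] at hK'2
      obtain ⟨_, z, z', hz, _, hk, _⟩ := hK'2
      rw [mem_biUnion]
      refine ⟨z, hz, ?_⟩
      simp only [B, mem_filter, mem_univ, true_and]
      rw [hk]
      exact hp
    · left
      simp only [A, mem_filter, mem_univ, true_and]
      omega
  have hcardX : (Fintype.card (∀ q : Ind M N Kmax, Xsp lay q) : ℝ) > 0 := by
    have : 0 < Fintype.card (∀ q : Ind M N Kmax, Xsp lay q) := by
      rw [Fintype.card_pos_iff]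
      exact ⟨fun q => ⟨0, by positivity⟩⟩
    exact_mod_cast this
  have h1 : (Fintype.card (∀ q : Ind M N Kmax, Xsp lay q) : ℝ) ≤
      ∑ K ∈ KK, ∑ n ∈ range (2 ^ (K.val + 2)), (((A K n).card : ℝ) +
        ∑ z ∈ vars M lay K, ((B K n z).card : ℝ)) := by
    have h2 := card_le_card hcov
    rw [card_univ] at h2
    have h3 : (KK.biUnion (fun K => (range (2 ^ (K.val + 2))).biUnion (fun n =>
        A K n ∪ (vars M lay K).biUnion (fun z => B K n z)))).card ≤
        ∑ K ∈ KK, ∑ n ∈ range (2 ^ (K.val + 2)), ((A K n).card +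
          ∑ z ∈ vars M lay K, (B K n z).card) := by
      refine card_biUnion_le.trans (Finset.sum_le_sum (fun K _ => ?_))
      refine card_biUnion_le.trans (Finset.sum_le_sum (fun n _ => ?_))
      refine (card_union_le _ _).trans ?_
      exact Nat.add_le_add_left card_biUnion_le _
    have h4 := h2.trans h3
    exact_mod_cast h4
  have h2 : ∀ K ∈ KK, ∑ n ∈ range (2 ^ (K.val + 2)), (((A K n).card : ℝ) +
        ∑ z ∈ vars M lay K, ((B K n z).card : ℝ)) ≤
      (failA mm s ε K + failB ((lay K).bot (M-1)) s2 K) *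
        Fintype.card (∀ q : Ind M N Kmax, Xsp lay q) := by
    intro K hK
    have hK0 : K0 ≤ K.val := by simpa [KK] using hK
    have hKm : K.val ≤ Kmax := by have := K.isLt; omega
    have hA : ∀ n, ((A K n).card : ℝ) ≤
        ((K.val : ℝ) * (mm K : ℝ) ^ 2 * (2 * s K + 1) ^ 2 * ε K) ^ s K *
        Fintype.card (∀ q : Ind M N Kmax, Xsp lay q) := by
      intro n
      have hch : ∀ K' : ℕ, ∃ Nb : ℕ → ℕ → ℕ, (K0 ≤ K' → K' + g K ≤ K →
          (∀ i i', pad K + 1 ≤ i → pad K' + 1 ≤ i' → i + 1 < M → i' < M →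
          ∀ n a κ₁ κ₂ a' κ₁' κ₂' co co', a < 2 ^ (lay K).bot (i-1) →
            a' < 2 ^ (lay K').bot (i'-1) →
          (ConsSet lay K K' i i' n a κ₁ κ₂ a' κ₁' κ₂' co co').card ≤ Nb i i') ∧
          ∀ i i', pad K + 1 ≤ i → pad K' + 1 ≤ i' → i + 1 < M → i' < M →
            (Nb i i' : ℝ) * phi lay K K' i i' ≤ ε K) := by
        intro K'
        by_cases h : K0 ≤ K' ∧ K' + g K ≤ K
        · obtain ⟨Nb, hNb⟩ := H.far K hKm K' h.1 h.2
          exact ⟨Nb, fun _ _ => hNb⟩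
        · exact ⟨fun _ _ => 0, fun h1 h2 => absurd ⟨h1, h2⟩ h⟩
      choose Nb hNb using hch
      exact card_farKeys_le lay pad H.good H.padM H.card H.triv K K0 (g K) (H.gpos K) n (ε K)
        (H.eps0 K) (mm K) (fun L h1 h2 => H.mm K hKm L h1 h2) Nb
        (fun K' h1 h2 i i' h3 h4 h5 h6 a κ₁ κ₂ a' κ₁' κ₂' co co' =>
          (hNb K' h1 h2).1 i i' h3 h4 h5 h6 n a κ₁ κ₂ a' κ₁' κ₂' co co')
        (fun K' h1 h2 => (hNb K' h1 h2).2) (s K)
    have hB : ∀ n z, ((B K n z).card : ℝ) ≤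
        ((K.val : ℝ) * (Real.sqrt (2 ^ (K.val - (lay K).bot (M-1))) /
        Real.sqrt (2 ^ (lay K).bot (M-1)))) ^ s2 *
        Fintype.card (∀ q : Ind M N Kmax, Xsp lay q) := by
      intro n z
      exact card_midScales_le lay H.good hM2 H.card K (H.core K hKm) n (key (lay K) (M-1) z) s2
    have hvars : ((vars M lay K).card : ℝ) ≤ Real.sqrt (2 ^ K.val) := by
      apply Real.le_sqrt_of_sq_le
      have c2 := card_vars_sq lay H.good hKm (fun i hi => H.card K hKm i hi)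
      exact_mod_cast c2
    calc ∑ n ∈ range (2 ^ (K.val + 2)), (((A K n).card : ℝ) +
        ∑ z ∈ vars M lay K, ((B K n z).card : ℝ))
        ≤ ∑ n ∈ range (2 ^ (K.val + 2)),
          (((K.val : ℝ) * (mm K : ℝ) ^ 2 * (2 * s K + 1) ^ 2 * ε K) ^ s K *
            Fintype.card (∀ q : Ind M N Kmax, Xsp lay q) +
          ∑ z ∈ vars M lay K, ((K.val : ℝ) * (Real.sqrt (2 ^ (K.val - (lay K).bot (M-1))) /
            Real.sqrt (2 ^ (lay K).bot (M-1)))) ^ s2 *
            Fintype.card (∀ q : Ind M N Kmax, Xsp lay q)) := by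
          refine Finset.sum_le_sum (fun n _ => add_le_add (hA n) ?_)
          exact Finset.sum_le_sum (fun z _ => hB n z)
      _ = 2 ^ (K.val + 2) * (((K.val : ℝ) * (mm K : ℝ) ^ 2 * (2 * s K + 1) ^ 2 * ε K) ^ s K *
            Fintype.card (∀ q : Ind M N Kmax, Xsp lay q)) + 2 ^ (K.val + 2) *
          ((vars M lay K).card * (((K.val : ℝ) * (Real.sqrt (2 ^ (K.val - (lay K).bot (M-1))) /
            Real.sqrt (2 ^ (lay K).bot (M-1)))) ^ s2 *
            Fintype.card (∀ q : Ind M N Kmax, Xsp lay q))) := by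
          rw [Finset.sum_const, Finset.sum_const, card_range, nsmul_eq_mul, nsmul_eq_mul]
          push_cast
          ring
      _ ≤ 2 ^ (K.val + 2) * (((K.val : ℝ) * (mm K : ℝ) ^ 2 * (2 * s K + 1) ^ 2 * ε K) ^ s K *
            Fintype.card (∀ q : Ind M N Kmax, Xsp lay q)) + 2 ^ (K.val + 2) *
          (Real.sqrt (2 ^ K.val) * (((K.val : ℝ) * (Real.sqrt (2 ^ (K.val - (lay K).bot (M-1))) /
            Real.sqrt (2 ^ (lay K).bot (M-1)))) ^ s2 *
            Fintype.card (∀ q : Ind M N Kmax, Xsp lay q))) := by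
          refine add_le_add (le_refl _) ?_
          refine mul_le_mul_of_nonneg_left ?_ (by positivity)
          exact mul_le_mul_of_nonneg_right hvars (by positivity)
      _ = _ := by
          unfold failA failB
          ring
  have h3 := h1.trans (Finset.sum_le_sum h2)
  rw [← Finset.sum_mul] at h3
  have h4 : ∑ K ∈ KK, (failA mm s ε K + failB ((lay K).bot (M-1)) s2 K) =
      ∑ K ∈ Icc K0 Kmax, (failA mm s ε K + failB ((lay K).bot (M-1)) s2 K) := by
    simp only [KK]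
    have e1 : ∑ K ∈ univ.filter (fun K : Fin (Kmax+1) => K0 ≤ K.val),
        (failA mm s ε K + failB ((lay K).bot (M-1)) s2 K) =
        ∑ K ∈ (range (Kmax+1)).filter (fun K => K0 ≤ K),
          (failA mm s ε K + failB ((lay K).bot (M-1)) s2 K) := by
      rw [Finset.sum_filter, Finset.sum_filter]
      exact Fin.sum_univ_eq_sum_range
        (fun K => if K0 ≤ K then failA mm s ε K + failB ((lay K).bot (M-1)) s2 K else 0) (Kmax+1)
    rw [e1]
    refine Finset.sum_congr ?_ (fun _ _ => rfl)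
    ext K
    simp only [mem_filter, mem_range, mem_Icc]
    omega
  rw [h4] at h3
  nlinarith

end

end Pool.Agent.ETP
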