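import Mathlib
import Pool.Agent.Helper3.ETF.Good

/-!
# E-T (MP_12a1af_nt), project T*: deterministic counting for good hash functions
-/

open Finset

namespace Pool.Agent.ETP

open Pool.Agent.ETS

section

variable {M N Kmax : ℕ} (lay : ℕ → Lay N)

/-- the elements of scale `K` -/
def AK (K : Fin (Kmax+1)) (x : ∀ q : Ind M N Kmax, Xsp lay q) : Finset ℕ :=
  (vars M lay K).image (elt lay K x)

/-- the pairs of elements of the scales `K`, `K'` with the sum `n` -/
def PK (K K' : Fin (Kmax+1)) (n : ℕ) (x : ∀ q : Ind M N Kmax, Xsp lay q) : Finset (ℕ × ℕ) :=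
  (AK lay K x ×ˢ AK lay K' x).filter (fun q => q.1 + q.2 = n)

open Classical in
/-- the pairs whose first element has the window key `p` -/
noncomputable def PKp (K K' : Fin (Kmax+1)) (n : ℕ) (p : Fin M → Option (Fin N))
    (x : ∀ q : Ind M N Kmax, Xsp lay q) : Finset (ℕ × ℕ) :=
  (PK lay K K' n x).filter (fun q => ∃ z ∈ vars M lay K, elt lay K x z = q.1 ∧
    key (lay K) (M-1) z = p)

/-- the set -/
def Aset (K0 : ℕ) (x : ∀ q : Ind M N Kmax, Xsp lay q) : Finset ℕ :=
  (univ.filter (fun K : Fin (Kmax+1) => K0 ≤ K.val)).biUnion (fun K => AK lay K x)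

lemma elt_lt (hG : GoodLay M lay Kmax) (K : Fin (Kmax+1)) (x : ∀ q : Ind M N Kmax, Xsp lay q)
    (z : Fin M → Fin N) : elt lay K x z < 2 ^ (K.val + 1) := by
  have hKm : K.val ≤ Kmax := by have := K.isLt; omega
  have h1 := pval_lt (hG.bot0 K hKm) (hG.mono K hKm) (dig_lt lay K x z) M
  rw [hG.top K hKm] at h1
  unfold elt
  rw [pow_succ]
  omega

lemma le_elt (K : Fin (Kmax+1)) (x : ∀ q : Ind M N Kmax, Xsp lay q)
    (z : Fin M → Fin N) : 2 ^ K.val ≤ elt lay K x z := by
  unfold elt; omega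

lemma AK_bounds (hG : GoodLay M lay Kmax) {K : Fin (Kmax+1)}
    {x : ∀ q : Ind M N Kmax, Xsp lay q} {a : ℕ} (ha : a ∈ AK lay K x) :
    2 ^ K.val ≤ a ∧ a < 2 ^ (K.val + 1) := by
  unfold AK at ha
  rw [mem_image] at ha
  obtain ⟨z, _, rfl⟩ := ha
  exact ⟨le_elt lay K x z, elt_lt lay hG K x z⟩

lemma AK_log (hG : GoodLay M lay Kmax) {K : Fin (Kmax+1)}
    {x : ∀ q : Ind M N Kmax, Xsp lay q} {a : ℕ} (ha : a ∈ AK lay K x) : Nat.log 2 a = K.val := by
  obtain ⟨h1, h2⟩ := AK_bounds lay hG ha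
  exact (Nat.log_eq_iff (Or.inr ⟨by norm_num, by
    have : 0 < 2 ^ K.val := by positivity
    omega⟩)).mpr ⟨h1, h2⟩

/-- elements with the same window key agree below the window -/
lemma elt_mod_key (hG : GoodLay M lay Kmax) (hM : 2 ≤ M) {K : Fin (Kmax+1)}
    (hcore : ∀ v ∈ (lay K).V (M-2), ∀ v' ∈ (lay K).V (M-2),
      (lay K).core (M-2) v = (lay K).core (M-2) v' → v = v')
    {x : ∀ q : Ind M N Kmax, Xsp lay q} {z z' : Fin M → Fin N}
    (hz : z ∈ vars M lay K) (hz' : z' ∈ vars M lay K)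
    (h : key (lay K) (M-1) z = key (lay K) (M-1) z') :
    elt lay K x z ≡ elt lay K x z' [MOD 2 ^ (lay K).bot (M-1)] := by
  have hKm : K.val ≤ Kmax := by have := K.isLt; omega
  have hk := key_eq_iff.mp h
  have hzz : ∀ j : Fin M, j.val < M - 1 → z j = z' j := by
    intro j hj
    by_cases hj2 : j.val + 1 < M - 1
    · exact hk.1 j hj2
    · have hj3 : j.val + 1 = M - 1 := by omega
      have h1 := hk.2 j hj3
      have hj4 : j.val = M-2 := by omega
      have h2 := (mem_vars lay).mp hz j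
      have h3 := (mem_vars lay).mp hz' j
      rw [hj4] at h1 h2 h3
      exact hcore _ h2 _ h3 h1
  have hd : pval (lay K).bot (dig lay K x z) (M-1) = pval (lay K).bot (dig lay K x z') (M-1) := by
    refine pval_congr (fun m hm => ?_)
    have hmM : m < M := by omega
    rw [dig_val lay x z hmM, dig_val lay x z' hmM, hzz ⟨m, hmM⟩ hm,
      key_mono (show m ≤ M-1 by omega) h]
  obtain ⟨u, hu⟩ := pval_split (w := dig lay K x z) (hG.mono K hKm) (j := M-1) (m := M) (by omega)
  obtain ⟨u', hu'⟩ := pval_split (w := dig lay K x z') (hG.mono K hKm) (j := M-1) (m := M)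
    (by omega)
  unfold elt
  rw [hu, hu', hd]
  refine Nat.ModEq.add_left _ (Nat.ModEq.add_left _ ?_)
  exact (Nat.modEq_zero_iff_dvd.mpr (Dvd.intro _ rfl)).trans
    (Nat.modEq_zero_iff_dvd.mpr (Dvd.intro _ rfl)).symm

/-- deterministic hypotheses: near pairs and window pairs -/
structure NearHyp (M : ℕ) {N : ℕ} (Kmax : ℕ) (lay : ℕ → Lay N) (K0 : ℕ) (g : ℕ → ℕ)
    (near : ℕ → ℕ → ℕ) (wn : ℕ → ℕ) : Prop where
  near : ∀ (K K' : Fin (Kmax+1)) (x : ∀ q : Ind M N Kmax, Xsp lay q), K0 ≤ K'.val →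
    K'.val ≤ K.val → K.val < K'.val + g K → ∀ n, (PK lay K K' n x).card ≤ near K K'
  win : ∀ (K K' : Fin (Kmax+1)) (x : ∀ q : Ind M N Kmax, Xsp lay q), K0 ≤ K'.val →
    K'.val + g K ≤ K.val → (lay K).bot (M-1) ≤ K'.val →
    ∀ n p, (PKp lay K K' n p x).card ≤ wn K

/-- the bound for one scale -/
def Fb (K0 : ℕ) (g s : ℕ → ℕ) (s2 : ℕ) (near : ℕ → ℕ → ℕ) (wn : ℕ → ℕ) (K : ℕ) : ℕ :=
  ∑ K' ∈ (Icc K0 K).filter (fun K' => K < K' + g K), near K K' + s K * (1 + s2 * wn K)

/-- far pairs -/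
def FarP (K0 g : ℕ) (K : Fin (Kmax+1)) (n : ℕ) (x : ∀ q : Ind M N Kmax, Xsp lay q) :
    Finset (ℕ × ℕ) :=
  (univ.filter (fun K' : Fin (Kmax+1) => K0 ≤ K'.val ∧ K'.val + g ≤ K.val)).biUnion
    (fun K' => PK lay K K' n x)

lemma card_FarP_le (hG : GoodLay M lay Kmax) (hM : 2 ≤ M) {K0 : ℕ} {g s : ℕ → ℕ} {s2 : ℕ}
    {near : ℕ → ℕ → ℕ} {wn : ℕ → ℕ} (hg : ∀ K, 1 ≤ g K)
    (H : NearHyp M Kmax lay K0 g near wn) (K : Fin (Kmax+1)) (hK0 : K0 ≤ K.val)
    (hcore : ∀ v ∈ (lay K).V (M-2), ∀ v' ∈ (lay K).V (M-2),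
      (lay K).core (M-2) v = (lay K).core (M-2) v' → v = v')
    (x : ∀ q : Ind M N Kmax, Xsp lay q) (hx : GoodX lay K0 g s s2 x) (n : ℕ)
    (hn : n < 2 ^ (K.val + 2)) :
    (FarP lay K0 (g K) K n x).card ≤ s K * (1 + s2 * wn K) := by
  classical
  obtain ⟨hs1, hs2⟩ := hx K hK0 n hn
  -- decomposition by keys
  let Fp : (Fin M → Option (Fin N)) → Finset (ℕ × ℕ) := fun p =>
    (FarP lay K0 (g K) K n x).filter (fun q => ∃ z ∈ vars M lay K, elt lay K x z = q.1 ∧
      key (lay K) (M-1) z = p)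
  have hsub : FarP lay K0 (g K) K n x ⊆ (farKeys lay K K0 (g K) n x).biUnion Fp := by
    intro q hq
    have hq0 := hq
    unfold FarP at hq
    rw [mem_biUnion] at hq
    obtain ⟨K', hK', hq⟩ := hq
    rw [mem_filter] at hK'
    unfold PK AK at hq
    rw [mem_filter, mem_product, mem_image, mem_image] at hq
    obtain ⟨⟨⟨z, hz, hzq⟩, ⟨z', hz', hzq'⟩⟩, hsum⟩ := hq
    rw [mem_biUnion]
    refine ⟨key (lay K) (M-1) z, ?_, ?_⟩
    · unfold farKeys
      rw [mem_image]
      refine ⟨(K', z, z'), ?_, rfl⟩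
      rw [mem_filter]
      refine ⟨mem_univ _, ⟨hK'.2.2, (mem_vars lay).mp hz, (mem_vars lay).mp hz', ?_⟩, hK'.2.1⟩
      show elt lay K x z + elt lay K' x z' = n
      rw [hzq, hzq']; exact hsum
    · simp only [Fp]
      rw [mem_filter]
      exact ⟨hq0, z, hz, hzq, rfl⟩
  have hFp : ∀ p, (Fp p).card ≤ 1 + s2 * wn K := by
    intro p
    -- small and middle scales
    let Fs : Finset (ℕ × ℕ) := (Fp p).filter (fun q => q.2 < 2 ^ (lay K).bot (M-1))
    have hsub2 : Fp p ⊆ Fs ∪ (midScales lay K n p x).biUnion (fun K' => if K0 ≤ K'.val ∧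
        K'.val + g K ≤ K.val ∧ (lay K).bot (M-1) ≤ K'.val then PKp lay K K' n p x else ∅) := by
      intro q hq
      have hq0 := hq
      simp only [Fp] at hq
      rw [mem_filter] at hq
      obtain ⟨hqF, z, hz, hzq, hzp⟩ := hq
      unfold FarP at hqF
      rw [mem_biUnion] at hqF
      obtain ⟨K', hK', hq⟩ := hqF
      rw [mem_filter] at hK'
      have hqPK := hq
      unfold PK AK at hq
      rw [mem_filter, mem_product, mem_image, mem_image] at hq
      obtain ⟨⟨_, ⟨z', hz', hzq'⟩⟩, hsum⟩ := hq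
      rw [mem_union]
      by_cases hlt : K'.val < (lay K).bot (M-1)
      · left
        simp only [Fs]
        rw [mem_filter]
        refine ⟨hq0, ?_⟩
        rw [← hzq']
        calc elt lay K' x z' < 2 ^ (K'.val + 1) := elt_lt lay hG K' x z'
          _ ≤ 2 ^ (lay K).bot (M-1) := Nat.pow_le_pow_right (by norm_num) hlt
      · right
        rw [mem_biUnion]
        refine ⟨K', ?_, ?_⟩
        · unfold midScales
          rw [mem_filter]
          refine ⟨mem_univ _, ⟨by omega, ?_⟩, z, z', hz, hz', hzp, ?_⟩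
          · have := hg K
            have := hK'.2.2
            omega
          · rw [hzq, hzq']; exact hsum
        · rw [if_pos ⟨hK'.2.1, hK'.2.2, by omega⟩]
          unfold PKp
          rw [mem_filter]
          exact ⟨hqPK, z, hz, hzq, hzp⟩
    have hFs : Fs.card ≤ 1 := by
      rw [Finset.card_le_one]
      intro q hq r hr
      simp only [Fs, Fp] at hq hr
      rw [mem_filter, mem_filter] at hq hr
      obtain ⟨⟨hqF, z, hz, hzq, hzp⟩, hqlt⟩ := hq
      obtain ⟨⟨hrF, z', hz', hzq', hzp'⟩, hrlt⟩ := hr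
      have hs1 : q.1 + q.2 = n := by
        unfold FarP at hqF
        rw [mem_biUnion] at hqF
        obtain ⟨K', _, hq⟩ := hqF
        exact (mem_filter.mp hq).2
      have hs2 : r.1 + r.2 = n := by
        unfold FarP at hrF
        rw [mem_biUnion] at hrF
        obtain ⟨K', _, hq⟩ := hrF
        exact (mem_filter.mp hq).2
      have hmod := elt_mod_key lay hG hM hcore (x := x) hz hz' (hzp.trans hzp'.symm)
      rw [hzq, hzq'] at hmod
      have h1 : q.1 + q.2 ≡ r.1 + r.2 [MOD 2 ^ (lay K).bot (M-1)] := by rw [hs1, hs2]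
      have h2 := Nat.ModEq.add_left_cancel hmod h1
      have h3 := h2.eq_of_lt_of_lt hqlt hrlt
      refine Prod.ext ?_ h3
      omega
    calc (Fp p).card ≤ _ := card_le_card hsub2
      _ ≤ Fs.card + ((midScales lay K n p x).biUnion (fun K' => if K0 ≤ K'.val ∧
        K'.val + g K ≤ K.val ∧ (lay K).bot (M-1) ≤ K'.val then PKp lay K K' n p x else ∅)).card :=
          card_union_le _ _
      _ ≤ 1 + ∑ K' ∈ midScales lay K n p x, wn K := by
          refine Nat.add_le_add hFs (card_biUnion_le.trans (Finset.sum_le_sum (fun K' _ => ?_)))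
          split_ifs with h
          · exact H.win K K' x h.1 h.2.1 h.2.2 n p
          · simp
      _ ≤ 1 + s2 * wn K := by
          rw [sum_const, smul_eq_mul]
          exact Nat.add_le_add_left (Nat.mul_le_mul_right _ (hs2 p).le) _
  calc (FarP lay K0 (g K) K n x).card ≤ _ := card_le_card hsub
    _ ≤ ∑ p ∈ farKeys lay K K0 (g K) n x, (Fp p).card := card_biUnion_le
    _ ≤ ∑ p ∈ farKeys lay K K0 (g K) n x, (1 + s2 * wn K) := Finset.sum_le_sum (fun p _ => hFp p)
    _ = (farKeys lay K K0 (g K) n x).card * (1 + s2 * wn K) := by rw [sum_const, smul_eq_mul]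
    _ ≤ _ := Nat.mul_le_mul_right _ hs1.le

/-- pairs with the larger element at scale `K` -/
def AllP (K0 : ℕ) (K : Fin (Kmax+1)) (n : ℕ) (x : ∀ q : Ind M N Kmax, Xsp lay q) :
    Finset (ℕ × ℕ) :=
  (univ.filter (fun K' : Fin (Kmax+1) => K0 ≤ K'.val ∧ K'.val ≤ K.val)).biUnion
    (fun K' => PK lay K K' n x)

lemma card_AllP_le (hG : GoodLay M lay Kmax) (hM : 2 ≤ M) {K0 : ℕ} {g s : ℕ → ℕ} {s2 : ℕ}
    {near : ℕ → ℕ → ℕ} {wn : ℕ → ℕ} (hg : ∀ K, 1 ≤ g K)
    (H : NearHyp M Kmax lay K0 g near wn) (K : Fin (Kmax+1)) (hK0 : K0 ≤ K.val)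
    (hcore : ∀ v ∈ (lay K).V (M-2), ∀ v' ∈ (lay K).V (M-2),
      (lay K).core (M-2) v = (lay K).core (M-2) v' → v = v')
    (x : ∀ q : Ind M N Kmax, Xsp lay q) (hx : GoodX lay K0 g s s2 x) (n : ℕ)
    (hn : n < 2 ^ (K.val + 2)) :
    (AllP lay K0 K n x).card ≤ Fb K0 g s s2 near wn K := by
  classical
  have hsub : AllP lay K0 K n x ⊆ ((univ.filter (fun K' : Fin (Kmax+1) => (K0 ≤ K'.val ∧
      K'.val ≤ K.val) ∧ K.val < K'.val + g K)).biUnion (fun K' => PK lay K K' n x)) ∪
      FarP lay K0 (g K) K n x := by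
    intro q hq
    unfold AllP at hq
    rw [mem_biUnion] at hq
    obtain ⟨K', hK', hq⟩ := hq
    rw [mem_filter] at hK'
    rw [mem_union]
    by_cases h : K.val < K'.val + g K
    · left
      rw [mem_biUnion]
      exact ⟨K', by rw [mem_filter]; exact ⟨mem_univ _, hK'.2, h⟩, hq⟩
    · right
      unfold FarP
      rw [mem_biUnion]
      exact ⟨K', by rw [mem_filter]; exact ⟨mem_univ _, hK'.2.1, by omega⟩, hq⟩
  have h1 : ((univ.filter (fun K' : Fin (Kmax+1) => (K0 ≤ K'.val ∧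
      K'.val ≤ K.val) ∧ K.val < K'.val + g K)).biUnion (fun K' => PK lay K K' n x)).card ≤
      ∑ K' ∈ (Icc K0 K.val).filter (fun K' => K.val < K' + g K), near K K' := by
    refine card_biUnion_le.trans ?_
    have h2 : ∑ K' ∈ univ.filter (fun K' : Fin (Kmax+1) => (K0 ≤ K'.val ∧
      K'.val ≤ K.val) ∧ K.val < K'.val + g K), (PK lay K K' n x).card ≤
      ∑ K' ∈ univ.filter (fun K' : Fin (Kmax+1) => (K0 ≤ K'.val ∧
      K'.val ≤ K.val) ∧ K.val < K'.val + g K), near K K'.val := by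
      refine Finset.sum_le_sum (fun K' hK' => ?_)
      rw [mem_filter] at hK'
      exact H.near K K' x hK'.2.1.1 hK'.2.1.2 hK'.2.2 n
    refine h2.trans ?_
    have hinj : Set.InjOn (fun K' : Fin (Kmax+1) => K'.val)
        ((univ.filter (fun K' : Fin (Kmax+1) => (K0 ≤ K'.val ∧
      K'.val ≤ K.val) ∧ K.val < K'.val + g K) : Finset (Fin (Kmax+1))) : Set (Fin (Kmax+1))) :=
      fun a _ b _ hab => Fin.ext hab
    have e2 := Finset.sum_image (f := fun K' : ℕ => near K K') hinj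
    rw [← e2]
    refine Finset.sum_le_sum_of_subset ?_
    intro K' hK'
    rw [mem_image] at hK'
    obtain ⟨K'', hK'', rfl⟩ := hK'
    rw [mem_filter] at hK''
    rw [mem_filter, mem_Icc]
    exact ⟨hK''.2.1, hK''.2.2⟩
  calc (AllP lay K0 K n x).card ≤ _ := card_le_card hsub
    _ ≤ _ := card_union_le _ _
    _ ≤ Fb K0 g s s2 near wn K := by
        unfold Fb
        exact Nat.add_le_add h1 (card_FarP_le lay hG hM hg H K hK0 hcore x hx n hn)

/-- the number of representations -/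
theorem rep_le (hG : GoodLay M lay Kmax) (hM : 2 ≤ M) {K0 : ℕ} {g s : ℕ → ℕ} {s2 : ℕ}
    {near : ℕ → ℕ → ℕ} {wn : ℕ → ℕ} (hg : ∀ K, 1 ≤ g K)
    (H : NearHyp M Kmax lay K0 g near wn)
    (hcore : ∀ L ≤ Kmax, ∀ v ∈ (lay L).V (M-2), ∀ v' ∈ (lay L).V (M-2),
      (lay L).core (M-2) v = (lay L).core (M-2) v' → v = v')
    (x : ∀ q : Ind M N Kmax, Xsp lay q) (hx : GoodX lay K0 g s s2 x) (n : ℕ) :
    ((Aset lay K0 x ×ˢ Aset lay K0 x).filter (fun q => q.1 + q.2 = n)).card ≤
      2 * (Fb K0 g s s2 near wn (Nat.log 2 n - 1) + Fb K0 g s s2 near wn (Nat.log 2 n)) := by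
  classical
  let S : Finset (ℕ × ℕ) := (Aset lay K0 x ×ˢ Aset lay K0 x).filter
    (fun q => q.1 + q.2 = n ∧ q.2 ≤ q.1)
  have h1 : ((Aset lay K0 x ×ˢ Aset lay K0 x).filter (fun q => q.1 + q.2 = n)) ⊆
      S ∪ S.image Prod.swap := by
    intro q hq
    rw [mem_filter, mem_product] at hq
    rw [mem_union, mem_image]
    rcases le_total q.2 q.1 with h | h
    · left
      simp only [S]
      rw [mem_filter, mem_product]
      exact ⟨hq.1, hq.2, h⟩
    · right
      refine ⟨q.swap, ?_, Prod.swap_swap q⟩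
      simp only [S]
      rw [mem_filter, mem_product]
      refine ⟨⟨hq.1.2, hq.1.1⟩, ?_, h⟩
      show q.2 + q.1 = n
      omega
  have h2 : S ⊆ (univ.filter (fun K : Fin (Kmax+1) => K0 ≤ K.val ∧
      (K.val = Nat.log 2 n - 1 ∨ K.val = Nat.log 2 n))).biUnion (fun K => AllP lay K0 K n x) := by
    intro q hq
    simp only [S] at hq
    rw [mem_filter, mem_product] at hq
    obtain ⟨⟨ha, hb⟩, hsum, hle⟩ := hq
    unfold Aset at ha hb
    rw [mem_biUnion] at ha hb
    obtain ⟨K, hK, ha⟩ := ha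
    obtain ⟨K', hK', hb⟩ := hb
    rw [mem_filter] at hK hK'
    rw [mem_biUnion]
    have l1 := AK_log lay hG ha
    have l2 := AK_log lay hG hb
    obtain ⟨b1, b2⟩ := AK_bounds lay hG ha
    refine ⟨K, ?_, ?_⟩
    · rw [mem_filter]
      refine ⟨mem_univ _, hK.2, ?_⟩
      have c1 : K.val ≤ Nat.log 2 n := by
        rw [← l1]; exact Nat.log_mono_right (by omega)
      have c2 : Nat.log 2 n ≤ K.val + 1 := by
        have h9 : n < 2 ^ (K.val + 2) := by
          have : 2 ^ (K.val + 2) = 2 ^ (K.val + 1) + 2 ^ (K.val + 1) := by ring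
          omega
        have := Nat.log_lt_of_lt_pow (b := 2) (show n ≠ 0 by
          have : 0 < 2 ^ K.val := by positivity
          omega) h9
        omega
      omega
    · unfold AllP
      rw [mem_biUnion]
      refine ⟨K', ?_, ?_⟩
      · rw [mem_filter]
        refine ⟨mem_univ _, hK'.2, ?_⟩
        rw [← l1, ← l2]
        exact Nat.log_mono_right hle
      · unfold PK
        rw [mem_filter, mem_product]
        exact ⟨⟨ha, hb⟩, hsum⟩
  have h3 : S.card ≤ Fb K0 g s s2 near wn (Nat.log 2 n - 1) + Fb K0 g s s2 near wn (Nat.log 2 n) := by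
    refine (card_le_card h2).trans (card_biUnion_le.trans ?_)
    have h4 : ∀ K ∈ univ.filter (fun K : Fin (Kmax+1) => K0 ≤ K.val ∧
      (K.val = Nat.log 2 n - 1 ∨ K.val = Nat.log 2 n)),
      (AllP lay K0 K n x).card ≤ Fb K0 g s s2 near wn K := by
      intro K hK
      rw [mem_filter] at hK
      refine card_AllP_le lay hG hM hg H K hK.2.1 (hcore K (by have := K.isLt; omega)) x hx n ?_
      have h5 : n < 2 ^ (Nat.log 2 n + 1) := Nat.lt_pow_succ_log_self (by norm_num) n
      refine lt_of_lt_of_le h5 (Nat.pow_le_pow_right (by norm_num) ?_)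
      rcases hK.2.2 with h | h
      · rw [h]; omega
      · rw [h]; omega
    refine (Finset.sum_le_sum h4).trans ?_
    have hinj : Set.InjOn (fun K' : Fin (Kmax+1) => K'.val)
        ((univ.filter (fun K : Fin (Kmax+1) => K0 ≤ K.val ∧
      (K.val = Nat.log 2 n - 1 ∨ K.val = Nat.log 2 n)) : Finset (Fin (Kmax+1))) : Set (Fin (Kmax+1))) :=
      fun a _ b _ hab => Fin.ext hab
    have e2 := Finset.sum_image (f := fun K : ℕ => Fb K0 g s s2 near wn K) hinj
    rw [← e2]
    have e3 : (univ.filter (fun K : Fin (Kmax+1) => K0 ≤ K.val ∧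
      (K.val = Nat.log 2 n - 1 ∨ K.val = Nat.log 2 n))).image (fun K' : Fin (Kmax+1) => K'.val) ⊆
      {Nat.log 2 n - 1, Nat.log 2 n} := by
      intro K hK
      rw [mem_image] at hK
      obtain ⟨K', hK', rfl⟩ := hK
      rw [mem_filter] at hK'
      rw [mem_insert, mem_singleton]
      exact hK'.2.2
    refine (Finset.sum_le_sum_of_subset e3).trans ?_
    by_cases h6 : Nat.log 2 n - 1 = Nat.log 2 n
    · rw [h6]
      simp
    · rw [Finset.sum_pair h6]
  calc ((Aset lay K0 x ×ˢ Aset lay K0 x).filter (fun q => q.1 + q.2 = n)).card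
      ≤ _ := card_le_card h1
    _ ≤ S.card + (S.image Prod.swap).card := card_union_le _ _
    _ ≤ S.card + S.card := Nat.add_le_add_left card_image_le _
    _ ≤ _ := by omega

/-- the elements of one scale are different -/
theorem card_AK (hG : GoodLay M lay Kmax) (K : Fin (Kmax+1))
    (hinj : ∀ i < M, ∀ v ∈ (lay K).V i, ∀ v' ∈ (lay K).V i,
      (lay K).c i v ≡ (lay K).c i v' [MOD 2 ^ (lay K).len i] → v = v')
    (x : ∀ q : Ind M N Kmax, Xsp lay q) :
    (AK lay K x).card = ∏ m : Fin M, ((lay K).V m.val).card := by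
  have hKm : K.val ≤ Kmax := by have := K.isLt; omega
  unfold AK
  rw [Finset.card_image_of_injOn]
  · simp [vars, Fintype.card_piFinset]
  · intro z hz z' hz' h
    have hz1 := (mem_vars lay).mp hz
    have hz2 := (mem_vars lay).mp hz'
    have hv : pval (lay K).bot (dig lay K x z) M = pval (lay K).bot (dig lay K x z') M := by
      unfold elt at h; omega
    have hd := pval_inj (hG.bot0 K hKm) (hG.mono K hKm) (dig_lt lay K x z) (dig_lt lay K x z') hv
    have key' : ∀ m : ℕ, ∀ hm : m < M, z ⟨m, hm⟩ = z' ⟨m, hm⟩ := by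
      intro m
      induction m using Nat.strong_induction_on with
      | _ m ih =>
        intro hm
        have h1 := hd m hm
        rw [dig_val lay x z hm, dig_val lay x z' hm] at h1
        have hk : key (lay K) m z = key (lay K) m z' := by
          rw [key_eq_iff]
          refine ⟨fun j hj => ih j.val (by omega) j.isLt, fun j hj => ?_⟩
          rw [show z j = z' j from ih j.val (by omega) j.isLt]
        rw [hk] at h1
        have h2 : (lay K).c m (z ⟨m, hm⟩) + (x (K, ⟨m, hm⟩, key (lay K) m z')).val ≡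
            (lay K).c m (z' ⟨m, hm⟩) + (x (K, ⟨m, hm⟩, key (lay K) m z')).val
            [MOD 2 ^ (lay K).len m] := h1
        exact hinj m hm _ (hz1 ⟨m, hm⟩) _ (hz2 ⟨m, hm⟩) (Nat.ModEq.add_right_cancel' _ h2)
    funext j
    exact key' j.val j.isLt

end

end Pool.Agent.ETP
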