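import Mathlib

/-!
# E-T (MP_12a1af_nt), project T*: compactness
-/

open Finset

namespace Pool.Agent.ETP

/-- compactness: finite sets with a bound for the number of representations and with many elements
in every dyadic block give an infinite one -/
theorem compactness (F : ℕ → ℕ) (K0 : ℕ) (cnt : ℕ → ℕ)
    (h : ∀ Kmax : ℕ, ∃ B : Finset ℕ,
      (∀ n, ((B ×ˢ B).filter (fun q : ℕ × ℕ => q.1 + q.2 = n)).card ≤ F n) ∧
      ∀ K, K0 ≤ K → K ≤ Kmax →
        cnt K ≤ (B.filter (fun a => 2 ^ K ≤ a ∧ a < 2 ^ (K + 1))).card) :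
    ∃ A : Set ℕ, (∀ n, {q : ℕ × ℕ | q.1 ∈ A ∧ q.2 ∈ A ∧ q.1 + q.2 = n}.ncard ≤ F n) ∧
      ∀ K, K0 ≤ K → cnt K ≤ (A ∩ Set.Ico (2 ^ K) (2 ^ (K + 1))).ncard := by
  classical
  choose B hB1 hB2 using h
  let U : Ultrafilter ℕ := Filter.hyperfilter ℕ
  let A : Set ℕ := {a | ∀ᶠ k in (U : Filter ℕ), a ∈ B k}
  have hagree : ∀ X : ℕ, ∀ᶠ k in (U : Filter ℕ), ∀ a ∈ range X, (a ∈ A ↔ a ∈ B k) := by
    intro X
    rw [Finset.eventually_all]
    intro a _
    by_cases ha : a ∈ A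
    · have : ∀ᶠ k in (U : Filter ℕ), a ∈ B k := ha
      filter_upwards [this] with k hk
      exact ⟨fun _ => hk, fun _ => ha⟩
    · have h1 : ¬ ∀ᶠ k in (U : Filter ℕ), a ∈ B k := ha
      have h2 : ∀ᶠ k in (U : Filter ℕ), a ∉ B k := Ultrafilter.eventually_not.mpr h1
      filter_upwards [h2] with k hk
      exact ⟨fun h => absurd h ha, fun h => absurd h hk⟩
  have hlarge : ∀ K : ℕ, ∀ᶠ k in (U : Filter ℕ), K ≤ k := by
    intro K
    have h1 : (U : Filter ℕ) ≤ Filter.atTop := by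
      rw [← Nat.cofinite_eq_atTop]
      exact Filter.hyperfilter_le_cofinite
    exact h1 (Filter.eventually_ge_atTop K)
  refine ⟨A, fun n => ?_, fun K hK => ?_⟩
  · obtain ⟨k, hk⟩ := (hagree (n+1)).exists
    have h1 : {q : ℕ × ℕ | q.1 ∈ A ∧ q.2 ∈ A ∧ q.1 + q.2 = n} =
        (((B k ×ˢ B k).filter (fun q : ℕ × ℕ => q.1 + q.2 = n) : Finset (ℕ × ℕ)) :
          Set (ℕ × ℕ)) := by
      ext q
      simp only [coe_filter, mem_product, Set.mem_ofPred_eq]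
      constructor
      · rintro ⟨ha, hb, hs⟩
        exact ⟨⟨(hk q.1 (by rw [mem_range]; omega)).mp ha,
          (hk q.2 (by rw [mem_range]; omega)).mp hb⟩, hs⟩
      · rintro ⟨⟨ha, hb⟩, hs⟩
        exact ⟨(hk q.1 (by rw [mem_range]; omega)).mpr ha,
          (hk q.2 (by rw [mem_range]; omega)).mpr hb, hs⟩
    rw [h1, Set.ncard_coe_finset]
    exact hB1 k n
  · obtain ⟨k, hk1, hk2⟩ := ((hagree (2 ^ (K+1))).and (hlarge K)).exists
    have h1 : A ∩ Set.Ico (2 ^ K) (2 ^ (K + 1)) =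
        (((B k).filter (fun a => 2 ^ K ≤ a ∧ a < 2 ^ (K + 1)) : Finset ℕ) : Set ℕ) := by
      ext a
      simp only [coe_filter, Set.mem_ofPred_eq, Set.mem_inter_iff, Set.mem_Ico]
      constructor
      · rintro ⟨ha, hb⟩
        exact ⟨(hk1 a (by rw [mem_range]; exact hb.2)).mp ha, hb⟩
      · rintro ⟨ha, hb⟩
        exact ⟨(hk1 a (by rw [mem_range]; exact hb.2)).mpr ha, hb⟩
    rw [h1, Set.ncard_coe_finset]
    exact hB2 k K hK hk2

end Pool.Agent.ETP
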