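import Mathlib
import Pool.Agent.Helper3.ETF.Count
import Pool.Agent.Helper3.ETF.Compact

/-!
# E-T (MP_12a1af_nt), project T*: the frame theorem
-/

open Finset

namespace Pool.Agent.ETP

open Pool.Agent.ETS

/-- everything which is needed from the layouts of the scales up to `Kmax` -/
structure LayHyp (Kmax K0 : ℕ) (g mm : ℕ → ℕ) (ε : ℕ → ℝ) (near : ℕ → ℕ → ℕ)
    (wn a0 cnt : ℕ → ℕ) : Prop where
  ex : ∃ (M N : ℕ) (lay : ℕ → Lay N) (pad : ℕ → ℕ),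
    FarHyp M Kmax lay pad K0 g mm ε ∧ NearHyp M Kmax lay K0 g near wn ∧
    (∀ K, K0 ≤ K → K ≤ Kmax → (lay K).bot (M-1) = a0 K) ∧
    (∀ K, K0 ≤ K → K ≤ Kmax → ∀ i < M, ∀ v ∈ (lay K).V i, ∀ v' ∈ (lay K).V i,
      (lay K).c i v ≡ (lay K).c i v' [MOD 2 ^ (lay K).len i] → v = v') ∧
    (∀ K, K0 ≤ K → K ≤ Kmax → cnt K ≤ ∏ m : Fin M, ((lay K).V m.val).card)

lemma FarHyp.mono {M N Kmax : ℕ} {lay : ℕ → Lay N} {pad : ℕ → ℕ} {K0 K1 : ℕ} {g mm : ℕ → ℕ}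
    {ε : ℕ → ℝ} (h : FarHyp M Kmax lay pad K0 g mm ε) (hK : K0 ≤ K1) :
    FarHyp M Kmax lay pad K1 g mm ε where
  good := h.good
  padM := h.padM
  card := h.card
  triv := h.triv
  core := h.core
  gpos := h.gpos
  eps0 := h.eps0
  mm := fun K hK2 L h1 h2 => h.mm K hK2 L (hK.trans h1) h2
  far := fun K hK2 K' h1 h2 => h.far K hK2 K' (hK.trans h1) h2

lemma NearHyp.mono {M N Kmax : ℕ} {lay : ℕ → Lay N} {K0 K1 : ℕ} {g : ℕ → ℕ}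
    {near : ℕ → ℕ → ℕ} {wn : ℕ → ℕ} (h : NearHyp M Kmax lay K0 g near wn) (hK : K0 ≤ K1) :
    NearHyp M Kmax lay K1 g near wn where
  near := fun K K' x h1 h2 h3 => h.near K K' x (hK.trans h1) h2 h3
  win := fun K K' x h1 h2 h3 => h.win K K' x (hK.trans h1) h2 h3

lemma LayHyp.mono {Kmax K0 K1 : ℕ} {g mm : ℕ → ℕ} {ε : ℕ → ℝ} {near : ℕ → ℕ → ℕ}
    {wn a0 cnt : ℕ → ℕ} (h : LayHyp Kmax K0 g mm ε near wn a0 cnt) (hK : K0 ≤ K1) :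
    LayHyp Kmax K1 g mm ε near wn a0 cnt := by
  obtain ⟨M, N, lay, pad, h1, h2, h3, h4, h5⟩ := h.ex
  exact ⟨M, N, lay, pad, h1.mono hK, h2.mono hK, fun K hK1 => h3 K (hK.trans hK1),
    fun K hK1 => h4 K (hK.trans hK1), fun K hK1 => h5 K (hK.trans hK1)⟩

lemma Fb_mono {K0 K1 : ℕ} (hK : K0 ≤ K1) (g s : ℕ → ℕ) (s2 : ℕ) (near : ℕ → ℕ → ℕ) (wn : ℕ → ℕ)
    (K : ℕ) : Fb K1 g s s2 near wn K ≤ Fb K0 g s s2 near wn K := by
  unfold Fb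
  refine Nat.add_le_add_right (Finset.sum_le_sum_of_subset ?_) _
  intro K'
  simp only [mem_filter, mem_Icc]
  rintro ⟨⟨h1, h2⟩, h3⟩
  exact ⟨⟨hK.trans h1, h2⟩, h3⟩

/-- **The frame theorem.** -/
theorem frame (K0 : ℕ) (g mm s : ℕ → ℕ) (s2 : ℕ) (hs2 : 1 ≤ s2) (ε : ℕ → ℝ)
    (near : ℕ → ℕ → ℕ) (wn a0 cnt : ℕ → ℕ)
    (h : ∀ Kmax, LayHyp Kmax K0 g mm ε near wn a0 cnt)
    (hfail : ∀ Kmax, ∑ K ∈ Icc K0 Kmax, (failA mm s ε K + failB (a0 K) s2 K) < 1) :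
    ∃ A : Set ℕ, (∀ n, {q : ℕ × ℕ | q.1 ∈ A ∧ q.2 ∈ A ∧ q.1 + q.2 = n}.ncard ≤
        2 * (Fb K0 g s s2 near wn (Nat.log 2 n - 1) + Fb K0 g s s2 near wn (Nat.log 2 n))) ∧
      ∀ K, K0 ≤ K → cnt K ≤ (A ∩ Set.Ico (2 ^ K) (2 ^ (K + 1))).ncard := by
  refine compactness _ K0 cnt (fun Kmax => ?_)
  obtain ⟨M, N, lay, pad, hF, hN, ha, hinj, hcnt⟩ := (h Kmax).ex
  have hM : 2 ≤ M := by have := hF.padM 0 (Nat.zero_le _); omega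
  have hfail' : ∑ K ∈ Icc K0 Kmax, (failA mm s ε K + failB ((lay K).bot (M-1)) s2 K) < 1 := by
    refine lt_of_le_of_lt (le_of_eq ?_) (hfail Kmax)
    refine Finset.sum_congr rfl (fun K hK => ?_)
    rw [mem_Icc] at hK
    rw [ha K hK.1 hK.2]
  obtain ⟨x, hx⟩ := exists_good lay pad hF s s2 hs2 hfail'
  refine ⟨Aset lay K0 x, fun n => ?_, fun K hK0 hKm => ?_⟩
  · exact rep_le lay hF.good hM hF.gpos hN hF.core x hx n
  · have hlt : K < Kmax + 1 := by omega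
    have h1 := card_AK lay hF.good ⟨K, hlt⟩ (hinj K hK0 hKm) x
    refine (hcnt K hK0 hKm).trans ?_
    rw [← h1]
    refine card_le_card ?_
    intro a ha2
    rw [mem_filter]
    refine ⟨?_, AK_bounds lay hF.good ha2⟩
    unfold Aset
    rw [mem_biUnion]
    exact ⟨⟨K, hlt⟩, by rw [mem_filter]; exact ⟨mem_univ _, hK0⟩, ha2⟩

lemma sum_half_pow_lt (K0 : ℕ) (Kmax : ℕ) :
    ∑ K ∈ Icc K0 Kmax, ((1:ℝ)/2) ^ (K+1) < 1 := by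
  have h1 : ∑ K ∈ Icc K0 Kmax, ((1:ℝ)/2) ^ (K+1) ≤ ∑ K ∈ range (Kmax+1), ((1:ℝ)/2) ^ (K+1) := by
    refine Finset.sum_le_sum_of_subset_of_nonneg ?_ (fun _ _ _ => by positivity)
    intro K hK
    rw [mem_Icc] at hK
    rw [mem_range]; omega
  have h2 : ∀ k : ℕ, ∑ K ∈ range k, ((1:ℝ)/2) ^ (K+1) = 1 - (1/2)^k := by
    intro k
    induction k with
    | zero => simp
    | succ k ih => rw [sum_range_succ, ih]; ring
  rw [h2] at h1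
  have : (0:ℝ) < (1/2)^(Kmax+1) := by positivity
  linarith

/-- the failure probabilities are small -/
lemma failA_le {mm s : ℕ → ℕ} {ε : ℕ → ℝ} (q : ℕ → ℕ) {K : ℕ} (hε : 0 ≤ ε K)
    (h1 : (K : ℝ) * (mm K : ℝ) ^ 2 * (2 * s K + 1) ^ 2 * ε K ≤ (1/2) ^ q K)
    (h2 : 2 * K + 4 ≤ q K * s K) : failA mm s ε K ≤ (1/2) ^ (K+2) := by
  unfold failA
  have h3 : ((K : ℝ) * (mm K : ℝ) ^ 2 * (2 * s K + 1) ^ 2 * ε K) ^ s K ≤ (1/2) ^ (2 * K + 4) := by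
    calc ((K : ℝ) * (mm K : ℝ) ^ 2 * (2 * s K + 1) ^ 2 * ε K) ^ s K
        ≤ ((1/2) ^ q K) ^ s K := pow_le_pow_left₀ (by positivity) h1 _
      _ = (1/2) ^ (q K * s K) := by rw [← pow_mul]
      _ ≤ (1/2) ^ (2 * K + 4) := pow_le_pow_of_le_one (by norm_num) (by norm_num) h2
  calc (2:ℝ) ^ (K + 2) * ((K : ℝ) * (mm K : ℝ) ^ 2 * (2 * s K + 1) ^ 2 * ε K) ^ s K
      ≤ 2 ^ (K + 2) * (1/2) ^ (2 * K + 4) := mul_le_mul_of_nonneg_left h3 (by positivity)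
    _ = (2:ℝ) ^ (K + 2) * ((1/2) ^ (K + 2) * (1/2) ^ (K+2)) := by rw [← pow_add]; congr 2; ring
    _ = ((2:ℝ) * (1/2)) ^ (K+2) * (1/2) ^ (K+2) := by rw [mul_pow]; ring
    _ = (1/2) ^ (K+2) := by norm_num

lemma failB_le {a K : ℕ} (ha : 7 * K ≤ 8 * a) (haK : a ≤ K)
    (hK : (16 : ℝ) * (K : ℝ) ^ 8 ≤ Real.sqrt (2 ^ K)) :
    failB a 8 K ≤ (1/2) ^ (K+2) := by
  unfold failB
  set r : ℝ := Real.sqrt (2 ^ K) with hr
  have hr0 : 0 < r := by positivity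
  have hrr : r * r = 2 ^ K := Real.mul_self_sqrt (by positivity)
  set u : ℝ := Real.sqrt (2 ^ (K - a)) with hu
  set v : ℝ := Real.sqrt (2 ^ a) with hv
  have hu0 : 0 < u := by positivity
  have hv0 : 0 < v := by positivity
  have huu : u * u = 2 ^ (K - a) := Real.mul_self_sqrt (by positivity)
  have hvv : v * v = 2 ^ a := Real.mul_self_sqrt (by positivity)
  -- (u/v)^8 = 2^(4(K-a)) / 2^(4a) ≤ 1/ 2^(3K)
  have h1 : (u / v) ^ 8 ≤ (1/2) ^ (3 * K) := by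
    have e1 : (u / v) ^ 8 = (2 ^ (K-a)) ^ 4 / (2 ^ a) ^ 4 := by
      rw [← huu, ← hvv]
      rw [div_pow]
      congr 1 <;> ring
    rw [e1, div_le_iff₀ (by positivity)]
    have e2 : ((1:ℝ)/2) ^ (3 * K) = 1 / 2 ^ (3*K) := by rw [one_div, inv_pow, one_div]
    rw [e2, ← pow_mul, ← pow_mul, div_mul_eq_mul_div, one_mul, le_div_iff₀ (by positivity),
      ← pow_add]
    exact pow_le_pow_right₀ (by norm_num) (by omega)
  have h2 : ((K:ℝ) * (u / v)) ^ 8 ≤ (K:ℝ) ^ 8 * (1/2) ^ (3*K) := by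
    rw [mul_pow]
    exact mul_le_mul_of_nonneg_left h1 (by positivity)
  calc 2 ^ (K+2) * r * ((K:ℝ) * (u / v)) ^ 8
      ≤ 2 ^ (K+2) * r * ((K:ℝ) ^ 8 * (1/2) ^ (3*K)) :=
        mul_le_mul_of_nonneg_left h2 (by positivity)
    _ = (16 * (K:ℝ) ^ 8) * r * (2 ^ K * (1/2) ^ (3*K)) / 4 := by ring
    _ ≤ r * r * (2 ^ K * (1/2) ^ (3*K)) / 4 := by
        have : (16 * (K:ℝ) ^ 8) * r * (2 ^ K * (1/2) ^ (3*K)) ≤ r * r * (2 ^ K * (1/2) ^ (3*K)) := by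
          refine mul_le_mul_of_nonneg_right ?_ (by positivity)
          exact mul_le_mul_of_nonneg_right hK hr0.le
        linarith
    _ = ((2:ℝ) ^ K * (1/2) ^ K) * (2 ^ K * (1/2) ^ K) * ((1/2) ^ K / 4) := by
        rw [hrr]
        have : ((1:ℝ)/2) ^ (3*K) = (1/2) ^ K * (1/2) ^ K * (1/2)^K := by
          rw [← pow_add, ← pow_add]; congr 1; ring
        rw [this]; ring
    _ = (1/2) ^ (K+2) := by
        have : (2:ℝ) ^ K * (1/2) ^ K = 1 := by rw [← mul_pow]; norm_num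
        rw [this, pow_add]; ring

end Pool.Agent.ETP
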