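import Mathlib
import Pool.Agent.Helper3.ETF.Frame

/-!
# E-T (MP_12a1af_nt), project T*: unpadded layouts with variables in `ℕ`
-/

open Finset

namespace Pool.Agent.ETP

open Pool.Agent.ETS

/-- a layout with variables in `ℕ`; the region `0` is trivial -/
structure LayN where
  bot : ℕ → ℕ
  V : ℕ → Finset ℕ
  c : ℕ → ℕ → ℕ
  core : ℕ → ℕ → ℕ

/-- length of region `i` -/
def LayN.len (A : LayN) (i : ℕ) : ℕ := A.bot (i+1) - A.bot i

/-- the hash key of region `i` -/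
def keyN (A : LayN) (i : ℕ) (z : ℕ → ℕ) : ℕ → Option ℕ := fun j =>
  if j + 1 < i then some (z j) else if j + 1 = i then some (A.core j (z j)) else none

/-- digit block of region `i` -/
def digN (A : LayN) (h : ℕ → (ℕ → Option ℕ) → ℕ) (z : ℕ → ℕ) (i : ℕ) : ℕ :=
  (A.c i (z i) + h i (keyN A i z)) % 2 ^ A.len i

/-- the element of scale `K` -/
def eltN (A : LayN) (m K : ℕ) (h : ℕ → (ℕ → Option ℕ) → ℕ) (z : ℕ → ℕ) : ℕ :=
  2 ^ K + ∑ i ∈ range m, 2 ^ A.bot i * digN A h z i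

/-- possible pairs of blocks of variables -/
def ConsN (A A' : LayN) (K K' i i' n a κ₁ κ₂ a' κ₁' κ₂' : ℕ) (b b' : ℕ × ℕ) : Prop :=
  ∃ u u', u < 2 ^ (K - A.bot (i+1)) ∧ u' < 2 ^ (K' - A'.bot (i'+1)) ∧
    (2 ^ K + (a + 2 ^ A.bot (i-1) * ((A.c (i-1) b.1 + κ₁) % 2 ^ A.len (i-1)) +
      2 ^ A.bot i * ((A.c i b.2 + κ₂) % 2 ^ A.len i) + 2 ^ A.bot (i+1) * u)) +
    (2 ^ K' + (a' + 2 ^ A'.bot (i'-1) * ((A'.c (i'-1) b'.1 + κ₁') % 2 ^ A'.len (i'-1)) +
      2 ^ A'.bot i' * ((A'.c i' b'.2 + κ₂') % 2 ^ A'.len i') + 2 ^ A'.bot (i'+1) * u'))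
      = n

open Classical in
/-- the pairs of blocks which are consistent in a given context -/
noncomputable def ConsSetN (A A' : LayN) (K K' i i' n a κ₁ κ₂ a' κ₁' κ₂' co co' : ℕ) :
    Finset ((ℕ × ℕ) × (ℕ × ℕ)) :=
  (((A.V (i-1)) ×ˢ (A.V i)) ×ˢ ((A'.V (i'-1)) ×ˢ (A'.V i'))).filter
    (fun bb => A.core (i-1) bb.1.1 = co ∧ A'.core (i'-1) bb.2.1 = co' ∧
      ConsN A A' K K' i i' n a κ₁ κ₂ a' κ₁' κ₂' bb.1 bb.2)

/-- the probability factor; `al`, `al'` are the tops of the two regions -/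
noncomputable def phiV (K K' al al' : ℕ) : ℝ :=
  Real.sqrt (2 ^ (K - al)) * Real.sqrt (2 ^ (K' - al')) *
    (2 ^ (K' - max al' (min al K')) / 2 ^ ((K - al) + (K' - al')))

/-- everything which is needed from the unpadded layouts; `m K` is the number of regions
(the trivial region `0` included), the window is the region `m K - 1` -/
structure OwnHyp (A : ℕ → LayN) (m : ℕ → ℕ) (K0 : ℕ) (g mm : ℕ → ℕ) (ε : ℕ → ℝ)
    (near : ℕ → ℕ → ℕ) (wn a0 cnt : ℕ → ℕ) : Prop where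
  m3 : ∀ K, K0 ≤ K → 3 ≤ m K
  bot0 : ∀ K, K0 ≤ K → (A K).bot 0 = 0
  mono : ∀ K, K0 ≤ K → ∀ i < m K, (A K).bot i ≤ (A K).bot (i+1)
  top : ∀ K, K0 ≤ K → (A K).bot (m K) = K
  bota : ∀ K, K0 ≤ K → (A K).bot (m K - 1) = a0 K
  card : ∀ K, K0 ≤ K → ∀ i < m K, ((A K).V i).card ^ 2 ≤ 2 ^ (A K).len i
  triv : ∀ K, K0 ≤ K → ((A K).V 0).card ≤ 1
  core : ∀ K, K0 ≤ K → ∀ v ∈ (A K).V (m K - 2), ∀ v' ∈ (A K).V (m K - 2),
      (A K).core (m K - 2) v = (A K).core (m K - 2) v' → v = v'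
  inj : ∀ K, K0 ≤ K → ∀ i < m K, ∀ v ∈ (A K).V i, ∀ v' ∈ (A K).V i,
      (A K).c i v ≡ (A K).c i v' [MOD 2 ^ (A K).len i] → v = v'
  gpos : ∀ K, 1 ≤ g K
  eps0 : ∀ K, 0 ≤ ε K
  mm : ∀ K L, K0 ≤ L → L ≤ K → m L ≤ mm K
  cnt : ∀ K, K0 ≤ K → cnt K ≤ ∏ i ∈ range (m K), ((A K).V i).card
  far : ∀ K K', K0 ≤ K' → K' + g K ≤ K → ∃ Nb : ℕ → ℕ → ℕ,
    (∀ i i', 1 ≤ i → 1 ≤ i' → i + 1 < m K → i' < m K' →
      ∀ n a κ₁ κ₂ a' κ₁' κ₂' co co', a < 2 ^ (A K).bot (i-1) → a' < 2 ^ (A K').bot (i'-1) →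
      (ConsSetN (A K) (A K') K K' i i' n a κ₁ κ₂ a' κ₁' κ₂' co co').card ≤ Nb i i') ∧
    ∀ i i', 1 ≤ i → 1 ≤ i' → i + 1 < m K → i' < m K' →
        (Nb i i' : ℝ) * phiV K K' ((A K).bot (i+1)) ((A K').bot (i'+1)) ≤ ε K
  near : ∀ K K', K0 ≤ K' → K' ≤ K → K < K' + g K → ∀ (h h' : ℕ → (ℕ → Option ℕ) → ℕ) (n : ℕ)
    (P : Finset (ℕ × ℕ)),
    (∀ q ∈ P, q.1 + q.2 = n ∧
      (∃ z : ℕ → ℕ, (∀ i < m K, z i ∈ (A K).V i) ∧ eltN (A K) (m K) K h z = q.1) ∧
      (∃ z : ℕ → ℕ, (∀ i < m K', z i ∈ (A K').V i) ∧ eltN (A K') (m K') K' h' z = q.2)) →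
    P.card ≤ near K K'
  amono : ∀ K K', K0 ≤ K' → K' ≤ K → a0 K' ≤ a0 K
  win : ∀ K K', K0 ≤ K' → K' + g K ≤ K → a0 K ≤ K' → ∀ κ κ' ν,
    ((((A K).V (m K - 1)) ×ˢ ((A K').V (m K' - 1))).filter (fun vv =>
      2 ^ (A K).bot (m K - 1) * (((A K).c (m K - 1) vv.1 + κ) % 2 ^ (A K).len (m K - 1)) +
      2 ^ (A K').bot (m K' - 1) * (((A K').c (m K' - 1) vv.2 + κ') % 2 ^ (A K').len (m K' - 1))
        = ν)).card ≤ wn K

section pad

/-- natural numbers as elements of `Fin N` -/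
def toF (N : ℕ) (hN : 0 < N) (v : ℕ) : Fin N := ⟨v % N, Nat.mod_lt _ hN⟩

lemma toF_val {N : ℕ} (hN : 0 < N) {v : ℕ} (h : v < N) : (toF N hN v).val = v :=
  Nat.mod_eq_of_lt h

/-- the padded layout -/
def padLay (M N : ℕ) (hN : 0 < N) (A : LayN) (m K : ℕ) : Lay N where
  bot := fun i => if i < M then A.bot (i - (M - m)) else K
  V := fun i => if i < M - m then {toF N hN 0} else (A.V (i - (M - m))).image (toF N hN)
  c := fun i v => if i < M - m then 0 else A.c (i - (M - m)) v.val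
  core := fun i v => if i < M - m then v else toF N hN (A.core (i - (M - m)) v.val)

/-- a trivial layout -/
def trivLay (M N : ℕ) (hN : 0 < N) (K : ℕ) : Lay N where
  bot := fun i => if i < M then 0 else K
  V := fun _ => {toF N hN 0}
  c := fun _ _ => 0
  core := fun _ v => v

/-- the standing assumptions for the padding of one layout -/
structure PadOK (M N : ℕ) (A : LayN) (m K : ℕ) : Prop where
  m3 : 3 ≤ m
  mM : m ≤ M
  bot0 : A.bot 0 = 0
  mono : ∀ i < m, A.bot i ≤ A.bot (i+1)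
  top : A.bot m = K
  lt : ∀ i < m, ∀ v ∈ A.V i, v < N ∧ A.core i v < N

variable {M N : ℕ} (hN : 0 < N) {A : LayN} {m K : ℕ}

lemma pad_bot (H : PadOK M N A m K) {i : ℕ} (hi : i ≤ M) :
    (padLay M N hN A m K).bot i = A.bot (i - (M - m)) := by
  unfold padLay
  simp only
  rcases Nat.lt_or_ge i M with h | h
  · rw [if_pos h]
  · have h1 : i = M := by omega
    have h2 : i - (M - m) = m := by have := H.mM; omega
    rw [if_neg (by omega), h2, H.top]

lemma A_mono (H : PadOK M N A m K) {i j : ℕ} (hij : i ≤ j) (hj : j ≤ m) : A.bot i ≤ A.bot j := by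
  induction j, hij using Nat.le_induction with
  | base => exact le_refl _
  | succ j hij ih => exact (ih (by omega)).trans (H.mono j (by omega))

lemma pad_mono (H : PadOK M N A m K) : Monotone (padLay M N hN A m K).bot := by
  intro i j hij
  rcases Nat.lt_or_ge j M with h | h
  · rw [pad_bot hN H (by omega), pad_bot hN H (by omega)]
    exact A_mono H (by omega) (by have := H.mM; omega)
  · have h2 : (padLay M N hN A m K).bot j = K := by
      unfold padLay
      simp only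
      rw [if_neg (by omega)]
    rw [h2]
    rcases Nat.lt_or_ge i M with h3 | h3
    · rw [pad_bot hN H (by omega), ← H.top]
      exact A_mono H (by have := H.mM; omega) (le_refl _)
    · unfold padLay
      simp only
      rw [if_neg (by omega)]

lemma pad_bot0 (H : PadOK M N A m K) : (padLay M N hN A m K).bot 0 = 0 := by
  rw [pad_bot hN H (Nat.zero_le _)]
  have h1 := H.mM
  have h2 := H.m3
  rw [Nat.zero_sub, H.bot0]

lemma pad_top : (padLay M N hN A m K).bot M = K := by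
  unfold padLay
  simp

lemma pad_len (H : PadOK M N A m K) {i : ℕ} (h1 : M - m ≤ i) (h2 : i < M) :
    (padLay M N hN A m K).len i = A.len (i - (M - m)) := by
  unfold Lay.len LayN.len
  rw [pad_bot hN H (by omega), pad_bot hN H (by omega)]
  congr 2
  omega

lemma pad_len_lt (H : PadOK M N A m K) {i : ℕ} (h1 : i < M - m) :
    (padLay M N hN A m K).len i = 0 := by
  unfold Lay.len
  rw [pad_bot hN H (by omega), pad_bot hN H (by omega)]
  have e1 : i + 1 - (M - m) = 0 := by omega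
  have e2 : i - (M - m) = 0 := by omega
  rw [e1, e2, Nat.sub_self]

lemma pad_V (i : ℕ) (h : M - m ≤ i) :
    (padLay M N hN A m K).V i = (A.V (i - (M - m))).image (toF N hN) := by
  unfold padLay
  simp only
  rw [if_neg (by omega)]

lemma pad_V_lt (i : ℕ) (h : i < M - m) : (padLay M N hN A m K).V i = {toF N hN 0} := by
  unfold padLay
  simp only
  rw [if_pos h]

lemma pad_c (i : ℕ) (h : M - m ≤ i) (v : Fin N) :
    (padLay M N hN A m K).c i v = A.c (i - (M - m)) v.val := by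
  unfold padLay
  simp only
  rw [if_neg (by omega)]

lemma pad_core (i : ℕ) (h : M - m ≤ i) (v : Fin N) :
    (padLay M N hN A m K).core i v = toF N hN (A.core (i - (M - m)) v.val) := by
  unfold padLay
  simp only
  rw [if_neg (by omega)]

lemma pad_core_lt (i : ℕ) (h : i < M - m) (v : Fin N) :
    (padLay M N hN A m K).core i v = v := by
  unfold padLay
  simp only
  rw [if_pos h]

lemma pad_mem (H : PadOK M N A m K) {i : ℕ} (h1 : M - m ≤ i) (h2 : i < M) {v : Fin N}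
    (hv : v ∈ (padLay M N hN A m K).V i) :
    v.val ∈ A.V (i - (M - m)) ∧ A.core (i - (M - m)) v.val < N := by
  rw [pad_V hN i h1, mem_image] at hv
  obtain ⟨w, hw, rfl⟩ := hv
  have h3 := H.lt (i - (M-m)) (by have := H.mM; omega) w hw
  rw [toF_val hN h3.1]
  exact ⟨hw, h3.2⟩

lemma pad_card (H : PadOK M N A m K) {i : ℕ} (h1 : M - m ≤ i) (h2 : i < M) :
    ((padLay M N hN A m K).V i).card = (A.V (i - (M - m))).card := by
  rw [pad_V hN i h1, card_image_of_injOn]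
  intro v hv w hw hvw
  have h3 := H.lt (i - (M-m)) (by have := H.mM; omega) v hv
  have h4 := H.lt (i - (M-m)) (by have := H.mM; omega) w hw
  have := congrArg Fin.val hvw
  rwa [toF_val hN h3.1, toF_val hN h4.1] at this

/-- the own variables -/
def ownz (M m : ℕ) {N : ℕ} (z : Fin M → Fin N) : ℕ → ℕ := fun j =>
  if h : j < m ∧ j + (M - m) < M then (z ⟨j + (M - m), h.2⟩).val else 0

lemma ownz_val (H : PadOK M N A m K) (z : Fin M → Fin N) {i : ℕ} (h1 : M - m ≤ i) (h2 : i < M) :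
    ownz M m z (i - (M - m)) = (z ⟨i, h2⟩).val := by
  unfold ownz
  have h3 := H.mM
  rw [dif_pos ⟨by omega, by omega⟩]
  congr 2
  apply Fin.ext
  show i - (M - m) + (M - m) = i
  omega

/-- equal own keys give equal keys -/
lemma key_of_keyN (H : PadOK M N A m K) {z z' : Fin M → Fin N}
    (hz : ∀ j : Fin M, z j ∈ (padLay M N hN A m K).V j)
    (hz' : ∀ j : Fin M, z' j ∈ (padLay M N hN A m K).V j) {j : ℕ}
    (h : keyN A j (ownz M m z) = keyN A j (ownz M m z')) :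
    key (padLay M N hN A m K) (j + (M - m)) z = key (padLay M N hN A m K) (j + (M - m)) z' := by
  have hmM := H.mM
  rw [key_eq_iff]
  refine ⟨fun t ht => ?_, fun t ht => ?_⟩
  · rcases Nat.lt_or_ge t.val (M - m) with h1 | h1
    · have e1 := hz t
      have e2 := hz' t
      rw [pad_V_lt hN t.val h1, mem_singleton] at e1 e2
      rw [e1, e2]
    · have e1 := congrFun h (t.val - (M - m))
      unfold keyN at e1
      rw [if_pos (by omega), if_pos (by omega), ownz_val H z h1 t.isLt,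
        ownz_val H z' h1 t.isLt] at e1
      exact Fin.ext (Option.some_injective _ e1)
  · rcases Nat.lt_or_ge t.val (M - m) with h1 | h1
    · have e1 := hz t
      have e2 := hz' t
      rw [pad_V_lt hN t.val h1, mem_singleton] at e1 e2
      rw [e1, e2]
    · have e1 := congrFun h (t.val - (M - m))
      unfold keyN at e1
      rw [if_neg (by omega), if_pos (by omega), if_neg (by omega), if_pos (by omega),
        ownz_val H z h1 t.isLt, ownz_val H z' h1 t.isLt] at e1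
      rw [pad_core hN t.val h1, pad_core hN t.val h1, Option.some_injective _ e1]

end pad

end Pool.Agent.ETP
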