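import Mathlib
import Pool.Agent.Helper3.ETF.Own
import Pool.Agent.ETS.Win

/-!
# E-T (MP_12a1af_nt), project T*: the padding of unpadded layouts
-/

open Finset

namespace Pool.Agent.ETP

open Pool.Agent.ETS

section

variable {M N Kmax : ℕ} (hN : 0 < N) (A : ℕ → LayN) (m : ℕ → ℕ) (K0 : ℕ)

/-- the padded layouts -/
def layP (M N : ℕ) (hN : 0 < N) (A : ℕ → LayN) (m : ℕ → ℕ) (K0 : ℕ) (K : ℕ) : Lay N :=
  if K0 ≤ K then padLay M N hN (A K) (m K) K else trivLay M N hN K

/-- the number of padding regions -/
def padP (M : ℕ) (m : ℕ → ℕ) (K0 : ℕ) (K : ℕ) : ℕ := if K0 ≤ K then M - m K else 0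

lemma layP_eq {K : ℕ} (hK : K0 ≤ K) :
    layP M N hN A m K0 K = padLay M N hN (A K) (m K) K := if_pos hK

lemma padP_eq {K : ℕ} (hK : K0 ≤ K) : padP M m K0 K = M - m K := if_pos hK

open Classical in
/-- the hash function of the unpadded layout -/
noncomputable def hown (K : Fin (Kmax+1)) (x : ∀ q : Ind M N Kmax, Xsp (layP M N hN A m K0) q) :
    ℕ → (ℕ → Option ℕ) → ℕ := fun j k =>
  if h : ∃ z : Fin M → Fin N, (z ∈ vars M (layP M N hN A m K0) K ∧
      keyN (A K) j (ownz M (m K) z) = k) ∧ j + (M - m K) < M then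
    (x (K, ⟨j + (M - m K), h.choose_spec.2⟩,
      key (layP M N hN A m K0 K) (j + (M - m K)) h.choose)).val
  else 0

variable {A m K0}

lemma dig_own {K : Fin (Kmax+1)} (hK : K0 ≤ K.val) (H : PadOK M N (A K) (m K) K.val)
    (x : ∀ q : Ind M N Kmax, Xsp (layP M N hN A m K0) q) {z : Fin M → Fin N}
    (hz : z ∈ vars M (layP M N hN A m K0) K) {j : ℕ} (hj : j < m K) :
    dig (layP M N hN A m K0) K x z (j + (M - m K)) =
      digN (A K) (hown hN A m K0 K x) (ownz M (m K) z) j := by
  have hmM := H.mM
  have hjM : j + (M - m K) < M := by omega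
  rw [dig_val _ x z hjM]
  unfold digN
  have hlen : (layP M N hN A m K0 K.val).len (j + (M - m K)) = (A K).len j := by
    rw [layP_eq hN A m K0 hK, pad_len hN H (by omega) hjM]
    congr 1; omega
  have hc : (layP M N hN A m K0 K.val).c (j + (M - m K)) (z ⟨j + (M - m K), hjM⟩) =
      (A K).c j (ownz M (m K) z j) := by
    rw [layP_eq hN A m K0 hK, pad_c hN _ (by omega)]
    have e1 : j + (M - m K) - (M - m K) = j := by omega
    have e2 := ownz_val H z (i := j + (M - m K)) (by omega) hjM
    rw [e1] at e2
    rw [e1, ← e2]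
  have hh : (x (K, ⟨j + (M - m K), hjM⟩, key (layP M N hN A m K0 K) (j + (M - m K)) z)).val =
      hown hN A m K0 K x j (keyN (A K) j (ownz M (m K) z)) := by
    unfold hown
    have hex : ∃ z' : Fin M → Fin N, (z' ∈ vars M (layP M N hN A m K0) K ∧
      keyN (A K) j (ownz M (m K) z') = keyN (A K) j (ownz M (m K) z)) ∧ j + (M - m K) < M :=
      ⟨z, ⟨hz, rfl⟩, hjM⟩
    rw [dif_pos hex]
    obtain ⟨⟨h1, h2⟩, _⟩ := hex.choose_spec
    have h3 := (mem_vars _).mp h1
    have h4 := (mem_vars _).mp hz
    rw [layP_eq hN A m K0 hK] at h3 h4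
    have h5 := key_of_keyN hN H h3 h4 h2
    rw [← layP_eq hN A m K0 hK] at h5
    rw [h5]
  rw [hc, hh, hlen]

lemma elt_own {K : Fin (Kmax+1)} (hK : K0 ≤ K.val) (H : PadOK M N (A K) (m K) K.val)
    (x : ∀ q : Ind M N Kmax, Xsp (layP M N hN A m K0) q) {z : Fin M → Fin N}
    (hz : z ∈ vars M (layP M N hN A m K0) K) :
    eltN (A K) (m K) K (hown hN A m K0 K x) (ownz M (m K) z) =
      elt (layP M N hN A m K0) K x z := by
  have hmM := H.mM
  unfold elt eltN
  congr 1
  have key' : ∀ k, k ≤ m K → pval (layP M N hN A m K0 K.val).bot (dig (layP M N hN A m K0) K x z)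
      (k + (M - m K)) = ∑ i ∈ range k, 2 ^ (A K).bot i *
        digN (A K) (hown hN A m K0 K x) (ownz M (m K) z) i := by
    intro k
    induction k with
    | zero =>
      intro _
      simp only [range_zero, sum_empty, zero_add]
      unfold pval
      refine Finset.sum_eq_zero (fun i hi => ?_)
      rw [mem_range] at hi
      have h1 : (layP M N hN A m K0 K.val).bot (i+1) - (layP M N hN A m K0 K.val).bot i = 0 := by
        have := pad_len_lt hN H hi
        unfold Lay.len at this
        rw [layP_eq hN A m K0 hK, this]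
      have h2 := dig_lt (layP M N hN A m K0) K x z i
      rw [h1, pow_zero] at h2
      have h3 : dig (layP M N hN A m K0) K x z i = 0 := by omega
      rw [h3, mul_zero]
    | succ k ih =>
      intro hk
      have e1 : k + 1 + (M - m K) = (k + (M - m K)) + 1 := by omega
      rw [e1, pval_succ, ih (by omega), sum_range_succ, dig_own hN hK H x hz (by omega)]
      congr 2
      rw [layP_eq hN A m K0 hK, pad_bot hN H (by omega)]
      congr 1
      have : k + (M - m K) - (M - m K) = k := by omega
      rw [this]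
  have e2 := key' (m K) (le_refl _)
  have e3 : m K + (M - m K) = M := by omega
  rw [e3] at e2
  exact e2.symm

lemma ownz_mem {K : ℕ} (hK : K0 ≤ K) (H : PadOK M N (A K) (m K) K) {z : Fin M → Fin N}
    (hz : z ∈ vars M (layP M N hN A m K0) K) : ∀ i < m K, ownz M (m K) z i ∈ (A K).V i := by
  intro i hi
  have hmM := H.mM
  have h1 := (mem_vars _).mp hz ⟨i + (M - m K), by omega⟩
  rw [layP_eq hN A m K0 hK] at h1
  have h2 := (pad_mem hN H (by omega) (show i + (M - m K) < M by omega) h1).1
  have e1 : i + (M - m K) - (M - m K) = i := by omega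
  rw [e1] at h2
  have e2 := ownz_val H z (i := i + (M - m K)) (by omega) (by omega)
  rw [e1] at e2
  rw [e2]
  exact h2

/-- counting consistent pairs -/
lemma card_ConsSet_le {K K' : ℕ} (hK : K0 ≤ K) (hK' : K0 ≤ K')
    (H : PadOK M N (A K) (m K) K) (H' : PadOK M N (A K') (m K') K') {i i' : ℕ}
    (hi : M - m K + 1 ≤ i) (hi' : M - m K' + 1 ≤ i') (hiM : i + 1 < M) (hiM' : i' < M)
    (n a κ₁ κ₂ a' κ₁' κ₂' : ℕ) (co co' : Fin N) :
    (ConsSet (layP M N hN A m K0) K K' i i' n a κ₁ κ₂ a' κ₁' κ₂' co co').card ≤
      (ConsSetN (A K) (A K') K K' (i - (M - m K)) (i' - (M - m K')) n a κ₁ κ₂ a' κ₁' κ₂'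
        co.val co'.val).card := by
  classical
  have hm3 := H.m3
  have hm3' := H'.m3
  have hmM := H.mM
  have hmM' := H'.mM
  have e1 : i - (M - m K) - 1 = i - 1 - (M - m K) := by omega
  have e1' : i' - (M - m K') - 1 = i' - 1 - (M - m K') := by omega
  have e2 : i - (M - m K) + 1 = i + 1 - (M - m K) := by omega
  have e2' : i' - (M - m K') + 1 = i' + 1 - (M - m K') := by omega
  refine card_le_card_of_injOn (fun bb => ((bb.1.1.val, bb.1.2.val), (bb.2.1.val, bb.2.2.val))) ?_ ?_
  · intro bb hbb
    have hbb' := Finset.mem_coe.mp hbb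
    unfold ConsSet at hbb'
    rw [mem_filter, mem_product, mem_product, mem_product] at hbb'
    obtain ⟨⟨⟨m1, m2⟩, ⟨m3, m4⟩⟩, hc, hc', hcons⟩ := hbb'
    rw [layP_eq hN A m K0 hK] at m1 m2 hc hcons
    rw [layP_eq hN A m K0 hK'] at m3 m4 hc' hcons
    have q1 := pad_mem hN H (by omega) (by omega) m1
    have q2 := pad_mem hN H (by omega) (by omega) m2
    have q3 := pad_mem hN H' (by omega) (by omega) m3
    have q4 := pad_mem hN H' (by omega) (by omega) m4
    apply Finset.mem_coe.mpr
    unfold ConsSetN
    rw [mem_filter, mem_product, mem_product, mem_product]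
    simp only
    rw [e1, e1']
    refine ⟨⟨⟨q1.1, q2.1⟩, ⟨q3.1, q4.1⟩⟩, ?_, ?_, ?_⟩
    · rw [← hc, pad_core hN _ (by omega), toF_val hN q1.2]
    · rw [← hc', pad_core hN _ (by omega), toF_val hN q3.2]
    · obtain ⟨u, u', hu, hu', heq⟩ := hcons
      refine ⟨u, u', ?_, ?_, ?_⟩
      · rw [e2]; rwa [pad_bot hN H (by omega)] at hu
      · rw [e2']; rwa [pad_bot hN H' (by omega)] at hu'
      · rw [e1, e1', e2, e2']
        rw [pad_bot hN H (by omega), pad_bot hN H (by omega), pad_bot hN H (by omega),
          pad_bot hN H' (by omega), pad_bot hN H' (by omega), pad_bot hN H' (by omega),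
          pad_len hN H (by omega) (by omega), pad_len hN H (by omega) (by omega),
          pad_len hN H' (by omega) (by omega), pad_len hN H' (by omega) (by omega),
          pad_c hN _ (by omega), pad_c hN _ (by omega), pad_c hN _ (by omega),
          pad_c hN _ (by omega)] at heq
        exact heq
  · intro bb _ bb' _ h
    simp only [Prod.mk.injEq] at h
    obtain ⟨⟨h1, h2⟩, ⟨h3, h4⟩⟩ := h
    exact Prod.ext (Prod.ext (Fin.ext h1) (Fin.ext h2)) (Prod.ext (Fin.ext h3) (Fin.ext h4))

lemma phi_eq {K K' : ℕ} (hK : K0 ≤ K) (hK' : K0 ≤ K')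
    (H : PadOK M N (A K) (m K) K) (H' : PadOK M N (A K') (m K') K') {i i' : ℕ}
    (hiM : i + 1 ≤ M) (hiM' : i' + 1 ≤ M) (hi : M - m K ≤ i) (hi' : M - m K' ≤ i') :
    phi (layP M N hN A m K0) K K' i i' =
      phiV K K' ((A K).bot (i - (M - m K) + 1)) ((A K').bot (i' - (M - m K') + 1)) := by
  have e2 : i - (M - m K) + 1 = i + 1 - (M - m K) := by omega
  have e2' : i' - (M - m K') + 1 = i' + 1 - (M - m K') := by omega
  unfold phi phiV
  rw [layP_eq hN A m K0 hK, layP_eq hN A m K0 hK', pad_bot hN H hiM, pad_bot hN H' hiM', e2, e2']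

end

/-- a common bound for all codes -/
lemma exists_N (A : ℕ → LayN) (m : ℕ → ℕ) (Kmax : ℕ) : ∃ N, 0 < N ∧ ∀ K ≤ Kmax, ∀ i < m K,
    ∀ v ∈ (A K).V i, v < N ∧ (A K).core i v < N := by
  refine ⟨(range (Kmax+1)).sup (fun K => (range (m K)).sup (fun i => ((A K).V i).sup
    (fun v => max v ((A K).core i v)))) + 1, Nat.succ_pos _, fun K hK i hi v hv => ?_⟩
  have h1 : max v ((A K).core i v) ≤ ((A K).V i).sup (fun v => max v ((A K).core i v)) :=
    Finset.le_sup (f := fun v => max v ((A K).core i v)) hv
  have h2 : ((A K).V i).sup (fun v => max v ((A K).core i v)) ≤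
      (range (m K)).sup (fun i => ((A K).V i).sup (fun v => max v ((A K).core i v))) :=
    Finset.le_sup (f := fun i => ((A K).V i).sup (fun v => max v ((A K).core i v)))
      (mem_range.mpr hi)
  have h3 : (range (m K)).sup (fun i => ((A K).V i).sup (fun v => max v ((A K).core i v))) ≤
      (range (Kmax+1)).sup (fun K => (range (m K)).sup (fun i => ((A K).V i).sup
        (fun v => max v ((A K).core i v)))) :=
    Finset.le_sup (f := fun K => (range (m K)).sup (fun i => ((A K).V i).sup
        (fun v => max v ((A K).core i v)))) (mem_range.mpr (by omega))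
  have h4 := le_max_left v ((A K).core i v)
  have h5 := le_max_right v ((A K).core i v)
  omega

theorem LayHyp_of_own {A : ℕ → LayN} {m : ℕ → ℕ} {K0 : ℕ} {g mm : ℕ → ℕ} {ε : ℕ → ℝ}
    {near : ℕ → ℕ → ℕ} {wn a0 cnt : ℕ → ℕ} (H : OwnHyp A m K0 g mm ε near wn a0 cnt)
    (Kmax : ℕ) : LayHyp Kmax K0 g mm ε near wn a0 cnt := by
  classical
  obtain ⟨N, hN, hlt⟩ := exists_N A m Kmax
  obtain ⟨M, hM⟩ : ∃ M, M = mm Kmax + 3 := ⟨_, rfl⟩
  have hmM : ∀ K, K0 ≤ K → K ≤ Kmax → m K ≤ M := by
    intro K h1 h2
    have := H.mm Kmax K h1 h2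
    omega
  have hP : ∀ K, K0 ≤ K → K ≤ Kmax → PadOK M N (A K) (m K) K := by
    intro K h1 h2
    exact ⟨H.m3 K h1, hmM K h1 h2, H.bot0 K h1, H.mono K h1, H.top K h1,
      fun i hi v hv => hlt K h2 i hi v hv⟩
  have hgood : GoodLay M (layP M N hN A m K0) Kmax := by
    refine ⟨fun L hL => ?_, fun L hL => ?_, fun L hL => ?_⟩
    · by_cases h : K0 ≤ L
      · rw [layP_eq hN A m K0 h]; exact pad_bot0 hN (hP L h hL)
      · unfold layP trivLay
        rw [if_neg h]
        simp only
        rw [if_pos (by omega)]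
    · by_cases h : K0 ≤ L
      · rw [layP_eq hN A m K0 h]; exact pad_mono hN (hP L h hL)
      · unfold layP trivLay
        rw [if_neg h]
        intro i j hij
        simp only
        split_ifs <;> omega
    · by_cases h : K0 ≤ L
      · rw [layP_eq hN A m K0 h]; exact pad_top hN
      · unfold layP trivLay
        rw [if_neg h]
        simp
  have hinj : ∀ K, K0 ≤ K → K ≤ Kmax → ∀ i < M, ∀ v ∈ (layP M N hN A m K0 K).V i,
      ∀ v' ∈ (layP M N hN A m K0 K).V i,
      (layP M N hN A m K0 K).c i v ≡ (layP M N hN A m K0 K).c i v'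
        [MOD 2 ^ (layP M N hN A m K0 K).len i] → v = v' := by
    intro K h1 h2 i hi v hv v' hv' hvv
    have hp := hP K h1 h2
    have r1 := hp.mM
    rw [layP_eq hN A m K0 h1] at hv hv' hvv
    rcases Nat.lt_or_ge i (M - m K) with h3 | h3
    · rw [pad_V_lt hN i h3, mem_singleton] at hv hv'
      rw [hv, hv']
    · have q1 := pad_mem hN hp h3 hi hv
      have q2 := pad_mem hN hp h3 hi hv'
      rw [pad_c hN i h3, pad_c hN i h3, pad_len hN hp h3 hi] at hvv
      exact Fin.ext (H.inj K h1 _ (by omega) _ q1.1 _ q2.1 hvv)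
  have hDist : ∀ L ≤ Kmax, Distinct (layP M N hN A m K0 L) M := by
    intro L hL i hi v hv v' hv' hvv
    by_cases h : K0 ≤ L
    · exact hinj L h hL i hi v hv v' hv' hvv
    · unfold layP trivLay at hv hv'
      rw [if_neg h] at hv hv'
      simp only [mem_singleton] at hv hv'
      rw [hv, hv']
  refine ⟨M, N, layP M N hN A m K0, padP M m K0, ?_, ?_, ?_, hinj, ?_⟩
  · -- FarHyp
    refine ⟨hgood, ?_, ?_, ?_, ?_, H.gpos, H.eps0, ?_, ?_⟩
    · intro L hL
      by_cases h : K0 ≤ L
      · rw [padP_eq m K0 h]
        have h1 := hmM L h hL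
        have h2 := H.m3 L h
        omega
      · unfold padP
        rw [if_neg h]
        omega
    · intro L hL i hi
      by_cases h : K0 ≤ L
      · have hp := hP L h hL
        rw [layP_eq hN A m K0 h]
        rcases Nat.lt_or_ge i (M - m L) with h1 | h1
        · rw [pad_V_lt hN i h1]
          simp only [card_singleton, one_pow]
          exact Nat.one_le_two_pow
        · rw [pad_card hN hp h1 hi, pad_len hN hp h1 hi]
          exact H.card L h _ (by have := hp.mM; omega)
      · unfold layP trivLay
        rw [if_neg h]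
        simp only [card_singleton, one_pow]
        exact Nat.one_le_two_pow
    · intro L hL i hi
      by_cases h : K0 ≤ L
      · have hp := hP L h hL
        rw [padP_eq m K0 h] at hi
        rw [layP_eq hN A m K0 h]
        rcases Nat.lt_or_ge i (M - m L) with h1 | h1
        · rw [pad_V_lt hN i h1]; simp
        · have h2 := H.m3 L h
          have h3 := hp.mM
          rw [pad_card hN hp h1 (by omega)]
          have e1 : i - (M - m L) = 0 := by omega
          rw [e1]
          exact H.triv L h
      · unfold layP trivLay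
        rw [if_neg h]
        simp
    · intro L hL v hv v' hv' hvv
      by_cases h : K0 ≤ L
      · have hp := hP L h hL
        have h2 := H.m3 L h
        have h3 := hp.mM
        rw [layP_eq hN A m K0 h] at hv hv' hvv
        have q1 := pad_mem hN hp (by omega) (by omega) hv
        have q2 := pad_mem hN hp (by omega) (by omega) hv'
        rw [pad_core hN _ (by omega), pad_core hN _ (by omega)] at hvv
        have e1 : M - 2 - (M - m L) = m L - 2 := by omega
        rw [e1] at q1 q2 hvv
        have h4 := congrArg Fin.val hvv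
        rw [toF_val hN q1.2, toF_val hN q2.2] at h4
        exact Fin.ext (H.core L h _ q1.1 _ q2.1 h4)
      · unfold layP trivLay at hvv
        rw [if_neg h] at hvv
        exact hvv
    · intro K hK L h1 h2
      rw [padP_eq m K0 h1]
      have h3 := H.mm K L h1 h2
      have h4 := hmM L h1 (by omega)
      omega
    · intro K hK K' h1 h2
      obtain ⟨Nb, hNb1, hNb2⟩ := H.far K K' h1 h2
      have hgp := H.gpos K
      have hK0 : K0 ≤ K := by omega
      have hp := hP K hK0 hK
      have hp' := hP K' h1 (by omega)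
      have r1 := hp.mM
      have r2 := hp'.mM
      have r3 := hp.m3
      have r4 := hp'.m3
      refine ⟨fun i i' => Nb (i - (M - m K)) (i' - (M - m K')), ?_, ?_⟩
      · intro i i' hi hi' hiM hiM' n a κ₁ κ₂ a' κ₁' κ₂' co co' ha ha'
        rw [padP_eq m K0 hK0] at hi
        rw [padP_eq m K0 h1] at hi'
        refine (card_ConsSet_le hN hK0 h1 hp hp' hi hi' hiM hiM' n a κ₁ κ₂ a' κ₁' κ₂' co co').trans ?_
        refine hNb1 _ _ (by omega) (by omega) (by omega) (by omega) n a κ₁ κ₂ a' κ₁' κ₂' _ _ ?_ ?_
        · rw [layP_eq hN A m K0 hK0, pad_bot hN hp (by omega)] at ha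
          have e1 : i - (M - m K) - 1 = i - 1 - (M - m K) := by omega
          rw [e1]
          exact ha
        · rw [layP_eq hN A m K0 h1, pad_bot hN hp' (by omega)] at ha'
          have e1 : i' - (M - m K') - 1 = i' - 1 - (M - m K') := by omega
          rw [e1]
          exact ha'
      · intro i i' hi hi' hiM hiM'
        rw [padP_eq m K0 hK0] at hi
        rw [padP_eq m K0 h1] at hi'
        rw [phi_eq hN hK0 h1 hp hp' (by omega) (by omega) (by omega) (by omega)]
        exact hNb2 _ _ (by omega) (by omega) (by omega) (by omega)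
  · -- NearHyp
    refine ⟨?_, ?_⟩
    · intro K K' x h1 h2 h3 n
      have hK0 : K0 ≤ K.val := by omega
      have hp := hP K hK0 (by have := K.isLt; omega)
      have hp' := hP K' h1 (by have := K'.isLt; omega)
      refine H.near K K' h1 h2 h3 (hown hN A m K0 K x) (hown hN A m K0 K' x) n _ ?_
      intro q hq
      unfold PK AK at hq
      rw [mem_filter, mem_product, mem_image, mem_image] at hq
      obtain ⟨⟨⟨z, hz, hzq⟩, ⟨z', hz', hzq'⟩⟩, hsum⟩ := hq
      refine ⟨hsum, ⟨ownz M (m K) z, ownz_mem hN hK0 hp hz, ?_⟩,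
        ⟨ownz M (m K') z', ownz_mem hN h1 hp' hz', ?_⟩⟩
      · rw [elt_own hN hK0 hp x hz, hzq]
      · rw [elt_own hN h1 hp' x hz', hzq']
    · intro K K' x h1 h2 h3 n p
      have hgp := H.gpos K.val
      have hK0 : K0 ≤ K.val := by omega
      have hp := hP K hK0 (by have := K.isLt; omega)
      have hp' := hP K' h1 (by have := K'.isLt; omega)
      have r1 := hp.mM
      have r3 := hp.m3
      have r1' := hp'.mM
      have r3' := hp'.m3
      have e1 : M - 1 - (M - m K) = m K - 1 := by omega
      have e1' : M - 1 - (M - m K') = m K' - 1 := by omega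
      have b1 : (layP M N hN A m K0 K.val).bot (M-1) = (A K).bot (m K - 1) := by
        rw [layP_eq hN A m K0 hK0, pad_bot hN hp (by omega), e1]
      have b1' : (layP M N hN A m K0 K'.val).bot (M-1) = (A K').bot (m K' - 1) := by
        rw [layP_eq hN A m K0 h1, pad_bot hN hp' (by omega), e1']
      have hwin := window_key_count (layP M N hN A m K0) hgood (by omega) hDist (K := K) (K' := K')
        (by rw [b1, b1', H.bota K hK0, H.bota K' h1]; exact H.amono K K' h1 (by omega)) n (wn K)
        (by
          intro v hv v' hv' hvv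
          rw [layP_eq hN A m K0 hK0] at hv hv' hvv
          have q1 := pad_mem hN hp (by omega) (by omega) hv
          have q2 := pad_mem hN hp (by omega) (by omega) hv'
          rw [pad_core hN _ (by omega), pad_core hN _ (by omega)] at hvv
          have e4 : M - 2 - (M - m K) = m K - 2 := by omega
          rw [e4] at q1 q2 hvv
          have h4 := congrArg Fin.val hvv
          rw [toF_val hN q1.2, toF_val hN q2.2] at h4
          exact Fin.ext (H.core K hK0 _ q1.1 _ q2.1 h4))
        (by
          intro κ κ' ν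
          rw [b1, H.bota K hK0] at h3
          refine le_trans ?_ (H.win K K' h1 h2 h3 κ κ' ν)
          unfold WinPairs
          refine card_le_card_of_injOn (fun vv => (vv.1.val, vv.2.val)) ?_ ?_
          · intro vv hvv
            have hvv' := Finset.mem_coe.mp hvv
            rw [mem_filter, mem_product] at hvv'
            obtain ⟨⟨m1, m2⟩, hs⟩ := hvv'
            rw [b1, b1'] at hs
            rw [layP_eq hN A m K0 hK0] at m1 hs
            rw [layP_eq hN A m K0 h1] at m2 hs
            have q1 := pad_mem hN hp (by omega) (by omega) m1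
            have q2 := pad_mem hN hp' (by omega) (by omega) m2
            rw [e1] at q1
            rw [e1'] at q2
            apply Finset.mem_coe.mpr
            rw [mem_filter, mem_product]
            refine ⟨⟨q1.1, q2.1⟩, ?_⟩
            rw [pad_c hN _ (by omega), pad_c hN _ (by omega), pad_len hN hp (by omega) (by omega),
              pad_len hN hp' (by omega) (by omega), e1, e1'] at hs
            exact hs
          · intro v _ w _ hvw
            simp only [Prod.mk.injEq] at hvw
            exact Prod.ext (Fin.ext hvw.1) (Fin.ext hvw.2))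
        x p
      refine le_trans ?_ hwin
      have hsub : PKp (layP M N hN A m K0) K K' n p x ⊆
          (((univ : Finset ((Fin M → Fin N) × (Fin M → Fin N))).filter (fun zz =>
      (∀ t : Fin M, zz.1 t ∈ (layP M N hN A m K0 K.val).V t) ∧
      (∀ t : Fin M, zz.2 t ∈ (layP M N hN A m K0 K'.val).V t) ∧
      key (layP M N hN A m K0 K.val) (M-1) zz.1 = p ∧
      elt (layP M N hN A m K0) K x zz.1 + elt (layP M N hN A m K0) K' x zz.2 = n)).image
        (fun zz => (elt (layP M N hN A m K0) K x zz.1, elt (layP M N hN A m K0) K' x zz.2))) := by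
        intro q hq
        unfold PKp PK AK at hq
        rw [mem_filter, mem_filter, mem_product, mem_image, mem_image] at hq
        obtain ⟨⟨⟨_, ⟨z', hz', hzq'⟩⟩, hsum⟩, z, hz, hzq, hzp⟩ := hq
        rw [mem_image]
        refine ⟨(z, z'), ?_, ?_⟩
        · rw [mem_filter]
          refine ⟨mem_univ _, (mem_vars _).mp hz, (mem_vars _).mp hz', hzp, ?_⟩
          rw [hzq, hzq']; exact hsum
        · simp only
          rw [hzq, hzq']
      refine (card_le_card hsub).trans (card_image_le.trans (le_of_eq ?_))
      congr 1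
  · intro K h1 h2
    have hp := hP K h1 h2
    have r1 := hp.mM
    have r3 := hp.m3
    rw [layP_eq hN A m K0 h1, pad_bot hN hp (by omega)]
    have e1 : M - 1 - (M - m K) = m K - 1 := by omega
    rw [e1, H.bota K h1]
  · intro K h1 h2
    have hp := hP K h1 h2
    have r1 := hp.mM
    refine (H.cnt K h1).trans (le_of_eq ?_)
    rw [layP_eq hN A m K0 h1]
    have e1 : ∏ t : Fin M, ((padLay M N hN (A K) (m K) K).V t.val).card =
        ∏ t ∈ range M, ((padLay M N hN (A K) (m K) K).V t).card :=
      Fin.prod_univ_eq_prod_range (fun t => ((padLay M N hN (A K) (m K) K).V t).card) M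
    rw [e1]
    have e2 : ∀ k, k ≤ m K → ∏ t ∈ range (k + (M - m K)),
        ((padLay M N hN (A K) (m K) K).V t).card = ∏ i ∈ range k, ((A K).V i).card := by
      intro k
      induction k with
      | zero =>
        intro _
        rw [zero_add, range_zero, prod_empty]
        refine Finset.prod_eq_one (fun t ht => ?_)
        rw [mem_range] at ht
        rw [pad_V_lt hN t ht]
        simp
      | succ k ih =>
        intro hk
        have e3 : k + 1 + (M - m K) = (k + (M - m K)) + 1 := by omega
        rw [e3, prod_range_succ, ih (by omega), prod_range_succ,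
          pad_card hN hp (by omega) (by omega)]
        congr 3
        omega
    have e4 := e2 (m K) (le_refl _)
    have e5 : m K + (M - m K) = M := by omega
    rw [e5] at e4
    exact e4.symm

end Pool.Agent.ETP
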