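import Mathlib
import Pool.Agent.Helper3.ETF.Own2
import Pool.Agent.ETS.Reg

/-!
# E-T (MP_12a1af_nt), project T*: layouts given by lists of regions
-/

open Finset

namespace Pool.Agent.ETP

open Pool.Agent.ETS

/-- the layout of a list of regions; the region `0` is trivial, the region `j + 1` is the entry
number `j` of the list -/
def ofList (C : Codes) (K : ℕ) (l : List Reg) : LayN where
  bot := fun i => if i = 0 then 0 else (l[i-1]?).elim K Reg.bot
  V := fun i => if i = 0 then {0} else (l[i-1]?).elim {0} (Reg.V C)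
  c := fun i z => if i = 0 then 0 else (l[i-1]?).elim 0 (fun r => r.c C z)
  core := fun i z => if i = 0 then z else (l[i-1]?).elim z (fun r => r.core z)

/-- is the region of type `P^T` -/
def isPT : Reg → Prop
  | Reg.PT _ _ _ _ => True
  | _ => False

/-- conditions for a list of regions to be a layout of scale `K` -/
structure IsLay (C : Codes) (K : ℕ) (l : List Reg) : Prop where
  len2 : 2 ≤ l.length
  first : ∀ r, l[0]? = some r → r.bot = 0
  next : ∀ j r r', l[j]? = some r → l[j+1]? = some r' → r.top C = r'.bot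
  last : ∀ r, l[l.length-1]? = some r → r.top C = K
  le : ∀ r ∈ l, r.bot ≤ r.top C
  card : ∀ r ∈ l, (r.V C).card ^ 2 ≤ 2 ^ (r.top C - r.bot)
  inj : ∀ r ∈ l, ∀ v ∈ r.V C, ∀ v' ∈ r.V C,
    r.c C v ≡ r.c C v' [MOD 2 ^ (r.top C - r.bot)] → v = v'
  notPT : ∀ r, l[l.length-2]? = some r → ¬ isPT r

section

variable {C : Codes} {K : ℕ} {l : List Reg}

lemma ofList_bot_succ {j : ℕ} {r : Reg} (h : l[j]? = some r) :
    (ofList C K l).bot (j+1) = r.bot := by
  simp [ofList, h]

lemma ofList_V_succ {j : ℕ} {r : Reg} (h : l[j]? = some r) :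
    (ofList C K l).V (j+1) = r.V C := by
  simp [ofList, h]

lemma ofList_c_succ {j : ℕ} {r : Reg} (h : l[j]? = some r) (z : ℕ) :
    (ofList C K l).c (j+1) z = r.c C z := by
  simp [ofList, h]

lemma ofList_core_succ {j : ℕ} {r : Reg} (h : l[j]? = some r) (z : ℕ) :
    (ofList C K l).core (j+1) z = r.core z := by
  simp [ofList, h]

lemma ofList_bot_zero : (ofList C K l).bot 0 = 0 := by simp [ofList]

lemma exists_reg {j : ℕ} (h : j < l.length) : ∃ r, l[j]? = some r ∧ r ∈ l :=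
  ⟨l[j], List.getElem?_eq_getElem h, List.getElem_mem h⟩

lemma ofList_bot_one (H : IsLay C K l) : (ofList C K l).bot 1 = 0 := by
  obtain ⟨r, hr, _⟩ := exists_reg (l := l) (j := 0) (by have := H.len2; omega)
  rw [ofList_bot_succ hr, H.first r hr]

lemma ofList_bot_top (H : IsLay C K l) {j : ℕ} {r : Reg} (h : l[j]? = some r) :
    (ofList C K l).bot (j+2) = r.top C := by
  have hj : j < l.length := by
    rw [List.getElem?_eq_some_iff] at h
    exact h.1
  by_cases h1 : j + 1 < l.length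
  · obtain ⟨r', hr', _⟩ := exists_reg h1
    rw [ofList_bot_succ hr', H.next j r r' h hr']
  · have h2 : j = l.length - 1 := by omega
    rw [h2] at h
    rw [H.last r h]
    have h3 : l[j+1]? = none := by
      rw [List.getElem?_eq_none_iff]; omega
    simp [ofList, h3]

lemma ofList_len (H : IsLay C K l) {j : ℕ} {r : Reg} (h : l[j]? = some r) :
    (ofList C K l).len (j+1) = r.top C - r.bot := by
  unfold LayN.len
  rw [show j + 1 + 1 = j + 2 from rfl, ofList_bot_top H h, ofList_bot_succ h]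

lemma ofList_len_zero (H : IsLay C K l) : (ofList C K l).len 0 = 0 := by
  unfold LayN.len
  rw [ofList_bot_one H, ofList_bot_zero]

lemma ofList_mono (H : IsLay C K l) (i : ℕ) (hi : i < l.length + 1) :
    (ofList C K l).bot i ≤ (ofList C K l).bot (i+1) := by
  rcases Nat.eq_zero_or_pos i with rfl | h
  · rw [ofList_bot_zero]; exact Nat.zero_le _
  · obtain ⟨j, rfl⟩ : ∃ j, i = j + 1 := ⟨i - 1, by omega⟩
    obtain ⟨r, hr, hm⟩ := exists_reg (l := l) (j := j) (by omega)
    rw [ofList_bot_succ hr, show j + 1 + 1 = j + 2 from rfl, ofList_bot_top H hr]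
    exact H.le r hm

end

/-- a pair of blocks with the values `s`, `s'` is consistent with the sum `n` -/
def PairCons (K K' al al' n s s' : ℕ) : Prop :=
  ∃ u u', u < 2 ^ (K - al) ∧ u' < 2 ^ (K' - al') ∧
    (2 ^ K + (s + 2 ^ al * u)) + (2 ^ K' + (s' + 2 ^ al' * u')) = n

/-- the possible blocks of the region number `j` of the list `l`: variables `V`, values `s` -/
def IsBlk (C : Codes) (l : List Reg) (j : ℕ) (V : Finset ℕ) (s : ℕ → ℕ) : Prop :=
  ∃ r, l[j]? = some r ∧
    (((∀ r0, 1 ≤ j → l[j-1]? = some r0 → ¬ isPT r0) ∧ V = r.V C ∧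
      ∃ a κ, a < 2 ^ r.bot ∧
        s = fun z => a + 2 ^ r.bot * ((r.c C z + κ) % 2 ^ (r.top C - r.bot))) ∨
    ∃ p e f b x, 1 ≤ j ∧ l[j-1]? = some (Reg.PT p e f b) ∧ x ∈ C.X p (b - f) ∧
      V = pairs (C.T e) (r.V C) ∧ ∃ a κ₁ κ₂, a < 2 ^ f ∧
      s = fun q => a + 2 ^ f * ((C.P p (b + C.W e - f) x + 2 ^ (b - f) * (Nat.unpair q).1 + κ₁) %
          2 ^ (b + C.W e - f)) +
        2 ^ r.bot * ((r.c C (Nat.unpair q).2 + κ₂) % 2 ^ (r.top C - r.bot)))

lemma core_of_not_PT {r : Reg} (h : ¬ isPT r) (z : ℕ) : r.core z = z := by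
  cases r <;> simp_all [isPT, Reg.core]

/-- one side of a consistent pair -/
lemma side {C : Codes} {K : ℕ} {l : List Reg} (H : IsLay C K l) {j : ℕ} (hj : j < l.length)
    (a κ₁ κ₂ co : ℕ) (ha : a < 2 ^ (ofList C K l).bot j)
    (hne : ∃ v ∈ (ofList C K l).V j, (ofList C K l).core j v = co) :
    ∃ (V : Finset ℕ) (s : ℕ → ℕ) (code : ℕ × ℕ → ℕ), IsBlk C l j V s ∧
      (∀ b : ℕ × ℕ, b.1 ∈ (ofList C K l).V j → (ofList C K l).core j b.1 = co →
        b.2 ∈ (ofList C K l).V (j+1) → code b ∈ V ∧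
        s (code b) = a + 2 ^ (ofList C K l).bot j *
            (((ofList C K l).c j b.1 + κ₁) % 2 ^ (ofList C K l).len j) +
          2 ^ (ofList C K l).bot (j+1) *
            (((ofList C K l).c (j+1) b.2 + κ₂) % 2 ^ (ofList C K l).len (j+1))) ∧
      (∀ b b' : ℕ × ℕ, b.1 ∈ (ofList C K l).V j → (ofList C K l).core j b.1 = co →
        b'.1 ∈ (ofList C K l).V j → (ofList C K l).core j b'.1 = co → code b = code b' →
        b = b') := by
  obtain ⟨r, hr, hrm⟩ := exists_reg hj
  -- the bound of the lower part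
  have hlow : ∀ v, a + 2 ^ (ofList C K l).bot j *
      (((ofList C K l).c j v + κ₁) % 2 ^ (ofList C K l).len j) <
      2 ^ (ofList C K l).bot (j+1) := by
    intro v
    have h1 := ofList_mono H j (by omega)
    have h2 : ((ofList C K l).c j v + κ₁) % 2 ^ (ofList C K l).len j < 2 ^ (ofList C K l).len j :=
      Nat.mod_lt _ (by positivity)
    have h3 : 2 ^ (ofList C K l).bot (j+1) =
        2 ^ (ofList C K l).bot j * 2 ^ (ofList C K l).len j := by
      rw [← pow_add]; congr 1; unfold LayN.len; omega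
    calc a + 2 ^ (ofList C K l).bot j *
      (((ofList C K l).c j v + κ₁) % 2 ^ (ofList C K l).len j)
        < 2 ^ (ofList C K l).bot j + 2 ^ (ofList C K l).bot j *
      (((ofList C K l).c j v + κ₁) % 2 ^ (ofList C K l).len j) := by omega
      _ = 2 ^ (ofList C K l).bot j * ((((ofList C K l).c j v + κ₁) % 2 ^ (ofList C K l).len j) + 1) := by
        ring
      _ ≤ 2 ^ (ofList C K l).bot j * 2 ^ (ofList C K l).len j := Nat.mul_le_mul_left _ h2
      _ = _ := h3.symm
  by_cases hPT : ∃ r0, 1 ≤ j ∧ l[j-1]? = some r0 ∧ isPT r0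
  · obtain ⟨r0, hj1, hr0, hpt⟩ := hPT
    obtain ⟨i, rfl⟩ : ∃ i, j = i + 1 := ⟨j - 1, by omega⟩
    have hr0' : l[i]? = some r0 := by simpa using hr0
    obtain ⟨p, e, f, b, rfl⟩ : ∃ p e f b, r0 = Reg.PT p e f b := by
      cases r0 with
      | PT p e f b => exact ⟨p, e, f, b, rfl⟩
      | _ => exact absurd hpt (by simp [isPT])
    have eV : (ofList C K l).V (i+1) = pairs (C.X p (b - f)) (C.T e) := ofList_V_succ hr0'
    have ec : ∀ z, (ofList C K l).c (i+1) z = C.P p (b + C.W e - f) (Nat.unpair z).1 +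
        2 ^ (b - f) * (Nat.unpair z).2 := fun z => ofList_c_succ hr0' z
    have ecore : ∀ z, (ofList C K l).core (i+1) z = (Nat.unpair z).1 :=
      fun z => ofList_core_succ hr0' z
    have eb : (ofList C K l).bot (i+1) = f := ofList_bot_succ hr0'
    have el : (ofList C K l).len (i+1) = b + C.W e - f := ofList_len H hr0'
    obtain ⟨v, hv, hvc⟩ := hne
    rw [eV, mem_pairs] at hv
    rw [ecore] at hvc
    refine ⟨pairs (C.T e) (r.V C), _, fun q => Nat.pair (Nat.unpair q.1).2 q.2,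
      ⟨r, hr, Or.inr ⟨p, e, f, b, co, by omega, hr0, ?_, rfl, a, κ₁, κ₂, ?_, rfl⟩⟩, ?_, ?_⟩
    · rw [← hvc]; exact hv.1
    · rw [← eb]; exact ha
    · intro q hq1 hq2 hq3
      rw [eV, mem_pairs] at hq1
      rw [ecore] at hq2
      rw [ofList_V_succ hr] at hq3
      refine ⟨?_, ?_⟩
      · rw [mem_pairs, Nat.unpair_pair]
        exact ⟨hq1.2, hq3⟩
      · simp only [Nat.unpair_pair]
        rw [eb, el, ec, hq2, ofList_bot_succ hr, ofList_c_succ hr, ofList_len H hr]
    · intro q q' _ hq2 _ hq2' hqq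
      rw [ecore] at hq2 hq2'
      have h1 := Nat.pair_eq_pair.mp hqq
      refine Prod.ext ?_ h1.2
      rw [← Nat.pair_unpair q.1, ← Nat.pair_unpair q'.1, hq2, hq2', h1.1]
  · -- simple case
    have hnp : ∀ r0, 1 ≤ j → l[j-1]? = some r0 → ¬ isPT r0 := fun r0 h1 h2 h3 =>
      hPT ⟨r0, h1, h2, h3⟩
    have hcoreid : ∀ z, (ofList C K l).core j z = z := by
      intro z
      rcases Nat.eq_zero_or_pos j with rfl | h
      · simp [ofList]
      · obtain ⟨i, rfl⟩ : ∃ i, j = i + 1 := ⟨j - 1, by omega⟩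
        obtain ⟨r0, hr0, _⟩ := exists_reg (l := l) (j := i) (by omega)
        rw [ofList_core_succ hr0]
        exact core_of_not_PT (hnp r0 (by omega) (by simpa using hr0)) z
    refine ⟨r.V C, _, fun q => q.2, ⟨r, hr, Or.inl ⟨hnp, rfl, a + 2 ^ (ofList C K l).bot j *
      (((ofList C K l).c j co + κ₁) % 2 ^ (ofList C K l).len j), κ₂, ?_, rfl⟩⟩, ?_, ?_⟩
    · rw [← ofList_bot_succ (C := C) (K := K) hr]
      exact hlow co
    · intro q _ hq2 hq3
      rw [hcoreid] at hq2
      rw [ofList_V_succ hr] at hq3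
      refine ⟨hq3, ?_⟩
      simp only
      rw [hq2, ofList_bot_succ hr, ofList_c_succ hr, ofList_len H hr]
    · intro q q' _ hq2 _ hq2' hqq
      rw [hcoreid] at hq2 hq2'
      exact Prod.ext (hq2.trans hq2'.symm) hqq

open Classical in
/-- from blocks to consistent sets -/
lemma card_ConsSetN_le {C : Codes} {K K' : ℕ} {l l' : List Reg} (H : IsLay C K l)
    (H' : IsLay C K' l') {j j' : ℕ} (hj : j < l.length) (hj' : j' < l'.length)
    {r r' : Reg} (hr : l[j]? = some r) (hr' : l'[j']? = some r') (B : ℕ)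
    (hB : ∀ n V s V' s', IsBlk C l j V s → IsBlk C l' j' V' s' →
      ((V ×ˢ V').filter (fun z => PairCons K K' (r.top C) (r'.top C) n (s z.1) (s' z.2))).card ≤ B)
    (n a κ₁ κ₂ a' κ₁' κ₂' co co' : ℕ) (ha : a < 2 ^ (ofList C K l).bot j)
    (ha' : a' < 2 ^ (ofList C K' l').bot j') :
    (ConsSetN (ofList C K l) (ofList C K' l') K K' (j+1) (j'+1) n a κ₁ κ₂ a' κ₁' κ₂' co
      co').card ≤ B := by
  by_cases hne : (ConsSetN (ofList C K l) (ofList C K' l') K K' (j+1) (j'+1) n a κ₁ κ₂ a' κ₁' κ₂'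
      co co').Nonempty
  · obtain ⟨bb, hbb⟩ := hne
    unfold ConsSetN at hbb
    rw [mem_filter, mem_product, mem_product, mem_product] at hbb
    simp only [Nat.add_sub_cancel] at hbb
    obtain ⟨V, s, code, hblk, hc1, hc2⟩ := side H hj a κ₁ κ₂ co ha ⟨bb.1.1, hbb.1.1.1, hbb.2.1⟩
    obtain ⟨V', s', code', hblk', hc1', hc2'⟩ := side H' hj' a' κ₁' κ₂' co' ha'
      ⟨bb.2.1, hbb.1.2.1, hbb.2.2.1⟩
    refine le_trans (card_le_card_of_injOn (fun q => (code q.1, code' q.2)) ?_ ?_)
      (hB n V s V' s' hblk hblk')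
    · intro q hq
      have hq' := Finset.mem_coe.mp hq
      unfold ConsSetN at hq'
      rw [mem_filter, mem_product, mem_product, mem_product] at hq'
      simp only [Nat.add_sub_cancel] at hq'
      obtain ⟨⟨⟨m1, m2⟩, ⟨m3, m4⟩⟩, c1, c2, hcons⟩ := hq'
      obtain ⟨d1, d2⟩ := hc1 q.1 m1 c1 m2
      obtain ⟨d1', d2'⟩ := hc1' q.2 m3 c2 m4
      apply Finset.mem_coe.mpr
      rw [mem_filter, mem_product]
      refine ⟨⟨d1, d1'⟩, ?_⟩
      obtain ⟨u, u', hu, hu', heq⟩ := hcons
      simp only [Nat.add_sub_cancel] at hu hu' heq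
      rw [show j + 1 + 1 = j + 2 from rfl, ofList_bot_top H hr] at hu heq
      rw [show j' + 1 + 1 = j' + 2 from rfl, ofList_bot_top H' hr'] at hu' heq
      refine ⟨u, u', hu, hu', ?_⟩
      simp only
      rw [d2, d2']
      exact heq
    · intro q hq q' hq' h
      have h1 := Finset.mem_coe.mp hq
      have h2 := Finset.mem_coe.mp hq'
      unfold ConsSetN at h1 h2
      rw [mem_filter, mem_product, mem_product, mem_product] at h1 h2
      simp only [Nat.add_sub_cancel] at h1 h2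
      have e := Prod.mk.inj h
      exact Prod.ext (hc2 _ _ h1.1.1.1 h1.2.1 h2.1.1.1 h2.2.1 e.1)
        (hc2' _ _ h1.1.2.1 h1.2.2.1 h2.1.2.1 h2.2.2.1 e.2)
  · rw [Finset.not_nonempty_iff_eq_empty.mp hne]
    simp

end Pool.Agent.ETP
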