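import Mathlib
import Pool.Agent.Helper3.ETF.Lists
import Pool.Agent.ETS.OwnLay

/-!
# E-T (MP_12a1af_nt), project T*: elements of `ofList` and the number `val`
-/

open Finset

namespace Pool.Agent.ETP

open Pool.Agent.ETS

/-- the list key of region `j` -/
def keyL (l : List Reg) (z : ℕ → ℕ) (j : ℕ) : List ℕ :=
  if j = 0 then [] else
    (l[j-1]?).elim (z (j-1)) (fun r => r.core (z (j-1))) :: ((List.range (j-1)).map z).reverse

lemma val_eq_sum {C : Codes} : ∀ (l : List Reg) (H : Hash) (z : ℕ → ℕ),
    ETS.val C l H ((List.range l.length).map z) = ∑ j ∈ range l.length,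
      2 ^ (l[j]?).elim 0 Reg.bot * (((l[j]?).elim 0 (fun r => r.c C (z j)) + H (keyL l z j)) %
        2 ^ (l[j]?).elim 0 (Reg.len C))
  | [], H, z => by simp [ETS.val]
  | r :: rs, H, z => by
    have ih := val_eq_sum (C := C) rs (r.next H (z 0)) (fun i => z (i+1))
    have e1 : (List.range (r :: rs).length).map z =
        z 0 :: (List.range rs.length).map (fun i => z (i+1)) := by
      rw [List.length_cons, List.range_succ_eq_map, List.map_cons, List.map_map]
      rfl
    rw [e1, ETS.val, ih, List.length_cons, sum_range_succ']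
    have e2 : ∀ j, (r.next H (z 0)) (keyL rs (fun i => z (i+1)) j) = H (keyL (r :: rs) z (j+1)) := by
      intro j
      unfold Reg.next
      rcases Nat.eq_zero_or_pos j with rfl | hj
      · simp [keyL]
      · obtain ⟨i, rfl⟩ : ∃ i, j = i + 1 := ⟨j - 1, by omega⟩
        have h1 : keyL rs (fun i => z (i+1)) (i+1) ≠ [] := by simp [keyL]
        rw [if_neg h1]
        congr 1
        unfold keyL
        rw [if_neg (by omega), if_neg (by omega)]
        simp only [Nat.add_sub_cancel, List.cons_append, List.getElem?_cons_succ]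
        congr 1
        rw [List.range_succ_eq_map, List.map_cons, List.reverse_cons, List.map_map]
        rfl
    have e3 : keyL (r :: rs) z 0 = [] := by simp [keyL]
    rw [e3]
    simp only [List.getElem?_cons_succ, List.getElem?_cons_zero, Option.elim_some, e2]
    rw [add_comm]

lemma mem_Vs_map {C : Codes} : ∀ (l : List Reg) (z : ℕ → ℕ),
    (∀ j r, l[j]? = some r → z j ∈ r.V C) → (List.range l.length).map z ∈ Vs C l
  | [], z, _ => by simp
  | r :: rs, z, h => by
    have e1 : (List.range (r :: rs).length).map z =
        z 0 :: (List.range rs.length).map (fun i => z (i+1)) := by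
      rw [List.length_cons, List.range_succ_eq_map, List.map_cons, List.map_map]
      rfl
    rw [e1, cons_mem_Vs]
    refine ⟨h 0 r rfl, mem_Vs_map rs _ (fun j r' hr' => h (j+1) r' ?_)⟩
    simpa using hr'

/-- a list key as a key -/
def keyfun (k : List ℕ) : ℕ → Option ℕ := fun t =>
  if t = 0 then some 0 else if t ≤ k.length then k[k.length - t]? else none

/-- the hash function on list keys -/
def bridge (h : ℕ → (ℕ → Option ℕ) → ℕ) : Hash := fun k => h (k.length + 1) (keyfun k)

lemma length_keyL (l : List Reg) (z : ℕ → ℕ) (j : ℕ) : (keyL l z j).length = j := by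
  unfold keyL
  split_ifs with h
  · simp [h]
  · simp; omega

lemma keyfun_keyL {C : Codes} {K : ℕ} {l : List Reg} {z : ℕ → ℕ} (hz0 : z 0 = 0) {j : ℕ} :
    keyfun (keyL l (fun i => z (i+1)) j) = keyN (ofList C K l) (j+1) z := by
  funext t
  unfold keyfun keyN
  rw [length_keyL]
  rcases Nat.eq_zero_or_pos t with rfl | ht
  · rw [if_pos rfl]
    rcases Nat.eq_zero_or_pos j with rfl | hj
    · rw [if_neg (by omega), if_pos (by omega)]
      simp [ofList, hz0]
    · rw [if_pos (by omega), hz0]
  · rw [if_neg (by omega)]
    rcases Nat.lt_trichotomy t j with h | h | h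
    · rw [if_pos (by omega), if_pos (by omega)]
      unfold keyL
      rw [if_neg (by omega)]
      obtain ⟨i, hi⟩ : ∃ i, j - t = i + 1 := ⟨j - t - 1, by omega⟩
      rw [hi, List.getElem?_cons_succ, List.getElem?_reverse (by simp; omega)]
      simp only [List.length_map, List.length_range]
      rw [List.getElem?_map, List.getElem?_range (by omega)]
      simp only [Option.map_some]
      congr 2
      omega
    · subst h
      rw [if_pos (le_refl _), if_neg (by omega), if_pos rfl]
      unfold keyL
      rw [if_neg (by omega), Nat.sub_self, List.getElem?_cons_zero]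
      simp only [ofList]
      rw [if_neg (by omega)]
      have e : t - 1 + 1 = t := by omega
      rw [e]
    · rw [if_neg (by omega), if_neg (by omega), if_neg (by omega)]

/-- the elements of `ofList` -/
lemma eltN_eq_val {C : Codes} {K : ℕ} {l : List Reg} (H : IsLay C K l)
    (h : ℕ → (ℕ → Option ℕ) → ℕ) {z : ℕ → ℕ} (hz0 : z 0 = 0) :
    eltN (ofList C K l) (l.length + 1) K h z =
      2 ^ K + ETS.val C l (bridge h) ((List.range l.length).map (fun i => z (i+1))) := by
  unfold eltN
  congr 1
  rw [val_eq_sum, sum_range_succ']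
  have e0 : 2 ^ (ofList C K l).bot 0 * digN (ofList C K l) h z 0 = 0 := by
    unfold digN
    rw [ofList_len_zero H, pow_zero, Nat.mod_one, mul_zero]
  rw [e0, add_zero]
  refine Finset.sum_congr rfl (fun j hj => ?_)
  rw [mem_range] at hj
  obtain ⟨r, hr, _⟩ := exists_reg hj
  rw [ofList_bot_succ hr]
  unfold digN
  rw [ofList_c_succ hr, ofList_len H hr, hr]
  simp only [Option.elim_some]
  have e1 : bridge h (keyL l (fun i => z (i+1)) j) = h (j+1) (keyN (ofList C K l) (j+1) z) := by
    unfold bridge
    rw [length_keyL, keyfun_keyL hz0]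
  rw [e1]
  rfl

lemma getElem?_of_chain {C : Codes} : ∀ {l : List Reg} {u v : ℕ}, Chain C u l v →
    (∀ r, l[0]? = some r → r.bot = u) ∧
    (∀ j r r', l[j]? = some r → l[j+1]? = some r' → r.top C = r'.bot) ∧
    (∀ r, l[l.length - 1]? = some r → r.top C = v) ∧ (∀ r ∈ l, r.bot ≤ r.top C)
  | [], u, v, _ => by simp
  | r :: rs, u, v, h => by
    obtain ⟨h1, h2, h3⟩ := h
    obtain ⟨i1, i2, i3, i4⟩ := getElem?_of_chain h3
    refine ⟨?_, ?_, ?_, ?_⟩
    · intro r' hr'
      simp only [List.getElem?_cons_zero, Option.some.injEq] at hr'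
      rw [← hr']; exact h1
    · intro j r1 r2 hr1 hr2
      rcases Nat.eq_zero_or_pos j with rfl | hj
      · simp only [List.getElem?_cons_zero, Option.some.injEq, zero_add,
          List.getElem?_cons_succ] at hr1 hr2
        rw [← hr1]
        exact (i1 r2 hr2).symm
      · obtain ⟨i, rfl⟩ : ∃ i, j = i + 1 := ⟨j - 1, by omega⟩
        simp only [List.getElem?_cons_succ] at hr1 hr2
        exact i2 i r1 r2 hr1 hr2
    · intro r' hr'
      rcases rs with _ | ⟨r1, rs⟩
      · have h4 : r.top C = v := h3
        simp only [List.length_cons, List.length_nil, zero_add, Nat.sub_self,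
          List.getElem?_cons_zero, Option.some.injEq] at hr'
        rw [← hr']; exact h4
      · apply i3 r'
        simp only [List.length_cons, Nat.add_sub_cancel] at hr' ⊢
        rw [List.getElem?_cons_succ] at hr'
        exact hr'
    · intro r' hr'
      rcases List.mem_cons.mp hr' with rfl | hr'
      · first
        | exact h2.le
        | exact h2
      · exact i4 r' hr'

end Pool.Agent.ETP
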