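import Mathlib
import Pool.Agent.Helper29.ETK.Sched

/-!
# E-T (MP_12a1af_nt), project T*: the numbers of the last step

`c` is the constant of the schedule, `μ` an absolute constant (bound of a pair of regions in rest),
`b` a constant which may depend on everything except the scale `K` (it is also used as exponent of
the logarithm, so that factors `(log K) ^ b` are allowed).
-/

namespace Pool.Agent.ETP

open Pool.Agent.Helper29.ETK

/-- a constant times a power of the logarithm -/
def plog (b K : ℕ) : ℕ := b * (Nat.log 2 K + 1) ^ b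

/-- bound of the number of regions below the window -/
def lenF (a c K : ℕ) : ℕ := a * (lg c K + 2)

/-- bound of the number of blocks of all layouts until `K` -/
def mmF (a c K : ℕ) : ℕ := lenF a c K + 3

/-- bound of the probability of a common pair at far scales -/
noncomputable def epsF (c K : ℕ) : ℝ := (1 / 2) ^ (gth c K / (8 * CC c))

/-- bound of the number of pairs of window variables at distance `D` -/
def bwF (b c K D : ℕ) : ℕ := plog b K * (1 + CC c ^ ep c K / (D + 1))

/-- bound of a transitional pair -/
def betaF (b c K : ℕ) : ℕ := plog b K * CC c ^ ep c K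

/-- bound of the number of representations in near scales -/
def nearF (a μ b c K K' : ℕ) : ℕ :=
  μ ^ (lenF a c K + 3) * betaF b c K * bwF b c K (K - K')

/-- bound of the number of window pairs in far scales -/
def wnF (b c K : ℕ) : ℕ := bwF b c K (gth c K)

/-- lower bound of the number of elements of the scale `K` -/
def cntF (b K : ℕ) : ℕ := 2 ^ (K / 2 - b * (Nat.log 2 K + 1) ^ 3)

lemma plog_mono {b b' K K' : ℕ} (hb : b ≤ b') (hK : K ≤ K') : plog b K ≤ plog b' K' := by
  unfold plog
  refine Nat.mul_le_mul hb ?_
  calc (Nat.log 2 K + 1) ^ b ≤ (Nat.log 2 K' + 1) ^ b :=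
        Nat.pow_le_pow_left (Nat.add_le_add_right (Nat.log_mono_right hK) 1) b
    _ ≤ (Nat.log 2 K' + 1) ^ b' := Nat.pow_le_pow_right (by omega) hb

lemma lg_mono {c K K' : ℕ} (hK : K ≤ K') : lg c K ≤ lg c K' := Nat.log_mono_right hK

lemma ep_mono {c K K' : ℕ} (hK : K ≤ K') : ep c K ≤ ep c K' := Nat.div_le_div_right (lg_mono hK)

lemma mmF_mono {a c K K' : ℕ} (hK : K ≤ K') : mmF a c K ≤ mmF a c K' := by
  unfold mmF lenF
  have := lg_mono (c := c) hK
  gcongr

lemma CC_pos (c : ℕ) : 0 < CC c := by unfold CC; positivity

lemma gth_pos (c K : ℕ) : 1 ≤ gth c K := by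
  unfold gth Gq
  exact Nat.one_le_two_pow

end Pool.Agent.ETP
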