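import Mathlib
import Pool.Agent.Helper3.ETF.Bridge
import Pool.Agent.ETS.Red

/-!
# E-T (MP_12a1af_nt), project T*: the frame theorem in terms of lists of regions
-/

open Finset

namespace Pool.Agent.ETP

open Pool.Agent.ETS

/-- **Everything which is needed from the layouts** `L K : List Reg` of the scales `K ≥ K0`. -/
structure LHyp (C : Codes) (L : ℕ → List Reg) (K0 : ℕ) (g mm : ℕ → ℕ) (ε : ℕ → ℝ)
    (near : ℕ → ℕ → ℕ) (wn a0 cnt : ℕ → ℕ) : Prop where
  /-- chains from `0` to `K` -/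
  chain : ∀ K, K0 ≤ K → Chain C 0 (L K) K
  len2 : ∀ K, K0 ≤ K → 2 ≤ (L K).length
  /-- `a0 K` is the bottom of the window -/
  bota : ∀ K, K0 ≤ K → ∀ r : Reg, (L K)[(L K).length - 1]? = some r → r.bot = a0 K
  amono : ∀ K K', K0 ≤ K' → K' ≤ K → a0 K' ≤ a0 K
  /-- the region below the window is not `P^T` -/
  notPT : ∀ K, K0 ≤ K → ∀ r : Reg, (L K)[(L K).length - 2]? = some r → ¬ isPT r
  card : ∀ K, K0 ≤ K → ∀ r ∈ L K, (r.V C).card ^ 2 ≤ 2 ^ (r.top C - r.bot)
  inj : ∀ K, K0 ≤ K → ∀ r ∈ L K, ∀ v ∈ r.V C, ∀ v' ∈ r.V C,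
    r.c C v ≡ r.c C v' [MOD 2 ^ (r.top C - r.bot)] → v = v'
  /-- regions `P^T` are followed by their `R` region -/
  fol : ∀ K, K0 ≤ K → ∀ (j : ℕ) (r0 r1 : Reg), (L K)[j]? = some r0 → (L K)[j+1]? = some r1 → Follows C r0 r1
  ptle : ∀ K, K0 ≤ K → ∀ p e f b, Reg.PT p e f b ∈ L K → f ≤ b
  gpos : ∀ K, 1 ≤ g K
  eps0 : ∀ K, 0 ≤ ε K
  mm : ∀ K K', K0 ≤ K' → K' ≤ K → (L K').length + 1 ≤ mm K
  cnt : ∀ K, K0 ≤ K → cnt K ≤ ((L K).map (fun r => (r.V C).card)).prod
  /-- far pairs, `j` not the window -/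
  far : ∀ K K', K0 ≤ K' → K' + g K ≤ K → ∀ (j j' : ℕ) (r0 r1 r0' r1' : Reg), j + 1 < (L K).length →
    (Reg.R 0 0 :: L K)[j]? = some r0 → (L K)[j]? = some r1 →
    (Reg.R 0 0 :: L K')[j']? = some r0' → (L K')[j']? = some r1' →
    ∃ B : ℕ, (∀ n Z Z', ZoneOf C r0 r1 Z → ZoneOf C r0' r1' Z' →
      (zcons K K' n Z Z').card ≤ B) ∧
      (B : ℝ) * phiV K K' (r1.top C) (r1'.top C) ≤ ε K
  near : ∀ K K', K0 ≤ K' → K' ≤ K → K < K' + g K → NBt C (L K) (L K') (near K K')
  win : ∀ K K', K0 ≤ K' → K' + g K ≤ K → a0 K ≤ K' → ∀ w w' : Reg,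
    (L K)[(L K).length - 1]? = some w → (L K')[(L K').length - 1]? = some w' → ∀ κ κ' ν,
    ((w.V C ×ˢ w'.V C).filter (fun vv =>
      2 ^ w.bot * ((w.c C vv.1 + κ) % 2 ^ (w.top C - w.bot)) +
      2 ^ w'.bot * ((w'.c C vv.2 + κ') % 2 ^ (w'.top C - w'.bot)) = ν)).card ≤ wn K

section

variable {C : Codes} {L : ℕ → List Reg} {K0 : ℕ} {g mm : ℕ → ℕ} {ε : ℕ → ℝ}
    {near : ℕ → ℕ → ℕ} {wn a0 cnt : ℕ → ℕ}

lemma LHyp.isLay (H : LHyp C L K0 g mm ε near wn a0 cnt) {K : ℕ} (hK : K0 ≤ K) :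
    IsLay C K (L K) := by
  obtain ⟨h1, h2, h3, h4⟩ := getElem?_of_chain (H.chain K hK)
  exact ⟨H.len2 K hK, h1, h2, h3, h4, H.card K hK, H.inj K hK, H.notPT K hK⟩

/-- one side of a far pair: the values of the blocks lie in a zone -/
lemma side_zone (H : LHyp C L K0 g mm ε near wn a0 cnt) {K : ℕ} (hK : K0 ≤ K) {j : ℕ}
    {r0 r1 : Reg} (hr0 : (Reg.R 0 0 :: L K)[j]? = some r0) (hr1 : (L K)[j]? = some r1)
    {V : Finset ℕ} {s : ℕ → ℕ} (hb : IsBlk C (L K) j V s) :
    ∃ Z, ZoneOf C r0 r1 Z ∧ Z.top = r1.top C ∧ (∀ z ∈ V, s z ∈ Z.S) ∧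
      ∀ z ∈ V, ∀ z' ∈ V, s z = s z' → z = z' := by
  have hL := H.isLay hK
  have hr1m : r1 ∈ L K := List.mem_of_getElem? hr1
  obtain ⟨r, hr, hcase⟩ := hb
  rw [hr1] at hr
  obtain rfl := Option.some_injective _ hr
  rcases hcase with ⟨hnp, hV, a, κ, ha, hs⟩ | ⟨p, e, f, b, x, hj, hprev, hx, hV, a, κ₁, κ₂, ha, hs⟩
  · have hnp' : ¬ isPT r0 := by
      rcases Nat.eq_zero_or_pos j with rfl | hj
      · simp only [List.getElem?_cons_zero, Option.some.injEq] at hr0
        rw [← hr0]; simp [isPT]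
      · obtain ⟨i, rfl⟩ : ∃ i, j = i + 1 := ⟨j - 1, by omega⟩
        rw [List.getElem?_cons_succ] at hr0
        exact hnp r0 (by omega) (by simpa using hr0)
    have hZ : ∀ Z, (∃ a κ, a < 2 ^ r1.bot ∧ Z = zreg C r1 a κ) → ZoneOf C r0 r1 Z := by
      intro Z hZ
      cases r0 with
      | PT p e f b => exact absurd trivial hnp'
      | _ => exact hZ
    refine ⟨zreg C r1 a κ, hZ _ ⟨a, κ, ha, rfl⟩, rfl, ?_, ?_⟩
    · intro z hz
      rw [hV] at hz
      rw [hs]
      exact mem_image_of_mem _ hz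
    · intro z hz z' hz' hzz
      rw [hV] at hz hz'
      rw [hs] at hzz
      simp only at hzz
      have h1 : (r1.c C z + κ) % 2 ^ (r1.top C - r1.bot) = (r1.c C z' + κ) % 2 ^ (r1.top C - r1.bot) := by
        have h2 : 2 ^ r1.bot * ((r1.c C z + κ) % 2 ^ (r1.top C - r1.bot)) =
          2 ^ r1.bot * ((r1.c C z' + κ) % 2 ^ (r1.top C - r1.bot)) := by omega
        exact Nat.eq_of_mul_eq_mul_left (by positivity) h2
      exact hL.inj r1 hr1m z hz z' hz' (Nat.ModEq.add_right_cancel' κ h1)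
  · obtain ⟨i, rfl⟩ : ∃ i, j = i + 1 := ⟨j - 1, by omega⟩
    simp only [Nat.add_sub_cancel] at hprev
    rw [List.getElem?_cons_succ, hprev] at hr0
    obtain rfl := Option.some_injective _ hr0
    have hPTm : Reg.PT p e f b ∈ L K := List.mem_of_getElem? hprev
    have hfb := H.ptle K hK p e f b hPTm
    obtain ⟨v, rfl⟩ := H.fol K hK i _ _ hprev hr1
    simp only [Reg.bot, Reg.top, Reg.V, Reg.c] at hV hs ⊢
    set q := C.P p (b + C.W e - f) x + κ₁ with hq
    have hlenq : b + C.W e - f = (b - f) + C.W e := by omega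
    have hval : ∀ t y, a + 2 ^ f * ((C.P p (b + C.W e - f) x + 2 ^ (b - f) * t + κ₁) %
          2 ^ (b + C.W e - f)) + 2 ^ (b + C.W e) * ((C.E (v - (b + C.W e)) y + κ₂) %
          2 ^ (v - (b + C.W e))) =
        (a + 2 ^ f * (q % 2 ^ (b - f))) + 2 ^ b * ((t + q / 2 ^ (b - f)) % 2 ^ C.W e) +
        2 ^ (b + C.W e) * ((C.E (v - (b + C.W e)) y + κ₂) % 2 ^ (v - (b + C.W e))) := by
      intro t y
      have e2 : C.P p (b + C.W e - f) x + 2 ^ (b - f) * t + κ₁ = q + 2 ^ (b - f) * t := by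
        rw [hq]; ring
      rw [e2, hlenq, mod_split]
      have e3 : (2:ℕ) ^ b = 2 ^ f * 2 ^ (b - f) := by rw [← pow_add]; congr 1; omega
      rw [e3]
      ring
    refine ⟨zRS C e b v (a + 2 ^ f * (q % 2 ^ (b - f))) (q / 2 ^ (b - f)) κ₂, ?_, rfl, ?_, ?_⟩
    · refine ⟨_, _, _, ?_, rfl⟩
      have h3 : q % 2 ^ (b - f) + 1 ≤ 2 ^ (b - f) := Nat.mod_lt _ (by positivity)
      have h4 : 2 ^ b = 2 ^ f * 2 ^ (b - f) := by rw [← pow_add]; congr 1; omega
      calc _ < 2 ^ f + 2 ^ f * (q % 2 ^ (b - f)) := by omega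
        _ = 2 ^ f * (q % 2 ^ (b - f) + 1) := by ring
        _ ≤ 2 ^ f * 2 ^ (b - f) := Nat.mul_le_mul_left _ h3
        _ = _ := h4.symm
    · intro z hz
      rw [hV, mem_pairs] at hz
      rw [hs]
      simp only
      rw [hval]
      unfold zRS
      simp only
      rw [mem_image]
      refine ⟨Nat.pair (Nat.unpair z).2 (Nat.unpair z).1, ?_, ?_⟩
      · rw [mem_pairs, Nat.unpair_pair]
        exact ⟨hz.2, hz.1⟩
      · rw [Nat.unpair_pair]
    · intro z hz z' hz' hzz
      rw [hV, mem_pairs] at hz hz'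
      rw [hs] at hzz
      simp only at hzz
      -- both parts agree
      set u := (C.P p (b + C.W e - f) x + 2 ^ (b - f) * (Nat.unpair z).1 + κ₁) %
          2 ^ (b + C.W e - f) with hu
      set u' := (C.P p (b + C.W e - f) x + 2 ^ (b - f) * (Nat.unpair z').1 + κ₁) %
          2 ^ (b + C.W e - f) with hu'
      set w := (C.E (v - (b + C.W e)) (Nat.unpair z).2 + κ₂) % 2 ^ (v - (b + C.W e)) with hw
      set w' := (C.E (v - (b + C.W e)) (Nat.unpair z').2 + κ₂) % 2 ^ (v - (b + C.W e)) with hw'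
      have hult : u < 2 ^ (b + C.W e - f) := Nat.mod_lt _ (by positivity)
      have hult' : u' < 2 ^ (b + C.W e - f) := Nat.mod_lt _ (by positivity)
      have hp : (2:ℕ) ^ (b + C.W e) = 2 ^ f * 2 ^ (b + C.W e - f) := by
        rw [← pow_add]; congr 1; omega
      have h3 : u + 2 ^ (b + C.W e - f) * w = u' + 2 ^ (b + C.W e - f) * w' := by
        rw [hp] at hzz
        have h4 : 2 ^ f * (u + 2 ^ (b + C.W e - f) * w) =
            2 ^ f * (u' + 2 ^ (b + C.W e - f) * w') := by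
          have e1 : 2 ^ f * (u + 2 ^ (b + C.W e - f) * w) =
            2 ^ f * u + 2 ^ f * 2 ^ (b + C.W e - f) * w := by ring
          have e2 : 2 ^ f * (u' + 2 ^ (b + C.W e - f) * w') =
            2 ^ f * u' + 2 ^ f * 2 ^ (b + C.W e - f) * w' := by ring
          omega
        exact Nat.eq_of_mul_eq_mul_left (by positivity) h4
      have huu : u = u' := by
        have := congrArg (· % 2 ^ (b + C.W e - f)) h3
        simpa [Nat.add_mul_mod_self_left, Nat.mod_eq_of_lt hult, Nat.mod_eq_of_lt hult'] using this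
      have hww : w = w' := by
        rw [huu] at h3
        have : 2 ^ (b + C.W e - f) * w = 2 ^ (b + C.W e - f) * w' := by omega
        exact Nat.eq_of_mul_eq_mul_left (by positivity) this
      have i1 := hL.inj (Reg.PT p e f b) hPTm (Nat.pair x (Nat.unpair z).1)
        (by simp only [Reg.V]; rw [mem_pairs, Nat.unpair_pair]; exact ⟨hx, hz.1⟩)
        (Nat.pair x (Nat.unpair z').1)
        (by simp only [Reg.V]; rw [mem_pairs, Nat.unpair_pair]; exact ⟨hx, hz'.1⟩)
        (by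
          simp only [Reg.c, Reg.top, Reg.bot, Nat.unpair_pair]
          exact Nat.ModEq.add_right_cancel' κ₁ huu)
      have i2 := hL.inj (Reg.R (b + C.W e) v) hr1m (Nat.unpair z).2 hz.2 (Nat.unpair z').2 hz'.2
        (by
          simp only [Reg.c, Reg.top, Reg.bot]
          exact Nat.ModEq.add_right_cancel' κ₂ hww)
      have i3 := (Nat.pair_eq_pair.mp i1).2
      rw [← Nat.pair_unpair z, ← Nat.pair_unpair z', i3, i2]

/-- from `LHyp` to `OwnHyp` -/
theorem LHyp.own (H : LHyp C L K0 g mm ε near wn a0 cnt) :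
    OwnHyp (fun K => ofList C K (L K)) (fun K => (L K).length + 1) K0 g mm ε near wn a0 cnt where
  m3 := fun K hK => by have := H.len2 K hK; show 3 ≤ (L K).length + 1; omega
  bot0 := fun K _ => ofList_bot_zero
  mono := fun K hK i hi => ofList_mono (H.isLay hK) i hi
  top := fun K hK => by
    have h2 := H.len2 K hK
    obtain ⟨r, hr, _⟩ := exists_reg (l := L K) (j := (L K).length - 1) (by omega)
    have h1 := ofList_bot_top (H.isLay hK) hr
    rw [(H.isLay hK).last r hr] at h1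
    have e : (L K).length - 1 + 2 = (L K).length + 1 := by omega
    rwa [e] at h1
  bota := fun K hK => by
    have h2 := H.len2 K hK
    obtain ⟨r, hr, _⟩ := exists_reg (l := L K) (j := (L K).length - 1) (by omega)
    have h1 := ofList_bot_succ (C := C) (K := K) hr
    rw [H.bota K hK r hr] at h1
    have e : (L K).length - 1 + 1 = (L K).length + 1 - 1 := by omega
    rwa [e] at h1
  card := fun K hK i hi => by
    rcases Nat.eq_zero_or_pos i with rfl | h
    · have e : (ofList C K (L K)).V 0 = {0} := by simp [ofList]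
      simp only [e, card_singleton, one_pow]
      exact Nat.one_le_two_pow
    · obtain ⟨j, rfl⟩ : ∃ j, i = j + 1 := ⟨i - 1, by omega⟩
      have hi' : j + 1 < (L K).length + 1 := hi
      obtain ⟨r, hr, hm⟩ := exists_reg (l := L K) (j := j) (by omega)
      rw [ofList_V_succ hr, ofList_len (H.isLay hK) hr]
      exact H.card K hK r hm
  triv := fun K _ => by simp [ofList]
  core := fun K hK v _ v' _ hvv => by
    have h2 := H.len2 K hK
    obtain ⟨r, hr, _⟩ := exists_reg (l := L K) (j := (L K).length - 2) (by omega)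
    have e : (L K).length + 1 - 2 = (L K).length - 2 + 1 := by omega
    simp only [e] at hvv
    rw [ofList_core_succ hr, ofList_core_succ hr,
      core_of_not_PT (H.notPT K hK r hr), core_of_not_PT (H.notPT K hK r hr)] at hvv
    exact hvv
  inj := fun K hK i hi v hv v' hv' hvv => by
    rcases Nat.eq_zero_or_pos i with rfl | h
    · have e : (ofList C K (L K)).V 0 = {0} := by simp [ofList]
      simp only [e, mem_singleton] at hv hv'
      rw [hv, hv']
    · obtain ⟨j, rfl⟩ : ∃ j, i = j + 1 := ⟨i - 1, by omega⟩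
      have hi' : j + 1 < (L K).length + 1 := hi
      obtain ⟨r, hr, hm⟩ := exists_reg (l := L K) (j := j) (by omega)
      rw [ofList_V_succ hr] at hv hv'
      rw [ofList_c_succ hr, ofList_c_succ hr, ofList_len (H.isLay hK) hr] at hvv
      exact H.inj K hK r hm v hv v' hv' hvv
  gpos := H.gpos
  eps0 := H.eps0
  mm := H.mm
  cnt := fun K hK => by
    refine (H.cnt K hK).trans (le_of_eq ?_)
    rw [prod_range_succ']
    have e : (ofList C K (L K)).V 0 = {0} := by simp [ofList]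
    rw [e, card_singleton, mul_one]
    have h1 : ∀ (l : List Reg), ((l.map (fun r => (r.V C).card)).prod : ℕ) =
        ∏ i ∈ range l.length, ((l[i]?).elim {0} (Reg.V C)).card := by
      intro l
      induction l with
      | nil => simp
      | cons r l ih =>
        rw [List.map_cons, List.prod_cons, List.length_cons, prod_range_succ', ih]
        simp [mul_comm]
    rw [h1]
    refine Finset.prod_congr rfl (fun i _ => ?_)
    simp [ofList]
  amono := H.amono
  far := fun K K' h1 h2 => by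
    classical
    have hg := H.gpos K
    have hK : K0 ≤ K := by omega
    have hch : ∀ j j', ∃ B : ℕ, ∀ r r', j + 1 < (L K).length →
        (L K)[j]? = some r → (L K')[j']? = some r' →
        (∀ n V s V' s', IsBlk C (L K) j V s → IsBlk C (L K') j' V' s' →
          ((V ×ˢ V').filter (fun z => PairCons K K' (r.top C) (r'.top C) n (s z.1)
            (s' z.2))).card ≤ B) ∧
        (B : ℝ) * phiV K K' (r.top C) (r'.top C) ≤ ε K := by
      intro j j'
      by_cases hj : j + 1 < (L K).length ∧ j' < (L K').length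
      · obtain ⟨r, hr, _⟩ := exists_reg (l := L K) (j := j) (by omega)
        obtain ⟨r', hr', _⟩ := exists_reg (l := L K') (j := j') hj.2
        obtain ⟨r0, hr0, _⟩ := exists_reg (l := Reg.R 0 0 :: L K) (j := j) (by
          rw [List.length_cons]; omega)
        obtain ⟨r0', hr0', _⟩ := exists_reg (l := Reg.R 0 0 :: L K') (j := j') (by
          rw [List.length_cons]; omega)
        obtain ⟨B, hB1, hB2⟩ := H.far K K' h1 h2 j j' r0 r r0' r' hj.1 hr0 hr hr0' hr'
        refine ⟨B, fun r1 r1' _ hr1 hr1' => ?_⟩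
        rw [hr] at hr1
        rw [hr'] at hr1'
        obtain rfl := Option.some_injective _ hr1
        obtain rfl := Option.some_injective _ hr1'
        refine ⟨fun n V s V' s' b1 b2 => ?_, hB2⟩
        obtain ⟨Z, hZ, hZt, hZm, hZi⟩ := side_zone H hK hr0 hr b1
        obtain ⟨Z', hZ', hZt', hZm', hZi'⟩ := side_zone H h1 hr0' hr' b2
        refine le_trans ?_ (hB1 n Z Z' hZ hZ')
        refine card_le_card_of_injOn (fun z => (s z.1, s' z.2)) ?_ ?_
        · intro z hz
          have hz' := Finset.mem_coe.mp hz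
          rw [mem_filter, mem_product] at hz'
          obtain ⟨⟨m1, m2⟩, u, u', hu, hu', he⟩ := hz'
          apply Finset.mem_coe.mpr
          rw [mem_zcons]
          refine ⟨⟨hZm _ m1, hZm' _ m2⟩, u, u', ?_, ?_, ?_⟩
          · rw [hZt]; exact hu
          · rw [hZt']; exact hu'
          · rw [hZt, hZt']; exact he
        · intro z hz z' hz' hzz
          have h3 := Finset.mem_coe.mp hz
          have h4 := Finset.mem_coe.mp hz'
          rw [mem_filter, mem_product] at h3 h4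
          simp only [Prod.mk.injEq] at hzz
          exact Prod.ext (hZi _ h3.1.1 _ h4.1.1 hzz.1) (hZi' _ h3.1.2 _ h4.1.2 hzz.2)
      · refine ⟨0, fun r r' h3 hr hr' => ?_⟩
        exfalso
        rw [List.getElem?_eq_some_iff] at hr'
        exact hj ⟨h3, hr'.1⟩
    choose B hB using hch
    refine ⟨fun i i' => B (i-1) (i'-1), ?_, ?_⟩
    · intro i i' hi hi' hi2 hi2' n a κ₁ κ₂ a' κ₁' κ₂' co co' ha ha'
      obtain ⟨j, rfl⟩ : ∃ j, i = j + 1 := ⟨i - 1, by omega⟩
      obtain ⟨j', rfl⟩ : ∃ j', i' = j' + 1 := ⟨i' - 1, by omega⟩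
      simp only [Nat.add_sub_cancel] at ha ha' ⊢
      obtain ⟨r, hr, _⟩ := exists_reg (l := L K) (j := j) (by omega)
      obtain ⟨r', hr', _⟩ := exists_reg (l := L K') (j := j') (by omega)
      exact card_ConsSetN_le (H.isLay hK) (H.isLay h1) (by omega) (by omega) hr hr' _
        (hB j j' r r' (by omega) hr hr').1 n a κ₁ κ₂ a' κ₁' κ₂' co co' ha ha'
    · intro i i' hi hi' hi2 hi2'
      obtain ⟨j, rfl⟩ : ∃ j, i = j + 1 := ⟨i - 1, by omega⟩
      obtain ⟨j', rfl⟩ : ∃ j', i' = j' + 1 := ⟨i' - 1, by omega⟩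
      simp only [Nat.add_sub_cancel]
      obtain ⟨r, hr, _⟩ := exists_reg (l := L K) (j := j) (by omega)
      obtain ⟨r', hr', _⟩ := exists_reg (l := L K') (j := j') (by omega)
      rw [show j + 1 + 1 = j + 2 from rfl, show j' + 1 + 1 = j' + 2 from rfl,
        ofList_bot_top (H.isLay hK) hr, ofList_bot_top (H.isLay h1) hr']
      exact (hB j j' r r' (by omega) hr hr').2
  near := fun K K' h1 h2 h3 h h' n P hP => by
    classical
    have hK : K0 ≤ K := by omega
    have hlist : ∀ (K₁ : ℕ) (hK₁ : K0 ≤ K₁) (hh : ℕ → (ℕ → Option ℕ) → ℕ) (a : ℕ) (z : ℕ → ℕ),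
        (∀ i < (L K₁).length + 1, z i ∈ (ofList C K₁ (L K₁)).V i) →
        eltN (ofList C K₁ (L K₁)) ((L K₁).length + 1) K₁ hh z = a →
        ∃ zs ∈ Vs C (L K₁), 2 ^ K₁ + ETS.val C (L K₁) (bridge hh) zs = a := by
      intro K₁ hK₁ hh a z hz ha
      have hz0 : z 0 = 0 := by
        have := hz 0 (by omega)
        simpa [ofList] using this
      refine ⟨_, mem_Vs_map (L K₁) (fun i => z (i+1)) ?_, ?_⟩
      · intro j r hr
        have hj : j < (L K₁).length := by
          rw [List.getElem?_eq_some_iff] at hr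
          exact hr.1
        have := hz (j+1) (by omega)
        rwa [ofList_V_succ hr] at this
      · rw [← eltN_eq_val (H.isLay hK₁) hh hz0]
        exact ha
    refine le_trans ?_ (H.near K K' h1 h2 h3 (bridge h) (bridge h') (n - 2 ^ K - 2 ^ K'))
    have hsub : P ⊆ ((Vs C (L K) ×ˢ Vs C (L K')).filter (fun q =>
        ETS.val C (L K) (bridge h) q.1 + ETS.val C (L K') (bridge h') q.2 =
          n - 2 ^ K - 2 ^ K')).image (fun q => (2 ^ K + ETS.val C (L K) (bridge h) q.1,
            2 ^ K' + ETS.val C (L K') (bridge h') q.2)) := by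
      intro q hq
      obtain ⟨hsum, ⟨z, hz, hzq⟩, ⟨z', hz', hzq'⟩⟩ := hP q hq
      obtain ⟨zs, hzs, e1⟩ := hlist K hK h q.1 z hz hzq
      obtain ⟨zs', hzs', e2⟩ := hlist K' h1 h' q.2 z' hz' hzq'
      rw [mem_image]
      refine ⟨(zs, zs'), ?_, ?_⟩
      · rw [mem_filter, mem_product]
        refine ⟨⟨hzs, hzs'⟩, ?_⟩
        simp only
        omega
      · simp only
        rw [e1, e2]
    exact (card_le_card hsub).trans card_image_le
  win := fun K K' h1 h2 h3 κ κ' ν => by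
    have hg := H.gpos K
    have hK : K0 ≤ K := by omega
    have l1 := H.len2 K hK
    have l2 := H.len2 K' h1
    obtain ⟨w, hw, _⟩ := exists_reg (l := L K) (j := (L K).length - 1) (by omega)
    obtain ⟨w', hw', _⟩ := exists_reg (l := L K') (j := (L K').length - 1) (by omega)
    have e : (L K).length + 1 - 1 = (L K).length - 1 + 1 := by omega
    have e' : (L K').length + 1 - 1 = (L K').length - 1 + 1 := by omega
    refine le_trans (le_of_eq ?_) (H.win K K' h1 h2 h3 w w' hw hw' κ κ' ν)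
    rw [e, e', ofList_V_succ hw, ofList_V_succ hw', ofList_bot_succ hw, ofList_bot_succ hw',
      ofList_len (H.isLay hK) hw, ofList_len (H.isLay h1) hw']
    congr 1
    refine Finset.filter_congr (fun vv _ => ?_)
    rw [ofList_c_succ hw, ofList_c_succ hw']

/-- `LHyp` gives the hypotheses of the frame theorem -/
theorem LHyp.layHyp (H : LHyp C L K0 g mm ε near wn a0 cnt) (Kmax : ℕ) :
    LayHyp Kmax K0 g mm ε near wn a0 cnt := LayHyp_of_own H.own Kmax

/-- **the frame theorem for lists of regions** -/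
theorem frame_L (H : LHyp C L K0 g mm ε near wn a0 cnt)
    (s : ℕ → ℕ) (s2 : ℕ) (hs2 : 1 ≤ s2)
    (hfail : ∀ Kmax, ∑ K ∈ Icc K0 Kmax, (failA mm s ε K + failB (a0 K) s2 K) < 1) :
    ∃ A : Set ℕ, (∀ n, {q : ℕ × ℕ | q.1 ∈ A ∧ q.2 ∈ A ∧ q.1 + q.2 = n}.ncard ≤
        2 * (Fb K0 g s s2 near wn (Nat.log 2 n - 1) + Fb K0 g s s2 near wn (Nat.log 2 n))) ∧
      ∀ K, K0 ≤ K → cnt K ≤ (A ∩ Set.Ico (2 ^ K) (2 ^ (K + 1))).ncard :=
  frame K0 g mm s s2 hs2 ε near wn a0 cnt (fun Kmax => H.layHyp Kmax) hfail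

end

end Pool.Agent.ETP
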