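import Mathlib
import Pool.Agent.Helper3.ETF.LHyp
import Pool.Agent.Helper3.ETF.FinalDefs
import Pool.Agent.Helper16.ETL.Body
import Pool.Agent.Helper82.ETN.Num2
import Pool.Agent.Helper32.ETT.Growth

/-!
# E-T (MP_12a1af_nt), project T*: the final assembly

The order of the choices: the exponent `δ`, the absolute constants `a`, `μ` (number of regions, pairs
of regions in rest), the constant `c` of the schedule, the codes `C`, the constant `b`, the first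
scale `K1`.
-/

open Finset Filter

namespace Pool.Agent.ETP

open Pool.Agent.ETS
open Pool.Agent.Helper29.ETK (wb gth ep CC lg)

/-- what is proved for one value of the constants -/
def OneC (a μ b c K1 : ℕ) (C : Codes) : Prop :=
  LHyp C (layL c) K1 (gth c) (mmF a c) (epsF c) (nearF a μ b c) (wnF b c) (wb c) (cntF b)

/-- the numerical part -/
def NumPart (a μ : ℕ) : Prop :=
  ∀ d : ℝ, 0 < d → d < 1 / 3 → ∃ c1 : ℕ, ∀ c, c1 ≤ c → ∀ b K1 : ℕ, 1 ≤ K1 →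
    (∀ K, K1 ≤ K → 7 * K ≤ 8 * wb c K ∧ wb c K ≤ K) → CC c ^ 10 ≤ K1 →
    Pool.Agent.Helper82.ETN.NumHyp (CC c) K1 d (gth c) (mmF a c) (epsF c) (nearF a μ b c)
      (wnF b c) (wb c)

/-- the part of the layouts and codes -/
def LayPart (a μ : ℕ) : Prop :=
  ∃ c0 : ℕ, ∀ c, c0 ≤ c → ∃ (C : Codes) (b K1 : ℕ), CC c ^ 10 ≤ K1 ∧
    (∀ K, K1 ≤ K → 7 * K ≤ 8 * wb c K ∧ wb c K ≤ K) ∧ OneC a μ b c K1 C

/-- the final statement -/
def FinalStmt : Prop :=
  ∀ ε : ℝ, 0 < ε → ∃ (A : Set ℕ) (B : ℝ), 0 < B ∧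
    (∀ᶠ n : ℕ in atTop, (({q : ℕ × ℕ | q.1 ∈ A ∧ q.2 ∈ A ∧ q.1 + q.2 = n}.ncard : ℕ) : ℝ) ≤
      (Real.log n) ^ (2 / 3 + ε)) ∧
    (∀ᶠ x : ℕ in atTop, √(x : ℝ) * Real.exp (-(B * (Real.log (Real.log x)) ^ 3)) ≤
      ((A ∩ Set.Iio x).ncard : ℝ))

/-- **The final assembly.** -/
theorem final_of {a μ : ℕ} (hN : NumPart a μ) (hL : LayPart a μ) : FinalStmt := by
  intro ε hε
  set d : ℝ := min (ε / 6) (1 / 6) with hd
  have hd0 : 0 < d := lt_min (by positivity) (by norm_num)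
  have hd1 : d < 1 / 3 := lt_of_le_of_lt (min_le_right _ _) (by norm_num)
  have hd6 : 6 * d ≤ ε := by
    have := min_le_left (ε / 6) (1 / 6)
    rw [← hd] at this
    linarith
  obtain ⟨c1, hc1⟩ := hN d hd0 hd1
  obtain ⟨c0, hc0⟩ := hL
  obtain ⟨C, b, K1, hK1, hwb, hone⟩ := hc0 (max c0 c1) (le_max_left _ _)
  set c := max c0 c1 with hc
  have hK1pos : 1 ≤ K1 := le_trans (Nat.one_le_pow _ _ (CC_pos c)) hK1
  have hnum := hc1 c (le_max_right _ _) b K1 hK1pos hwb hK1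
  obtain ⟨A, K0, n0, hK0, hA1, hA2, hA3⟩ :=
    Pool.Agent.Helper82.ETN.frame_numbers hnum hd0 hd1 (cntF b) (fun Kmax => hone.layHyp Kmax)
  obtain ⟨B, hB, hB2⟩ := Pool.Agent.Helper32.ETT.thick_of_blocks A K0 b 3 hA3
  refine ⟨A, B, hB, ?_, hB2⟩
  have hlog : Tendsto (fun n : ℕ => Real.log (n : ℝ)) atTop atTop :=
    Real.tendsto_log_atTop.comp tendsto_natCast_atTop_atTop
  filter_upwards [eventually_ge_atTop n0, hlog.eventually_ge_atTop 1] with n hn hn1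
  refine le_trans (hA2 n hn) ?_
  exact Real.rpow_le_rpow_of_exponent_le hn1 (by linarith)

end Pool.Agent.ETP
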