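import Mathlib
import Pool.Agent.Helper83.ET.AllCodes
import Pool.Agent.Helper86.ET.Q11
import Pool.Agent.Helper41.ETPN
import Pool.Agent.Helper16.ETL.Fields
import Pool.Agent.Helper3.ETF.FinalDefs

/-!
# E-T (MP_12a1af_nt), project T*: the code structures of the near lemma for the codes `mk`
-/

open Finset

namespace Pool.Agent.ETP

open Pool.Agent.ETS Pool.Agent.Helper83.ET Pool.Agent.Helper41.ETPP
open Pool.Agent.Helper29.ETK (wb gth ep CC lg Wd)

variable {c : ℕ} {TK : ℕ → Finset ℕ}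

lemma CC_ge (hc : 20 ≤ c) : 2 ^ 20 ≤ CC c := Nat.pow_le_pow_right (by norm_num) hc

lemma two_dvd_CC (hc : 20 ≤ c) : 2 ∣ CC c := dvd_pow_self 2 (by omega)

lemma CC_256 (hc : 20 ≤ c) : 256 ≤ CC c := le_trans (by norm_num) (CC_ge hc)

/-- the R side of the near lemma -/
theorem rnear_mk (hc : 20 ≤ c) : RC.RNear (mk (CC c) TK) 20 (BT (CC c)) where
  base := fun _ he => (mk_RHyp (CC_ge hc) (two_dvd_CC hc) he).toRBase
  fT := fun _ he => (locGood (CC_ge hc) (two_dvd_CC hc) he).T_Qs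
  gT := fun _ he => (locGood (CC_ge hc) (two_dvd_CC hc) he).T_QR
  mTT := fun _ he => (locGood (CC_ge hc) (two_dvd_CC hc) he).mTT
  mTTh := fun _ he => (locGood (CC_ge hc) (two_dvd_CC hc) he).mTTh
  mThTh := fun _ he => (locGood (CC_ge hc) (two_dvd_CC hc) he).mThTh

lemma one_le_BT (e : ℕ) : 1 ≤ BT (CC c) e := by
  unfold BT
  have := CC_pos c
  have : 0 < CC c ^ (e + 1) := by positivity
  omega

/-- the block set fits to the `P` code number `pidx c g` at the position `b` -/
theorem ptok_mk (hc : 20 ≤ c) {g b : ℕ} (he : 20 ≤ ep c b) (hgb : g ≤ b)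
    (hb : Wd c b ∣ b) (hg : Wd c b ∣ g) (hep : g = 0 ∨ ep c g = ep c b) :
    PTok (mk (CC c) TK) (pcode (CC c) (pidx c g)) (BT (CC c) (ep c b)) (ep c b) (b - g) := by
  have hd : CC c ^ ep c b ∣ b - g := Nat.dvd_sub hb hg
  rcases Nat.eq_zero_or_pos g with rfl | hpos
  · have hb0 : b ≠ 0 := by
      rintro rfl
      simp [ep, lg] at he
    have h3 : CC c ^ (3 * ep c b) ≤ b := by
      refine le_trans (Nat.pow_le_pow_right (CC_pos c) ?_) (Nat.pow_log_le_self (CC c) hb0)
      unfold ep lg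
      omega
    have e1 : pidx c 0 = 0 := by simp [pidx]
    rw [e1]
    exact mk_PTok_zero (CC_ge hc) (two_dvd_CC hc) he hd (by simpa using h3)
  · have e1 : pidx c g = ep c b + 1 := by
      unfold pidx
      rw [if_neg (by omega)]
      rcases hep with h | h
      · omega
      · rw [h]
    rw [e1]
    exact mk_PTok (CC_ge hc) (two_dvd_CC hc) he hd

/-- **the codes satisfy the hypotheses of the near lemma** -/
theorem nearCodes_mk (hc : 20 ≤ c) :
    NearCodes c 20 (mk (CC c) TK) 132 (fun e => 153738 * BT (CC c) e) where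
  W := fun _ => rfl
  one := by norm_num
  oneB := fun e => by
    have := one_le_BT (c := c) e
    show 1 ≤ 153738 * BT (CC c) e
    omega
  X0 := fun p => by rw [mk_X_zero]; simp
  Y0 := (rnear_mk (TK := TK) hc).Y0
  res := fun p l k x hx hlk => by
    have h := (mk_pcode (C := CC c) (TK := TK) p).res (l := k) (k := l) (l₀ := l) hlk x hx
    rw [← h]
    exact (Nat.mod_modEq _ _).symm
  PP := fun p f b hfb =>
    (PB_PP (c := pcode (CC c) p) (fun _ => rfl) (fun _ _ => rfl) hfb.le).mono (by norm_num)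
  RR := fun b v hbv => ((rnear_mk (TK := TK) hc).RR b v hbv).mono (by norm_num)
  ThTh := (rnear_mk (TK := TK) hc).ThTh
  RTRT := (rnear_mk (TK := TK) hc).RTRT
  RRT := (rnear_mk (TK := TK) hc).RRT
  RTRTh := (rnear_mk (TK := TK) hc).RTRTh
  RS := (rnear_mk (TK := TK) hc).RS
  PTPT := fun g b he hgb hb hg hep =>
    (PB_PTPT (c := pcode (CC c) (pidx c g)) (fun _ => rfl) (fun _ _ => rfl) hgb
      (ptok_mk hc he hgb hb hg hep)).mono (Nat.mul_le_mul_right _ (by norm_num))
  PTP := fun g b he hgb hb hg hep =>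
    (PB_PTP (c := pcode (CC c) (pidx c g)) (fun _ => rfl) (fun _ _ => rfl) hgb
      (one_le_BT _) (ptok_mk hc he hgb hb hg hep)
      (show CC c ^ ep c b ∣ b - g from Nat.dvd_sub hb hg)).mono
      (Nat.mul_le_mul_right _ (by norm_num))

/-- **the codes satisfy the hypotheses on single regions** -/
theorem regCodes_mk (hc : 20 ≤ c) : RegCodes c 20 (mk (CC c) TK) where
  W := fun _ => rfl
  P := fun p f b hfb => by
    have hr : IsPr (mk (CC c) TK) (pcode (CC c) p) 1 p f (Reg.P p f b) := ⟨rfl, rfl, hfb⟩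
    exact ⟨hr.card_sq (fun _ => rfl) (fun _ _ => rfl), hr.inj (fun _ => rfl) (fun _ _ => rfl)⟩
  R := fun b v _ => RC.good_R ((rnear_mk (TK := TK) hc).base 20 le_rfl) b v
  RT := fun e b v he hv _ => RC.good_RT ((rnear_mk (TK := TK) hc).base e he) hv
  RTh := fun e b v he hv _ => RC.good_RTh ((rnear_mk (TK := TK) hc).base e he) hv
  PT := fun g b he hgb hb hg hep => by
    have hr : IsPr (mk (CC c) TK) (pcode (CC c) (pidx c g)) (BT (CC c) (ep c b)) (pidx c g) g
        (Reg.PT (pidx c g) (ep c b) g b) := ⟨rfl, rfl, hgb, ptok_mk hc he hgb hb hg hep⟩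
    exact ⟨hr.card_sq (fun _ => rfl) (fun _ _ => rfl), hr.inj (fun _ => rfl) (fun _ _ => rfl)⟩

end Pool.Agent.ETP
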