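import Mathlib
import Pool.Agent.Helper3.ETF.Final
import Pool.Agent.Helper3.ETF.MkCodes
import Pool.Agent.Helper32.ETT.Prod

/-!
# E-T (MP_12a1af_nt), project T*: the final assembly, second part

From the facts of the schedule, of the windows, of the far pairs and of the sizes to `LHyp`.
-/

open Finset Filter

namespace Pool.Agent.ETP

open Pool.Agent.ETS Pool.Agent.Helper83.ET Pool.Agent.Helper32.ETT
open Pool.Agent.Helper29.ETK (wb gth ep CC lg Wd kid)

/-- the facts of the schedule for the times from `K1` -/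
structure SchedGood (a c K1 : ℕ) : Prop where
  ok : ∀ t, K1 ≤ t → KidOK c t
  size : ∀ t, K1 ≤ t → KidSize c t
  near : ∀ K K', K1 ≤ K' → K' ≤ K → K < K' + gth c K → NearK c K K'
  wb78 : ∀ t, K1 ≤ t → 7 * t ≤ 8 * wb c t
  runs : ∀ t, K1 ≤ t → 2 * (runs (kid c t) (wb c t) 0).length ≤ lenF a c t

/-- the facts of the windows for the scales from `K1` -/
structure WinGood (b c K1 : ℕ) (C : Codes) : Prop where
  good : ∀ K, K1 ≤ K → (winReg c K).Good C
  near : ∀ K K', K1 ≤ K' → K' ≤ K → K < K' + gth c K →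
    WP C (winReg c K) (winReg c K') (bwF b c K (K - K'))
  far : ∀ K K', K1 ≤ K' → K' + gth c K ≤ K → wb c K ≤ K' →
    WP C (winReg c K) (winReg c K') (wnF b c K)

/-- the facts of the far pairs for the scales from `K1` -/
def FarGood (c K1 : ℕ) (C : Codes) : Prop :=
  ∀ K K', K1 ≤ K' → K' + gth c K ≤ K → ∀ (j j' : ℕ) (r0 r1 r0' r1' : Reg),
    j + 1 < (layL c K).length →
    (Reg.R 0 0 :: layL c K)[j]? = some r0 → (layL c K)[j]? = some r1 →
    (Reg.R 0 0 :: layL c K')[j']? = some r0' → (layL c K')[j']? = some r1' →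
    ∃ B : ℕ, (∀ n Z Z', ZoneOf C r0 r1 Z → ZoneOf C r0' r1' Z' →
      (zcons K K' n Z Z').card ≤ B) ∧
      (B : ℝ) * phiV K K' (r1.top C) (r1'.top C) ≤ epsF c K

/-- the facts of the sizes for the scales from `K1` -/
def SizeGood (b c K1 : ℕ) (C : Codes) : Prop :=
  ∀ K, K1 ≤ K → ∀ r ∈ layL c K, Dft (b * (Nat.log 2 K + 1) ^ 2) (r.top C - r.bot) (r.V C)

lemma SchedGood.mono {a c K1 K2 : ℕ} (h : SchedGood a c K1) (hK : K1 ≤ K2) :
    SchedGood a c K2 where
  ok := fun t ht => h.ok t (hK.trans ht)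
  size := fun t ht => h.size t (hK.trans ht)
  near := fun K K' h1 => h.near K K' (hK.trans h1)
  wb78 := fun t ht => h.wb78 t (hK.trans ht)
  runs := fun t ht => h.runs t (hK.trans ht)

lemma WinGood.mono {b c K1 K2 : ℕ} {C : Codes} (h : WinGood b c K1 C) (hK : K1 ≤ K2) :
    WinGood b c K2 C where
  good := fun t ht => h.good t (hK.trans ht)
  near := fun K K' h1 => h.near K K' (hK.trans h1)
  far := fun K K' h1 => h.far K K' (hK.trans h1)

lemma FarGood.mono {c K1 K2 : ℕ} {C : Codes} (h : FarGood c K1 C) (hK : K1 ≤ K2) :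
    FarGood c K2 C := fun K K' h1 => h K K' (hK.trans h1)

lemma SizeGood.mono {b c K1 K2 : ℕ} {C : Codes} (h : SizeGood b c K1 C) (hK : K1 ≤ K2) :
    SizeGood b c K2 C := fun K h1 => h K (hK.trans h1)

lemma bwF_mono {b b' c K D : ℕ} (hb : b ≤ b') : bwF b c K D ≤ bwF b' c K D :=
  Nat.mul_le_mul_right _ (plog_mono hb le_rfl)

lemma WP.mono {C : Codes} {r r' : Reg} {B B' : ℕ} (h : WP C r r' B) (hB : B ≤ B') :
    WP C r r' B' := fun κ κ' ν => (h κ κ' ν).trans hB

lemma lg_le_log {c K : ℕ} (hc : 1 ≤ c) : lg c K ≤ Nat.log 2 K := by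
  unfold lg CC
  refine Nat.log_anti_left (by norm_num) ?_
  calc 2 = 2 ^ 1 := rfl
    _ ≤ 2 ^ c := Nat.pow_le_pow_right (by norm_num) hc

/-- **`LHyp` from the parts** -/
theorem oneC_of {a b c K1 : ℕ} {TK : ℕ → Finset ℕ} (hc : 20 ≤ c) (hK1 : CC c ^ 64 ≤ K1)
    (HS : SchedGood a c K1) (HW : WinGood b c K1 (mk (CC c) TK))
    (HF : FarGood c K1 (mk (CC c) TK)) (HD : SizeGood b c K1 (mk (CC c) TK))
    {b' : ℕ} (hb1 : b ≤ b') (hb2 : 153738 * (400 * CC c ^ 2) ≤ b') (hb3 : b * (2 * a + 1) ≤ b') :
    OneC a 132 b' c K1 (mk (CC c) TK) := by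
  have hcp : 0 < CC c := CC_pos c
  have hW : ∀ e, (mk (CC c) TK).W e = CC c ^ e := fun _ => rfl
  have hlen : ∀ K, K1 ≤ K → (layL c K).length ≤ lenF a c K + 1 := fun K hK =>
    length_layL_le.trans (Nat.add_le_add_right (HS.runs K hK) 1)
  have hgood : ∀ K, K1 ≤ K → ∀ r ∈ layL c K, r.Good (mk (CC c) TK) := fun K hK r hr =>
    good_of_mem_layL (regCodes_mk hc) (by omega) (HS.ok K hK) (HS.size K hK) (hK1.trans hK)
      (HW.good K hK) hr
  have hlayL : ∀ K, K1 ≤ K → IsLay (mk (CC c) TK) K (layL c K) := by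
    intro K hK
    obtain ⟨h1, h2, h3, h4⟩ := getElem?_of_chain (chain_layL hW (HS.ok K hK))
    refine ⟨len2_layL (HS.ok K hK), h1, h2, h3, h4, fun r hr => (hgood K hK r hr).1,
      fun r hr => (hgood K hK r hr).2, ?_⟩
    intro r hr hPT
    cases r with
    | PT p e f b => exact notPT_layL hW (HS.ok K hK) hr
    | P => exact hPT
    | R => exact hPT
    | RT => exact hPT
    | RTh => exact hPT
    | win => exact hPT
    | winC => exact hPT
  exact
    { chain := fun K hK => chain_layL hW (HS.ok K hK)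
      len2 := fun K hK => len2_layL (HS.ok K hK)
      bota := fun K hK r hr => by rw [last_layL hr, winReg_bot]
      amono := fun K K' _ h => wb_mono h
      notPT := fun K hK r hr => (hlayL K hK).notPT r hr
      card := fun K hK r hr => (hgood K hK r hr).1
      inj := fun K hK r hr => (hgood K hK r hr).2
      fol := fun K hK j r0 r1 h0 h1 => fol_layL hW (HS.ok K hK) h0 h1
      ptle := fun K hK p e f b h => ptle_layL (HS.ok K hK) h
      gpos := fun K => gth_pos c K
      eps0 := fun K => by unfold epsF; positivity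
      mm := fun K K' h1 h2 => by
        have h3 := hlen K' h1
        have h4 := mmF_mono (a := a) (c := c) h2
        unfold mmF at h4 ⊢
        omega
      cnt := fun K hK => by
        refine le_trans ?_ (cnt_le (hlayL K hK) (HD K hK))
        unfold cntF
        refine Nat.pow_le_pow_right (by norm_num) (Nat.sub_le_sub_left ?_ _)
        have h1 := hlen K hK
        have h2 := lg_le_log (c := c) (K := K) (by omega)
        have h3 : (layL c K).length ≤ (2 * a + 1) * (Nat.log 2 K + 1) := by
          refine h1.trans ?_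
          unfold lenF
          nlinarith
        calc b * (Nat.log 2 K + 1) ^ 2 * (layL c K).length
            ≤ b * (Nat.log 2 K + 1) ^ 2 * ((2 * a + 1) * (Nat.log 2 K + 1)) :=
              Nat.mul_le_mul_left _ h3
          _ = b * (2 * a + 1) * (Nat.log 2 K + 1) ^ 3 := by ring
          _ ≤ b' * (Nat.log 2 K + 1) ^ 3 := Nat.mul_le_mul_right _ hb3
      far := fun K K' h1 h2 => HF K K' h1 h2
      near := fun K K' h1 h2 h3 => by
        have hK : K1 ≤ K := h1.trans h2
        have h4 := near_layL (nearCodes_mk (TK := TK) hc) (by omega) (HS.ok K hK) (HS.ok K' h1)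
          (HS.size K hK) (HS.size K' h1) (HS.near K K' h1 h2 h3) (hK1.trans hK)
          (hK1.trans h1) (B := betaF b' c K) (Bw := bwF b' c K (K - K'))
          (by
            intro e he
            unfold BT betaF plog
            have h5 : CC c ^ (e + 1) ≤ CC c ^ 2 * CC c ^ ep c K := by
              rw [← pow_add]
              exact Nat.pow_le_pow_right hcp (by omega)
            have h6 : 1 ≤ (Nat.log 2 K + 1) ^ b' := Nat.one_le_pow _ _ (by omega)
            calc 153738 * (400 * CC c ^ (e + 1))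
                ≤ 153738 * (400 * (CC c ^ 2 * CC c ^ ep c K)) := by gcongr
              _ = 153738 * (400 * CC c ^ 2) * 1 * CC c ^ ep c K := by ring
              _ ≤ b' * (Nat.log 2 K + 1) ^ b' * CC c ^ ep c K := by gcongr)
          (by
            unfold betaF plog
            have h5 : 0 < CC c ^ ep c K := by positivity
            have h6 : 0 < (Nat.log 2 K + 1) ^ b' := by positivity
            have h7 : 0 < b' := by
              have : 0 < CC c ^ 2 := by positivity
              omega
            exact Nat.mul_pos (Nat.mul_pos h7 h6) h5)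
          (WP.mono (HW.near K K' h1 h2 h3) (bwF_mono hb1))
        refine h4.mono ?_
        unfold nearF
        refine Nat.mul_le_mul_right _ (Nat.mul_le_mul_right _ (Nat.pow_le_pow_right (by norm_num) ?_))
        have h5 := hlen K' h1
        unfold layL at h5
        rw [List.length_append, List.length_singleton] at h5
        have h6 : lenF a c K' ≤ lenF a c K := by
          unfold lenF
          have := lg_mono (c := c) h2
          gcongr
        omega
      win := fun K K' h1 h2 h3 w w' hw hw' κ κ' ν => by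
        rw [last_layL hw, last_layL hw']
        exact (HW.far K K' h1 h2 h3 κ κ' ν).trans (bwF_mono hb1) }

/-- **`LayPart` from the parts** -/
theorem layPart_of {a c0 : ℕ}
    (hS : ∀ c, c0 ≤ c → ∃ K1, SchedGood a c K1)
    (hC : ∀ c, c0 ≤ c → ∃ (b K1 : ℕ) (TK : ℕ → Finset ℕ), WinGood b c K1 (mk (CC c) TK) ∧
      FarGood c K1 (mk (CC c) TK) ∧ SizeGood b c K1 (mk (CC c) TK)) : LayPart a 132 := by
  refine ⟨max c0 20, fun c hc => ?_⟩
  have hc0 : c0 ≤ c := (le_max_left _ _).trans hc
  have hc20 : 20 ≤ c := (le_max_right _ _).trans hc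
  obtain ⟨K1, HS⟩ := hS c hc0
  obtain ⟨b, K2, TK, HW, HF, HD⟩ := hC c hc0
  set K3 := K1 + K2 + CC c ^ 64 with hK3
  refine ⟨mk (CC c) TK, b + 153738 * (400 * CC c ^ 2) + b * (2 * a + 1), K3, ?_, ?_, ?_⟩
  · calc CC c ^ 10 ≤ CC c ^ 64 := Nat.pow_le_pow_right (CC_pos c) (by norm_num)
      _ ≤ K3 := by omega
  · intro K hK
    exact ⟨HS.wb78 K (by omega), (HS.ok K (by omega)).wbt⟩
  · exact oneC_of hc20 (by omega) (HS.mono (by omega)) (HW.mono (by omega)) (HF.mono (by omega))
      (HD.mono (by omega)) (by omega) (by omega) (by omega)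

end Pool.Agent.ETP
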