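import Mathlib
import Pool.Agent.Helper3.ETF.Final2
import Pool.Agent.Helper29.ETK.NearT
import Pool.Agent.Helper99.ETK.Count
import Pool.Agent.Helper82.ETN.Win

/-!
# E-T (MP_12a1af_nt), project T*: the facts of the schedule hold
-/

open Finset Filter

namespace Pool.Agent.ETP

open Pool.Agent.ETS
open Pool.Agent.Helper29.ETK (wb gth ep CC lg Wd kid epo)

/-- large times have large epochs and sizes -/
lemma le_epo {c e t : ℕ} (hc : 1 ≤ c) (ht : CC c ^ (3 * e + 1) ≤ t) :
    e ≤ epo c t ∧ 3 * e + 1 ≤ lg c t := by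
  have h1 : 1 < CC c := Nat.one_lt_two_pow (by omega)
  have h2 : 3 * e + 1 ≤ lg c t := by
    unfold lg
    have ht0 : t ≠ 0 := by
      have : 0 < CC c ^ (3 * e + 1) := pow_pos (by omega) _
      omega
    exact (Nat.le_log_iff_pow_le h1 ht0).2 ht
  unfold epo
  omega

/-- **the facts of the schedule** -/
theorem schedGood {c : ℕ} (hc : 20 ≤ c) : ∃ K1, SchedGood 24 c K1 := by
  obtain ⟨K2, hK2⟩ := Pool.Agent.Helper82.ETN.window_ev (c := c) (by omega)
  set K1 := K2 + CC c ^ (3 * (CC c + 20) + 1) with hK1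
  have key : ∀ t, K1 ≤ t → CC c + 20 ≤ epo c t ∧ 3 * (CC c + 20) + 1 ≤ lg c t := fun t ht =>
    le_epo (by omega) (by omega)
  refine ⟨K1, ?_, ?_, ?_, ?_, ?_⟩
  · intro t ht
    exact Pool.Agent.Helper29.ETK.kidOK (by omega) (by have := key t ht; omega)
  · intro t ht
    exact Pool.Agent.Helper29.ETK.kidSize (by omega) (by have := key t ht; omega)
  · intro K K' h1 h2 h3
    exact Pool.Agent.Helper29.ETK.nearK (by omega) (by have := key K (h1.trans h2); omega) h2 h3
  · intro t ht
    exact (hK2 t (by omega)).1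
  · intro t ht
    have h := key t ht
    have h1 := Pool.Agent.Helper99.ETK.length_runs (c := c) (by omega) (show 6 ≤ epo c t by omega)
      (Pool.Agent.Helper29.ETK.kidOK (by omega) (by omega)) 0
    unfold lenF
    omega

end Pool.Agent.ETP
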