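import Mathlib
import Pool.Agent.Helper3.ETF.SchedInst
import Pool.Agent.Helper82.ETN.Num4

/-!
# E-T (MP_12a1af_nt), project T*: the final assembly, third part

The final statement from the existence of the window sets and the bounds of far pairs.
-/

open Finset Filter

namespace Pool.Agent.ETP

open Pool.Agent.ETS Pool.Agent.Helper83.ET
open Pool.Agent.Helper29.ETK (CC)

theorem finalStmt_of {c0 : ℕ}
    (hC : ∀ c, c0 ≤ c → ∃ (b K1 : ℕ) (TK : ℕ → Finset ℕ), WinGood b c K1 (mk (CC c) TK) ∧
      FarGood c K1 (mk (CC c) TK) ∧ SizeGood b c K1 (mk (CC c) TK)) : FinalStmt :=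
  final_of (a := 24) (μ := 132) (Pool.Agent.Helper82.ETN.numPart 24 132)
    (layPart_of (c0 := max c0 20) (fun _ hc => schedGood ((le_max_right _ _).trans hc))
      (fun c hc => hC c ((le_max_left _ _).trans hc)))

end Pool.Agent.ETP
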