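import Mathlib
import Pool.Agent.Helper83.ET.X2F
import Pool.Agent.Helper5.ETP.Low
import Pool.Agent.Helper29.ETK.NearT
import Pool.Agent.Helper3.ETF.MkCodes
import Pool.Agent.ETS.Glue2

/-!
# E-T (MP_12a1af_nt), project T*: far pairs, `P` zone at `K` with a known lower part (LOW)
-/

open Finset

namespace Pool.Agent.ETP

open Pool.Agent.Helper29.ETK (Kid kid wb ep Wd av ab ag ak CC Hb nb wcomp gth lg epo Gq kk)
open Pool.Agent.ETS Pool.Agent.Helper83.ET Pool.Agent.Helper5.ETP

variable {c K K' : ℕ} {TK : ℕ → Finset ℕ}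

/-- what is used of the zone at the time `K'` -/
structure LoD (c : ℕ) (d : Desc) : Prop where
  lo : ∀ s < d.lo, Wd c s ∣ d.lo
  ip : d.IsR → d.Ip c = d.lo ∨ (d.Ip c = d.lo + Wd c d.lo ∧ Wd c d.lo ∣ d.lo ∧ d.Ip c ≤ d.hi c)

lemma loD_of (HS : KidSize c K') {d : Desc} {r0 r1 : Reg} (hd : IsDesc c K' d r0 r1) :
    LoD c d := by
  cases d with
  | P g e =>
    obtain ⟨rfl, h0, h1, h2, h3, h4⟩ := hd
    have hcut : KCut c K' e := by
      rcases h4 with h4 | h4
      · exact Or.inr (Or.inl h4)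
      · exact Or.inr (Or.inr (by
          rw [h3 (e - 1) (by omega) (by omega)]
          exact fun h => h4 h.symm))
    obtain ⟨d1, d2⟩ := HS.P g g (by omega) (h3 g le_rfl h1) e h1 h2 hcut h3
    exact
      { lo := fun s hs => (Wd_dvd_Wd (by show s ≤ e - 1; have : s < g := hs; omega)).trans d2
        ip := fun h => absurd h (by simp [Desc.IsR]) }
  | PT g b =>
    obtain ⟨rfl, h0, h1, h2, h3, h4, h5⟩ := hd
    have hW := Wd_pos c b
    obtain ⟨d1, d2, d3, d4⟩ := HS.PT g b g (by omega) (h4 g le_rfl (by omega))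
    exact
      { lo := fun s hs => (Wd_dvd_Wd (by have : s < g := hs; omega)).trans d2
        ip := fun h => absurd h (by simp [Desc.IsR]) }
  | RS g b v =>
    obtain ⟨rfl, rfl, h1, h2, h3, h4, h5, h6⟩ := hd
    have hW := Wd_pos c b
    obtain ⟨d1, d2, d3, d4⟩ := HS.PT g b g (by omega) (h5 g le_rfl (by omega))
    exact
      { lo := fun s hs => (Wd_dvd_Wd (by have : s < b := hs; omega)).trans d1
        ip := fun _ => Or.inr ⟨rfl, d1, h3⟩ }
  | R b v =>
    obtain ⟨rfl, h0, h1, h2, h3, h4⟩ := hd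
    have hk := h3 b le_rfl h1
    have hcut : KCut c K' b := by
      rcases h4 with h4 | h4
      · exact Or.inl h4
      · exact Or.inr (Or.inr (by rw [hk]; exact h4))
    obtain ⟨d1, d2⟩ := HS.R v b (by omega) hk hcut
    exact
      { lo := fun s hs => (Wd_dvd_Wd (by have : s < b := hs; omega)).trans d1
        ip := fun _ => Or.inl rfl }
  | RT b v =>
    obtain ⟨rfl, h0, h1, h2, h3, h4⟩ := hd
    have hk := h3 b le_rfl h1
    have hcut : KCut c K' b := by
      rcases h4 with h4 | h4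
      · exact Or.inl h4
      · exact Or.inr (Or.inr (by rw [hk]; exact h4))
    obtain ⟨d1, d2⟩ := HS.RT v b (by omega) hk hcut
    have hle := add_le_of_dvd h1 d1 d2
    exact
      { lo := fun s hs => (Wd_dvd_Wd (by have : s < b := hs; omega)).trans d1
        ip := fun _ => Or.inr ⟨rfl, d1, hle⟩ }
  | RTh b v =>
    obtain ⟨rfl, h0, h1, h2, h3, h4⟩ := hd
    have hk := h3 b le_rfl h1
    have hcut : KCut c K' b := by
      rcases h4 with h4 | h4
      · exact Or.inl h4
      · exact Or.inr (Or.inr (by rw [hk]; exact h4))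
    obtain ⟨d1, d2⟩ := HS.RTh v b (by omega) hk hcut
    have hle := add_le_of_dvd h1 d1 d2
    exact
      { lo := fun s hs => (Wd_dvd_Wd (by have : s < b := hs; omega)).trans d1
        ip := fun _ => Or.inr ⟨rfl, d1, hle⟩ }

/-- **the count**: `P` zone `[g, b)` with a block of width `w` above it, digits below `lo'` known -/
lemma low_num {g b w lo' hi' x N : ℕ} {r0 r1 r0' r1' : Reg} {C : Codes}
    (hc : 20 ≤ c) (hg : K' + gth c K ≤ K) (hv : r1.top C = b + w) (hv' : r1'.top C = hi')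
    (hgb : g ≤ b) (hw : 2 ∣ w) (h1 : g ≤ lo') (hlt : hi' < b + w) (h2 : b + w ≤ K')
    (hx : (10 * CC c + 5) * x ≤ 10 * CC c * (K - K'))
    (i1 : lo' - g < (b - g + 1) / 2 → b + w - lo' ≤ x + (lo' - g))
    (i2 : (b - g + 1) / 2 ≤ lo' - g → hi' ≤ b + x)
    (h16 : 16 * CC c ≤ gth c K)
    (hN : N ≤ (2 ^ ((b - g + 1) / 2 - (lo' - g)) + 1) * 2 ^ (w / 2))
    (hcard : ∀ n Z Z', ZoneOf C r0 r1 Z → ZoneOf C r0' r1' Z' → (zcons K K' n Z Z').card ≤ N) :
    FarOK C c K K' r0 r1 r0' r1' := by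
  have hC := CC_ge hc
  have hKK : K' ≤ K := by omega
  obtain ⟨m, hm⟩ : ∃ m, m = (b - g + 1) / 2 - (lo' - g) + w / 2 := ⟨_, rfl⟩
  have hN2 : N ≤ 2 * 2 ^ m := by
    refine hN.trans ?_
    rw [hm, pow_add, ← mul_assoc]
    apply Nat.mul_le_mul_right
    have := Nat.one_le_two_pow (n := (b - g + 1) / 2 - (lo' - g))
    omega
  refine ⟨2 * 2 ^ m, fun n Z Z' hZ hZ' => (hcard n Z Z' hZ hZ').trans hN2, ?_⟩
  rw [hv, hv']
  have h2M : 2 ≤ 2 ^ (gth c K / (16 * CC c)) := by
    have h1 : 1 ≤ gth c K / (16 * CC c) := by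
      rw [Nat.one_le_div_iff (by omega)]
      exact h16
    calc 2 = 2 ^ 1 := rfl
      _ ≤ _ := Nat.pow_le_pow_right (by norm_num) h1
  refine num_triv (C := CC c) (x := x) (le_trans (by norm_num) hC) hg h2M hx ?_
    (phiV_eq_of_le hKK h2 (hlt.le.trans h2))
  have e3 : |((b + w : ℕ) : ℝ) - hi'| = ((b + w : ℕ) : ℝ) - hi' := by
    apply abs_of_nonneg
    have : (hi' : ℝ) ≤ ((b + w : ℕ) : ℝ) := by exact_mod_cast hlt.le
    linarith
  rw [e3]
  -- `2 m ≤ (b + w - hi') + x`
  have key : 2 * m + hi' ≤ b + w + x := by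
    rcases Nat.lt_or_ge (lo' - g) ((b - g + 1) / 2) with h | h
    · have := i1 h
      omega
    · have := i2 h
      omega
  have key' : 2 * (m : ℝ) + hi' ≤ ((b + w : ℕ) : ℝ) + x := by exact_mod_cast key
  linarith

/-- **(LOW)** -/
theorem LOW_mk (hc : 20 ≤ c) (hg : K' + gth c K ≤ K) (h16 : 16 * CC c ≤ gth c K)
    (H : OneK c 20 K) (H' : OneK c 20 K') (hk : FarKin c K K') :
    ∀ d d' r0 r1 r0' r1', IsDesc c K d r0 r1 → IsDesc c K' d' r0' r1' → d.IsP →
    d.hi c ≤ K' → d.lo ≤ d'.lo → (d'.IsP → d.lo < d'.lo) → d'.hi c < d.hi c →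
    FarOK (mk (CC c) TK) c K K' r0 r1 r0' r1' := by
  intro d d' r0 r1 r0' r1' hd hd' hP h1 h2 h3 h4
  have hC := CC_ge hc
  have hHR : RegCodes c 20 (mk (CC c) TK) := regCodes_mk hc
  have hTc : ∀ e, 20 ≤ e → ((mk (CC c) TK).T e).card = 2 ^ (CC c ^ e / 2 - 10) := fun e he =>
    (locGood hC (two_dvd_CC hc) he).T_card
  have hT : ∀ e, 20 ≤ e → ((mk (CC c) TK).T e).card ^ 2 ≤ 2 ^ (mk (CC c) TK).W e := by
    intro e he
    rw [hTc e he, ← pow_mul]
    exact Nat.pow_le_pow_right (by norm_num) (by show _ ≤ CC c ^ e; omega)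
  have t1 := top_desc hHR hd
  have t2 := top_desc hHR hd'
  have z2 : ∀ Z, ZoneOf (mk (CC c) TK) r0' r1' Z → ZFacts Z d'.lo (d'.hi c) := fun Z hZ =>
    zfacts_desc hHR hT (by omega) H' hd' hZ
  have l1 := desc_le hd
  have l2 := desc_le hd'
  have L := loD_of H'.S hd'
  have oc : Occ c K d := ⟨r0, r1, hd⟩
  have oc' : Occ c K' d' := ⟨r0', r1', hd'⟩
  have hRP' : d'.IsR ∨ d'.IsP := by cases d' <;> simp [Desc.IsR, Desc.IsP]
  have hW' := Wd_pos c d'.lo
  have hdl : d'.lo < d.hi c := by omega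
  have hnb := Pool.Agent.Helper29.ETK.Wd_le_nb (c := c) (by omega) d'.lo
  -- the data of the zone at `K`
  obtain ⟨b, w, hbw, hgb, hw2, hb1, hb2, hcard⟩ : ∃ b w, d.hi c = b + w ∧ d.lo ≤ b ∧ 2 ∣ w ∧
      (w = 0 ∨ (w = Wd c b ∧ Wd c b ∣ b)) ∧
      (∀ s, s < d.hi c → s ≤ b → Wd c s ∣ d.lo) ∧
      (d'.lo ≤ b → ∀ n Z Z', ZoneOf (mk (CC c) TK) r0 r1 Z → ZoneOf (mk (CC c) TK) r0' r1' Z' →
        (zcons K K' n Z Z').card ≤
          (2 ^ ((b - d.lo + 1) / 2 - (d'.lo - d.lo)) + 1) * 2 ^ (w / 2)) := by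
    have hg1 := H.K.wbt
    have hg2 := H'.K.wbt
    cases d with
    | RS g b v => exact absurd hP (by simp [Desc.IsP])
    | R b v => exact absurd hP (by simp [Desc.IsP])
    | RT b v => exact absurd hP (by simp [Desc.IsP])
    | RTh b v => exact absurd hP (by simp [Desc.IsP])
    | P g e =>
      obtain ⟨rfl, h0, h5, h6, h7, h8⟩ := hd
      change g ≤ d'.lo at h2
      change d'.hi c < e at h4
      change d'.lo < e at hdl
      change e ≤ K' at h1
      have hcut : KCut c K e := by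
        rcases h8 with h8 | h8
        · exact Or.inr (Or.inl h8)
        · exact Or.inr (Or.inr (by
            rw [h7 (e - 1) (by omega) (by omega)]
            exact fun h => h8 h.symm))
      obtain ⟨d1, d2⟩ := H.S.P g g (by omega) (h7 g le_rfl h5) e h5 h6 hcut h7
      refine ⟨e, 0, rfl, h5.le, dvd_zero _, Or.inl rfl, fun s hs _ => ?_, ?_⟩
      · exact (Wd_dvd_Wd (by show s ≤ e - 1; have : s < e := hs; omega)).trans d2
      · intro hb n Z Z' hZ hZ'
        have f' := z2 Z' hZ'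
        obtain ⟨r₀, hlow⟩ := f'.low
        obtain ⟨a, κ, -, rfl⟩ := zoneOf_notPT h0 hZ
        show _ ≤ (2 ^ ((e - g + 1) / 2 - (d'.lo - g)) + 1) * 2 ^ (0 / 2)
        rw [Nat.zero_div, pow_zero, mul_one]
        refine low_P (mk (CC c) TK) (r₀ := r₀) (mk_pcode _) f'.ok ?_ ?_ (by omega)
          (by rw [f'.top]; omega) (by rw [f'.top]; omega) (by rw [f'.top]; omega)
        · rw [show g + (d'.lo - g) = d'.lo by omega]
          exact hlow
        · omega
    | PT g b =>
      obtain ⟨rfl, h0, h5, h6, h7, h8, h9⟩ := hd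
      change g ≤ d'.lo at h2
      change d'.hi c < b + Wd c b at h4
      change d'.lo < b + Wd c b at hdl
      change b + Wd c b ≤ K' at h1
      obtain ⟨d1, d2, -, -, d5, d6⟩ := desc_PT H (by omega) h5 (by omega) h8
      refine ⟨b, Wd c b, rfl, h5, ?_, Or.inr ⟨rfl, d1⟩, fun s _ hs => ?_, ?_⟩
      · exact dvd_pow (two_dvd_CC hc) (by omega)
      · exact (Wd_dvd_Wd hs).trans d2
      · intro hb n Z Z' hZ hZ'
        have f' := z2 Z' hZ'
        obtain ⟨r₀, hlow⟩ := f'.low
        obtain ⟨a, κ, -, rfl⟩ := zoneOf_notPT h0 hZ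
        have hWe : (mk (CC c) TK).W (ep c b) = Wd c b := rfl
        show _ ≤ (2 ^ ((b - g + 1) / 2 - (d'.lo - g)) + 1) * 2 ^ (Wd c b / 2)
        refine (low_PT (mk (CC c) TK) (r₀ := r₀) (k := d'.lo - g) (mk_pcode _) f'.ok ?_ ?_
          (by rw [hWe]; omega) (by rw [f'.top]; omega) (by rw [f'.top]; omega)
          (by rw [f'.top, hWe]; omega)).trans ?_
        · rw [show g + (d'.lo - g) = d'.lo by omega]
          exact hlow
        · omega
        · apply Nat.mul_le_mul_left
          rw [hTc _ d5]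
          exact Nat.pow_le_pow_right (by norm_num) (by show _ ≤ CC c ^ ep c b / 2; omega)
  -- the bottom is not in the block
  have hlb : d'.lo ≤ b := by
    rcases hb1 with h | ⟨h, hdb⟩
    · omega
    · by_contra hlt
      push Not at hlt
      have := add_le_of_dvd hlt hdb (L.lo b hlt)
      omega
  have hKK : K' ≤ K := by omega
  have hmono : ∀ x y, x ≤ y → (10 * CC c + 9) * y ≤ 10 * CC c * (K - K') →
      (10 * CC c + 5) * x ≤ 10 * CC c * (K - K') := fun x y hxy hy =>
    (Nat.mul_le_mul (by omega) hxy).trans hy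
  rcases Nat.lt_or_ge (d'.lo - d.lo) ((b - d.lo + 1) / 2) with hcase | hcase
  · refine low_num (g := d.lo) (lo' := d'.lo) (x := (b + w - d'.lo) - (d'.lo - d.lo)) hc hg
      (t1.trans hbw) t2 hgb hw2 h2 (by omega) (by omega) ?_ (fun _ => by omega)
      (fun h => by omega) h16 le_rfl (hcard hlb)
    rcases hRP' with hR' | hP'
    · have F1 := hk.F1 d d' oc oc' hP hR' h2
      rw [hbw] at F1
      rcases L.ip hR' with h | ⟨h, hdv, hle⟩
      · rw [h] at F1
        exact hmono _ _ (by omega) F1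
      · rcases Nat.eq_or_lt_of_le h2 with heq | hlt
        · have F6 := hk.F6 d d' oc oc' hP hR' heq.symm
          rw [h] at F1
          have h10 : 1024 * (CC c * Wd c d'.lo) ≤ b + w - d'.lo := by omega
          have h11 : (10 * CC c + 5) * (b + w - d'.lo) ≤
              (10 * CC c + 9) * (b + w - (d'.lo + Wd c d'.lo)) := by
            obtain ⟨z, hz⟩ : ∃ z, b + w - d'.lo = z := ⟨_, rfl⟩
            rw [Nat.sub_add_eq, hz]
            rw [hz] at h10
            have h12 : Wd c d'.lo ≤ CC c * Wd c d'.lo := Nat.le_mul_of_pos_left _ (by omega)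
            obtain ⟨y, hy⟩ : ∃ y, z = Wd c d'.lo + y := ⟨z - Wd c d'.lo, by omega⟩
            rw [hy, Nat.add_sub_cancel_left]
            have h13 : 1023 * (CC c * Wd c d'.lo) ≤ y := by omega
            nlinarith
          have : b + w - d'.lo - (d'.lo - d.lo) = b + w - d'.lo := by omega
          rw [this]
          exact h11.trans F1
        · have h14 := add_le_of_dvd hlt (hb2 d'.lo hdl hlb) hdv
          rw [h] at F1
          exact hmono _ _ (by omega) F1
    · have F1P := hk.F1P d d' oc oc' hP hP' (h3 hP')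
      rw [hbw] at F1P
      exact hmono _ _ (by omega) F1P
  · rcases Nat.lt_or_ge b (d'.hi c) with hbh | hbh
    · refine low_num (g := d.lo) (lo' := d'.lo) (x := d'.hi c - b) hc hg
        (t1.trans hbw) t2 hgb hw2 h2 (by omega) (by omega) ?_ (fun h => by omega)
        (fun h => by omega) h16 le_rfl (hcard hlb)
      rcases hRP' with hR' | hP'
      · have F1 := hk.F1 d d' oc oc' hP hR' h2
        rw [hbw] at F1
        refine hmono _ _ ?_ F1
        rcases L.ip hR' with h | ⟨h, hdv, hle⟩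
        · omega
        · rcases Nat.eq_or_lt_of_le hlb with heq | hlt
          · exfalso
            rcases hb1 with h5 | ⟨h5, hdb⟩
            · omega
            · rw [heq] at h
              omega
          · rcases hb1 with h5 | ⟨h5, hdb⟩
            · omega
            · have := add_le_of_dvd hlt hdv ((Wd_dvd_Wd hlb).trans hdb)
              omega
      · have F1P := hk.F1P d d' oc oc' hP hP' (h3 hP')
        rw [hbw] at F1P
        exact hmono _ _ (by omega) F1P
    · refine low_num (g := d.lo) (lo' := d'.lo) (x := 0) hc hg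
        (t1.trans hbw) t2 hgb hw2 h2 (by omega) (by omega) ?_ (fun h => by omega)
        (fun h => by omega) h16 le_rfl (hcard hlb)
      rw [mul_zero]
      exact Nat.zero_le _

end Pool.Agent.ETP
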