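import Mathlib
import Pool.Agent.ETS.FinalA
import Pool.Agent.Helper3.ETF.LowMk

/-!
# E-T (MP_12a1af_nt), project T*: (LOW) in the form used by the final assembly
-/

namespace Pool.Agent.ETS

open Pool.Agent.Helper29.ETK (Kid kid wb ep Wd av ab ag ak CC Hb nb wcomp gth lg epo Gq kk)
open Pool.Agent.ETP Pool.Agent.Helper83.ET

lemma CaseHyp.g16 {c K K' : ℕ} (H : CaseHyp c K K') : 16 * CC c ≤ gth c K := by
  have hc := H.c20
  have h1 := epo_mono (c := c) (H.K1.trans (show K' ≤ K by have := H.g; omega))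
  rw [epo_pow (by omega)] at h1
  exact (farNum_mk hc (by omega) H.g).g16

theorem hLOW (c K K' : ℕ) (TK : ℕ → Finset ℕ) (H : CaseHyp c K K') :
    ∀ d d' r0 r1 r0' r1', IsDesc c K d r0 r1 → IsDesc c K' d' r0' r1' → d.IsP →
    d.hi c ≤ K' → d.lo ≤ d'.lo → (d'.IsP → d.lo < d'.lo) → d'.hi c < d.hi c →
    FarOK (mk (CC c) TK) c K K' r0 r1 r0' r1' :=
  LOW_mk H.c20 H.g H.g16 H.O H.O' H.F

end Pool.Agent.ETS
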